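import Mathlib

/-!
# Dyadic blocks of natural numbers and finitary permutations
-/

set_option autoImplicit false

namespace Pool.Agent.Q211.ZP

/-- The index of the block of level `n` that contains `k`. -/
def cx : ℕ → ℕ → ℕ
  | 0, _ => 0
  | n + 1, k => 2 * cx n k + (k.testBit n).toNat

theorem cx_lt (n k : ℕ) : cx n k < 2 ^ n := by
  induction n with
  | zero => exact Nat.one_pos
  | succ n ih =>
    rw [cx, pow_succ]
    cases k.testBit n <;> simp <;> omega

theorem cx_half (n k : ℕ) : cx (n + 1) k / 2 = cx n k := by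
  rw [cx]
  cases k.testBit n
  · simp
  · simp
    omega

theorem cx_mono {m n a b : ℕ} (h : m ≤ n) (hab : cx n a = cx n b) : cx m a = cx m b := by
  induction n, h using Nat.le_induction with
  | base => exact hab
  | succ n _ ih =>
    refine ih ?_
    rw [← cx_half, hab, cx_half]

theorem cx_congr {n a b : ℕ} (h : ∀ j < n, a.testBit j = b.testBit j) : cx n a = cx n b := by
  induction n with
  | zero => rfl
  | succ n ih =>
    rw [cx, cx, ih fun j hj => h j (by omega), h n (by omega)]

theorem exists_cx (n i m : ℕ) (hi : i < 2 ^ n) : ∃ k, m < k ∧ cx n k = i := by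
  induction n generalizing i m with
  | zero =>
    refine ⟨m + 1, by omega, ?_⟩
    have h1 : i = 0 := by
      rw [pow_zero] at hi
      omega
    rw [h1]
    rfl
  | succ n ih =>
    have hi' : i / 2 < 2 ^ n := by
      rw [pow_succ] at hi
      omega
    obtain ⟨k, hk, h1⟩ := ih (i / 2) (m + 2 ^ n) hi'
    have key : ∀ b : Bool, ∃ k', m < k' ∧ cx n k' = i / 2 ∧ k'.testBit n = b := by
      intro b
      have hlt : k % 2 ^ n < 2 ^ n := Nat.mod_lt _ (Nat.two_pow_pos n)
      refine ⟨2 ^ n * (2 * (m + 1) + b.toNat) + k % 2 ^ n, ?_, ?_, ?_⟩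
      · have h2 : 1 * (2 * (m + 1) + b.toNat) ≤ 2 ^ n * (2 * (m + 1) + b.toNat) :=
          Nat.mul_le_mul_right _ (Nat.one_le_two_pow)
        omega
      · rw [← h1]
        refine cx_congr fun j hj => ?_
        rw [Nat.testBit_two_pow_mul_add _ hlt, if_pos hj, Nat.testBit_mod_two_pow]
        simp [hj]
      · rw [Nat.testBit_two_pow_mul_add _ hlt, if_neg (lt_irrefl n), Nat.sub_self]
        cases b <;> simp
    obtain ⟨k', h2, h3, h4⟩ := key (i % 2 == 1)
    refine ⟨k', h2, ?_⟩
    rw [cx, h3, h4]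
    rcases Nat.mod_two_eq_zero_or_one i with h5 | h5 <;> rw [h5] <;> simp <;> omega

theorem cx_infinite (n i : ℕ) (hi : i < 2 ^ n) : {k | cx n k = i}.Infinite := by
  intro h
  obtain ⟨m, hm⟩ := h.bddAbove
  obtain ⟨k, hk, h1⟩ := exists_cx n i m hi
  exact absurd (hm h1) (by omega)

end Pool.Agent.Q211.ZP
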