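import Mathlib

/-!
# Block permutations of the Cantor cube

The group `Hm` of the homeomorphisms of the Cantor cube, given by moduli of continuity, and the
homeomorphisms that permute the blocks `P^j K`, where `P` is a contraction with clopen range and
`K` is the complement of the range of `P`.
-/

set_option autoImplicit false

namespace Pool.Agent.Q211.ZP

/-- The Cantor cube. -/
abbrev CC : Type := ℕ → Bool

/-- Agreement of the first `n` coordinates. -/
def Agr (n : ℕ) (x y : CC) : Prop := ∀ i < n, x i = y i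

theorem Agr.refl (n : ℕ) (x : CC) : Agr n x x := fun _ _ => rfl

theorem Agr.symm {n : ℕ} {x y : CC} (h : Agr n x y) : Agr n y x := fun i hi => (h i hi).symm

theorem Agr.trans {n : ℕ} {x y z : CC} (h : Agr n x y) (h' : Agr n y z) : Agr n x z :=
  fun i hi => (h i hi).trans (h' i hi)

theorem Agr.mono {m n : ℕ} {x y : CC} (h : Agr n x y) (hmn : m ≤ n) : Agr m x y :=
  fun i hi => h i (lt_of_lt_of_le hi hmn)

/-- Uniform continuity. -/
def UC (f : CC → CC) : Prop := ∀ n, ∃ m, ∀ x y, Agr m x y → Agr n (f x) (f y)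

theorem UC.comp {f g : CC → CC} (hf : UC f) (hg : UC g) : UC fun x => f (g x) := by
  intro n
  obtain ⟨m, hm⟩ := hf n
  obtain ⟨k, hk⟩ := hg m
  exact ⟨k, fun x y h => hm _ _ (hk x y h)⟩

theorem UC.id : UC fun x => x := fun n => ⟨n, fun _ _ h => h⟩

theorem UC.continuous {f : CC → CC} (hf : UC f) : Continuous f := by
  refine continuous_pi fun i => ?_
  rw [continuous_iff_continuousAt]
  intro x
  obtain ⟨m, hm⟩ := hf (i + 1)
  have h1 : {y : CC | Agr m x y} ∈ nhds x := by
    have h2 : {y : CC | Agr m x y} = Set.pi (Finset.range m : Set ℕ) fun j => {x j} := by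
      ext y
      simp only [Set.mem_ofPred_eq, Set.mem_pi, Finset.coe_range, Set.mem_Iio,
        Set.mem_singleton_iff]
      exact ⟨fun h i hi => (h i hi).symm, fun h i hi => (h i hi).symm⟩
    rw [h2]
    refine set_pi_mem_nhds (Finset.finite_toSet _) fun j _ => ?_
    exact IsOpen.mem_nhds (isOpen_discrete _) rfl
  refine ContinuousAt.congr (f := fun _ => f x i) continuousAt_const ?_
  refine Filter.mem_of_superset h1 fun y hy => ?_
  exact hm x y hy i (Nat.lt_succ_self i)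

theorem UC.of_continuous {f : CC → CC} (hf : Continuous f) : UC f := by
  intro n
  by_contra hc
  push Not at hc
  choose x y h1 h2 using hc
  obtain ⟨a, -, φ, hφ, h3⟩ := isCompact_univ.tendsto_subseq (x := x) fun n => Set.mem_univ _
  have h4 : Filter.Tendsto (fun k => y (φ k)) Filter.atTop (nhds a) := by
    rw [tendsto_pi_nhds] at h3 ⊢
    intro i
    refine (h3 i).congr' ?_
    filter_upwards [Filter.eventually_gt_atTop i] with k hk
    exact h1 (φ k) i (lt_of_lt_of_le hk (hφ.le_apply))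
  have h5 := (hf.tendsto a).comp h3
  have h6 := (hf.tendsto a).comp h4
  rw [tendsto_pi_nhds] at h5 h6
  have h7 : ∀ᶠ k in Filter.atTop, ∀ i < n, f (x (φ k)) i = f (y (φ k)) i := by
    have h8 : ∀ i, ∀ᶠ k in Filter.atTop, f (x (φ k)) i = f (y (φ k)) i := by
      intro i
      have h9 := (h5 i).eventually (IsOpen.mem_nhds (isOpen_discrete {f a i}) rfl)
      have h10 := (h6 i).eventually (IsOpen.mem_nhds (isOpen_discrete {f a i}) rfl)
      filter_upwards [h9, h10] with k h11 h12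
      exact (Set.mem_singleton_iff.1 h11).trans (Set.mem_singleton_iff.1 h12).symm
    have h9 := (Filter.eventually_all_finite (Set.finite_lt_nat n)).2 fun i _ => h8 i
    filter_upwards [h9] with k hk i hi
    exact hk i hi
  obtain ⟨k, hk⟩ := h7.exists
  exact h2 (φ k) hk

/-- The homeomorphisms of the Cantor cube. -/
def Hm : Subgroup (Equiv.Perm CC) where
  carrier := {g | UC g ∧ UC g.symm}
  one_mem' := ⟨UC.id, UC.id⟩
  mul_mem' {g h} hg hh := ⟨hg.1.comp hh.1, hh.2.comp hg.2⟩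
  inv_mem' {g} hg := ⟨hg.2, hg.1⟩

/-- Contractions with clopen range. -/
structure Contr (P : CC → CC) (l : ℕ) : Prop where
  up : ∀ n x y, Agr n x y → Agr (n + 1) (P x) (P y)
  down : ∀ n x y, Agr (n + l) (P x) (P y) → Agr n x y
  rng : ∀ x y, Agr l x y → x ∈ Set.range P → y ∈ Set.range P

namespace Contr

variable {P : CC → CC} {l : ℕ} (h : Contr P l)

include h

theorem inj : Function.Injective P := by
  intro x y hxy
  funext i
  refine h.down (i + 1) x y ?_ i (Nat.lt_succ_self i)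
  rw [hxy]
  exact Agr.refl _ _

theorem iter_up (j n : ℕ) (x y : CC) (hxy : Agr n x y) : Agr (n + j) (P^[j] x) (P^[j] y) := by
  induction j with
  | zero => exact hxy
  | succ j ih =>
    rw [Function.iterate_succ_apply', Function.iterate_succ_apply']
    exact h.up _ _ _ ih

/-- Points that are close to `P^j y`. -/
theorem iter_near (j n : ℕ) (y x : CC) (hx : Agr (n + l * j) (P^[j] y) x) :
    ∃ y', x = P^[j] y' ∧ Agr n y y' := by
  induction j generalizing x with
  | zero => exact ⟨x, rfl, hx⟩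
  | succ j ih =>
    rw [Function.iterate_succ_apply'] at hx
    obtain ⟨x', rfl⟩ := h.rng _ _ (hx.mono (by rw [Nat.mul_succ]; omega)) ⟨_, rfl⟩
    obtain ⟨y', h1, h2⟩ := ih x' (h.down _ _ _ (by rwa [Nat.mul_succ, ← add_assoc] at hx))
    refine ⟨y', ?_, h2⟩
    rw [Function.iterate_succ_apply', h1]

theorem iter_inj (j : ℕ) : Function.Injective P^[j] := h.inj.iterate j

omit h in
theorem mem_range_of_le {i j : ℕ} (hij : i ≤ j) {x : CC} (hx : x ∈ Set.range P^[j]) :
    x ∈ Set.range P^[i] := by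
  obtain ⟨y, rfl⟩ := hx
  obtain ⟨k, rfl⟩ := Nat.exists_eq_add_of_le hij
  exact ⟨P^[k] y, by rw [← Function.iterate_add_apply]⟩

theorem not_mem_range {i j : ℕ} (hij : i < j) {y : CC} (hy : y ∉ Set.range P) :
    P^[i] y ∉ Set.range P^[j] := by
  rintro ⟨z, hz⟩
  obtain ⟨k, rfl⟩ := Nat.exists_eq_add_of_lt hij
  rw [show i + k + 1 = i + (k + 1) by omega, Function.iterate_add_apply] at hz
  refine hy ⟨P^[k] z, ?_⟩
  rw [← Function.iterate_succ_apply' P k z]
  exact h.iter_inj i hz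

/-- The blocks. -/
def emb : ℕ × {y : CC // y ∉ Set.range P} ↪ CC where
  toFun p := P^[p.1] p.2.1
  inj' := by
    rintro ⟨i, y⟩ ⟨j, z⟩ hyz
    have h1 : P^[i] y.1 = P^[j] z.1 := hyz
    rcases lt_trichotomy i j with h2 | h2 | h2
    · exact (h.not_mem_range h2 y.2 ⟨z.1, h1.symm⟩).elim
    · subst h2
      rw [Prod.mk.injEq]
      exact ⟨rfl, Subtype.ext (h.iter_inj i h1)⟩
    · exact (h.not_mem_range h2 z.2 ⟨y.1, h1⟩).elim

theorem emb_apply (p : ℕ × {y : CC // y ∉ Set.range P}) : h.emb p = P^[p.1] p.2.1 := rfl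

theorem mem_range_iter {x : CC} (hx : x ∉ Set.range h.emb) (j : ℕ) : x ∈ Set.range P^[j] := by
  induction j with
  | zero => exact ⟨x, rfl⟩
  | succ j ih =>
    obtain ⟨y, rfl⟩ := ih
    by_cases hy : y ∈ Set.range P
    · obtain ⟨z, rfl⟩ := hy
      exact ⟨z, Function.iterate_succ_apply P j z⟩
    · exact (hx ⟨(j, ⟨y, hy⟩), rfl⟩).elim

attribute [local instance] Classical.propDecidable

/-- The block permutation. -/
noncomputable def T (w : Equiv.Perm (ℕ × {y : CC // y ∉ Set.range P})) : Equiv.Perm CC :=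
  Equiv.Perm.viaEmbeddingHom h.emb w

theorem T_emb (w : Equiv.Perm (ℕ × {y : CC // y ∉ Set.range P}))
    (p : ℕ × {y : CC // y ∉ Set.range P}) : h.T w (h.emb p) = h.emb (w p) :=
  Equiv.Perm.viaEmbedding_apply w h.emb p

theorem T_other (w : Equiv.Perm (ℕ × {y : CC // y ∉ Set.range P})) {x : CC}
    (hx : x ∉ Set.range h.emb) : h.T w x = x :=
  Equiv.Perm.viaEmbedding_apply_of_notMem w h.emb x hx

theorem T_mul (w w' : Equiv.Perm (ℕ × {y : CC // y ∉ Set.range P})) :
    h.T (w * w') = h.T w * h.T w' := map_mul _ _ _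

theorem T_inv (w : Equiv.Perm (ℕ × {y : CC // y ∉ Set.range P})) : h.T w⁻¹ = (h.T w)⁻¹ :=
  map_inv _ _

/-- The condition on the permutations. -/
def Good (w : Equiv.Perm (ℕ × {y : CC // y ∉ Set.range P})) : Prop :=
  (∀ n, ∃ k, ∀ p, k ≤ p.1 → n ≤ (w p).1) ∧
    ∀ n j, ∃ m, ∀ y y' : {y : CC // y ∉ Set.range P}, Agr m y.1 y'.1 →
      (w (j, y)).1 = (w (j, y')).1 ∧ Agr n (w (j, y)).2.1 (w (j, y')).2.1

theorem uc_T {w : Equiv.Perm (ℕ × {y : CC // y ∉ Set.range P})} (hw : Good w) : UC (h.T w) := by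
  intro n
  obtain ⟨k, hk⟩ := hw.1 n
  choose m hm using hw.2 n
  have hfar : ∀ z ∈ Set.range P^[k], h.T w z ∈ Set.range P^[n] := by
    intro z hz
    by_cases h1 : z ∈ Set.range h.emb
    · obtain ⟨p, rfl⟩ := h1
      rw [T_emb]
      have h2 : k ≤ p.1 := by
        by_contra h3
        exact h.not_mem_range (not_le.1 h3) p.2.2 hz
      exact mem_range_of_le (hk p h2) ⟨_, rfl⟩
    · rw [h.T_other w h1]
      exact h.mem_range_iter h1 n
  refine ⟨((Finset.range k).sup fun j => max (m j) l + l * j) + l * k, fun x x' hxx => ?_⟩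
  by_cases h1 : ∃ p, h.emb p = x ∧ p.1 < k
  · obtain ⟨⟨j, y⟩, rfl, hj⟩ := h1
    have h2 : Agr (max (m j) l + l * j) (P^[j] y.1) x' := by
      refine hxx.mono (le_trans ?_ (Nat.le_add_right _ _))
      exact Finset.le_sup (f := fun j => max (m j) l + l * j) (Finset.mem_range.2 hj)
    obtain ⟨y', rfl, h3⟩ := h.iter_near _ _ _ _ h2
    have hy' : y' ∉ Set.range P := fun h4 =>
      y.2 (h.rng _ _ ((h3.mono (le_max_right _ _)).symm) h4)
    have h4 := hm j y ⟨y', hy'⟩ (h3.mono (le_max_left _ _))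
    change Agr n (h.T w (h.emb (j, y))) (h.T w (h.emb (j, ⟨y', hy'⟩)))
    rw [T_emb, T_emb, emb_apply, emb_apply, ← h4.1]
    exact (h.iter_up _ _ _ _ h4.2).mono (Nat.le_add_right _ _)
  · have h2 : x ∈ Set.range P^[k] := by
      by_cases h3 : x ∈ Set.range h.emb
      · obtain ⟨p, rfl⟩ := h3
        have h4 : k ≤ p.1 := by
          by_contra h5
          exact h1 ⟨p, rfl, not_le.1 h5⟩
        exact mem_range_of_le h4 ⟨_, rfl⟩
      · exact h.mem_range_iter h3 k
    have h3 : x' ∈ Set.range P^[k] := by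
      obtain ⟨y, rfl⟩ := h2
      obtain ⟨y', rfl, -⟩ := h.iter_near k 0 y x' (hxx.mono (by omega))
      exact ⟨y', rfl⟩
    obtain ⟨a, ha⟩ := hfar x h2
    obtain ⟨b, hb⟩ := hfar x' h3
    rw [← ha, ← hb]
    exact (h.iter_up n 0 a b fun i hi => (Nat.not_lt_zero i hi).elim).mono (by omega)

theorem T_mem {w : Equiv.Perm (ℕ × {y : CC // y ∉ Set.range P})} (hw : Good w)
    (hw' : Good w⁻¹) : h.T w ∈ Hm := by
  refine ⟨h.uc_T hw, ?_⟩
  have h1 := h.uc_T hw'
  rw [T_inv] at h1
  exact h1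

omit h in
/-- The permutation that acts as `u` on the blocks with index in `D`. -/
noncomputable def wD (u : Equiv.Perm {y : CC // y ∉ Set.range P}) (D : Set ℕ) :
    Equiv.Perm (ℕ × {y : CC // y ∉ Set.range P}) :=
  Equiv.prodCongrRight fun j => if j ∈ D then u else 1

omit h in
/-- The permutation of the blocks. -/
def wS (P : CC → CC) (σ : Equiv.Perm ℕ) : Equiv.Perm (ℕ × {y : CC // y ∉ Set.range P}) :=
  Equiv.prodCongr σ (Equiv.refl _)

omit h in
theorem wD_apply (u : Equiv.Perm {y : CC // y ∉ Set.range P}) (D : Set ℕ)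
    (p : ℕ × {y : CC // y ∉ Set.range P}) :
    wD u D p = (p.1, if p.1 ∈ D then u p.2 else p.2) := by
  obtain ⟨j, y⟩ := p
  unfold wD
  rw [Equiv.prodCongrRight_apply]
  by_cases hj : j ∈ D
  · simp [hj]
  · simp [hj]

omit h in
theorem wS_apply (σ : Equiv.Perm ℕ) (p : ℕ × {y : CC // y ∉ Set.range P}) :
    wS P σ p = (σ p.1, p.2) := rfl

omit h in
theorem wD_mul (u : Equiv.Perm {y : CC // y ∉ Set.range P}) {D D' : Set ℕ} (hD : Disjoint D D') :
    wD u D * wD u D' = wD u (D ∪ D') := by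
  refine Equiv.ext fun p => ?_
  rw [Equiv.Perm.mul_apply, wD_apply, wD_apply, wD_apply]
  by_cases h1 : p.1 ∈ D
  · have h2 : p.1 ∉ D' := fun h3 => Set.disjoint_left.1 hD h1 h3
    simp [h1, h2]
  · by_cases h2 : p.1 ∈ D'
    · simp [h1, h2]
    · simp [h1, h2]

omit h in
theorem wD_inv (u : Equiv.Perm {y : CC // y ∉ Set.range P}) (D : Set ℕ) :
    (wD u D)⁻¹ = wD u⁻¹ D := by
  rw [inv_eq_iff_mul_eq_one]
  refine Equiv.ext fun p => ?_
  rw [Equiv.Perm.mul_apply, wD_apply, wD_apply]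
  by_cases h1 : p.1 ∈ D
  · simp [h1]
  · simp [h1]

omit h in
theorem wS_conj (u : Equiv.Perm {y : CC // y ∉ Set.range P}) (D : Set ℕ) (σ : Equiv.Perm ℕ) :
    wS P σ * wD u D * (wS P σ)⁻¹ = wD u (σ '' D) := by
  rw [mul_inv_eq_iff_eq_mul]
  refine Equiv.ext fun p => ?_
  rw [Equiv.Perm.mul_apply, Equiv.Perm.mul_apply, wD_apply, wS_apply, wD_apply, wS_apply]
  have h1 : (σ p.1 ∈ σ '' D) ↔ p.1 ∈ D := σ.injective.mem_set_image
  by_cases h2 : p.1 ∈ D
  · simp [h2]
  · simp [h2]

omit h in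
theorem good_wD {u : Equiv.Perm {y : CC // y ∉ Set.range P}}
    (hu : ∀ n, ∃ m, ∀ y y' : {y : CC // y ∉ Set.range P}, Agr m y.1 y'.1 →
      Agr n (u y).1 (u y').1) (D : Set ℕ) : Good (wD u D) := by
  refine ⟨fun n => ⟨n, fun p hp => by rwa [wD_apply]⟩, fun n j => ?_⟩
  obtain ⟨m, hm⟩ := hu n
  refine ⟨max m n, fun y y' hy => ?_⟩
  rw [wD_apply, wD_apply]
  refine ⟨rfl, ?_⟩
  by_cases h1 : j ∈ D
  · simp only [h1, if_true]
    exact hm y y' (hy.mono (le_max_left _ _))
  · simp only [h1, if_false]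
    exact hy.mono (le_max_right _ _)

omit h in
theorem good_wS (σ : Equiv.Perm ℕ) : Good (wS P σ) := by
  refine ⟨fun n => ?_, fun n j => ⟨n, fun y y' hy => ⟨rfl, hy⟩⟩⟩
  refine ⟨(Finset.range n).sup (fun i => σ.symm i + 1), fun p hp => ?_⟩
  by_contra h1
  rw [wS_apply, not_le] at h1
  have h2 := Finset.le_sup (f := fun i => σ.symm i + 1) (Finset.mem_range.2 h1)
  rw [Equiv.symm_apply_apply] at h2
  omega

omit h in
theorem wS_inv (σ : Equiv.Perm ℕ) : (wS P σ)⁻¹ = wS P σ⁻¹ := rfl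

omit h in
/-- The restriction to the block with index 0. -/
def res (g : Equiv.Perm CC) (hg : ∀ x ∈ Set.range P, g x = x) :
    Equiv.Perm {y : CC // y ∉ Set.range P} :=
  g.subtypePerm fun x => by
    constructor
    · intro h1 h2
      refine h1 ?_
      rw [hg x h2]
      exact h2
    · intro h1 h2
      refine h1 ?_
      have h3 := g.injective (hg _ h2)
      rwa [h3] at h2

omit h in
theorem res_apply (g : Equiv.Perm CC) (hg : ∀ x ∈ Set.range P, g x = x)
    (y : {y : CC // y ∉ Set.range P}) : (res g hg y).1 = g y.1 := rfl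

omit h in
theorem res_uc (g : Equiv.Perm CC) (hg : ∀ x ∈ Set.range P, g x = x) (hu : UC g) (n : ℕ) :
    ∃ m, ∀ y y' : {y : CC // y ∉ Set.range P}, Agr m y.1 y'.1 →
      Agr n (res g hg y).1 (res g hg y').1 := by
  obtain ⟨m, hm⟩ := hu n
  exact ⟨m, fun y y' hy => hm _ _ hy⟩

theorem T_zero (g : Equiv.Perm CC) (hg : ∀ x ∈ Set.range P, g x = x) :
    h.T (wD (res g hg) {0}) = g := by
  refine Equiv.ext fun x => ?_
  by_cases hx : x ∈ Set.range h.emb
  · obtain ⟨⟨j, y⟩, rfl⟩ := hx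
    rw [T_emb, wD_apply]
    by_cases hj : j = 0
    · subst hj
      simp only [Set.mem_singleton_iff, if_true]
      rfl
    · simp only [Set.mem_singleton_iff, hj, if_false]
      refine (hg _ ?_).symm
      obtain ⟨k, rfl⟩ := Nat.exists_eq_succ_of_ne_zero hj
      refine ⟨P^[k] y.1, ?_⟩
      rw [emb_apply, Function.iterate_succ_apply']
  · rw [h.T_other _ hx, hg x]
    have h1 := h.mem_range_iter hx 1
    exact h1

end Contr

end Pool.Agent.Q211.ZP
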