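import Pool.Agent.Q211.ZP.Cg

/-!
# Norms on powers of the homeomorphism group of the Cantor cube
-/

set_option autoImplicit false

namespace Pool.Agent.Q211.ZP

attribute [local instance] Classical.propDecidable

theorem exists_perm_moiety {D D' : Set ℕ} (h1 : D.Infinite) (h2 : Dᶜ.Infinite) (h3 : D'.Infinite)
    (h4 : D'ᶜ.Infinite) : ∃ σ : Equiv.Perm ℕ, σ '' D = D' := by
  have := h1.to_subtype
  have := h2.to_subtype
  have := h3.to_subtype
  have := h4.to_subtype
  obtain ⟨e1⟩ : Nonempty (D ≃ D') := nonempty_equiv_of_countable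
  obtain ⟨e2⟩ : Nonempty ((Dᶜ : Set ℕ) ≃ (D'ᶜ : Set ℕ)) := nonempty_equiv_of_countable
  refine ⟨(Equiv.Set.sumCompl D).symm.trans ((Equiv.sumCongr e1 e2).trans
    (Equiv.Set.sumCompl D')), ?_⟩
  ext y
  constructor
  · rintro ⟨x, hx, rfl⟩
    rw [Equiv.trans_apply, Equiv.trans_apply, Equiv.Set.sumCompl_symm_apply_of_mem hx,
      Equiv.sumCongr_apply, Sum.map_inl, Equiv.Set.sumCompl_apply_inl]
    exact (e1 _).2
  · intro hy
    refine ⟨(e1.symm ⟨y, hy⟩).1, (e1.symm ⟨y, hy⟩).2, ?_⟩
    rw [Equiv.trans_apply, Equiv.trans_apply, Equiv.Set.sumCompl_symm_apply_of_mem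
      (e1.symm ⟨y, hy⟩).2, Equiv.sumCongr_apply, Sum.map_inl, Equiv.Set.sumCompl_apply_inl]
    simp

variable {I : Type} {R : Type*} [Field R] [LinearOrder R] [IsStrictOrderedRing R]

/-- Totally bounded norms that are invariant under conjugation, with values in `R`. -/
structure TNorm (Nm : R → (I → Hm) → Prop) : Prop where
  mul : ∀ ε δ g h, Nm ε g → Nm δ h → Nm (ε + δ) (g * h)
  inv : ∀ ε g, Nm ε g → Nm ε g⁻¹
  conj : ∀ ε g h, Nm ε g → Nm ε (h * g * h⁻¹)
  seq : ∀ ε, 0 < ε → ∀ s : ℕ → I → Hm, ∃ i j, i < j ∧ Nm ε ((s i)⁻¹ * s j)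

variable {Nm : R → (I → Hm) → Prop}

theorem step1 (hN : TNorm Nm) (g : I → Hm) (P : I → CC → CC) (l : I → ℕ)
    (hP : ∀ i, Contr (P i) (l i)) (hg : ∀ i, ∀ x ∈ Set.range (P i), (g i).1 x = x) (ε : R)
    (hε : 0 < ε) : Nm ε g := by
  have hU : ∀ (D : Set ℕ) (i : I), (hP i).T (Contr.wD (Contr.res (g i).1 (hg i)) D) ∈ Hm := by
    intro D i
    refine (hP i).T_mem (Contr.good_wD (Contr.res_uc _ (hg i) (g i).2.1) D) ?_
    rw [Contr.wD_inv]
    refine Contr.good_wD (fun n => ?_) D
    obtain ⟨m, hm⟩ := (g i).2.2 n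
    exact ⟨m, fun y y' hy => hm _ _ hy⟩
  have hS : ∀ (σ : Equiv.Perm ℕ) (i : I), (hP i).T (Contr.wS (P i) σ) ∈ Hm := by
    intro σ i
    refine (hP i).T_mem (Contr.good_wS σ) ?_
    rw [Contr.wS_inv]
    exact Contr.good_wS _
  let U : Set ℕ → I → Hm := fun D i => ⟨_, hU D i⟩
  let S : Equiv.Perm ℕ → I → Hm := fun σ i => ⟨_, hS σ i⟩
  have hUmul : ∀ D D' : Set ℕ, Disjoint D D' → U D * U D' = U (D ∪ D') := by
    intro D D' h
    funext i
    refine Subtype.ext ?_
    change (hP i).T _ * (hP i).T _ = (hP i).T _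
    rw [← Contr.T_mul, Contr.wD_mul _ h]
  have hUconj : ∀ (D : Set ℕ) (σ : Equiv.Perm ℕ), S σ * U D * (S σ)⁻¹ = U (σ '' D) := by
    intro D σ
    funext i
    refine Subtype.ext ?_
    change (hP i).T _ * (hP i).T _ * ((hP i).T _)⁻¹ = (hP i).T _
    rw [← Contr.T_inv, ← Contr.T_mul, ← Contr.T_mul, Contr.wS_conj]
  have hU0 : U {0} = g := by
    funext i
    exact Subtype.ext ((hP i).T_zero (g i).1 (hg i))
  have hmo : ∀ δ : R, 0 < δ → ∀ D : Set ℕ, D.Infinite → Dᶜ.Infinite → Nm δ (U D) := by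
    intro δ hδ D h1 h2
    obtain ⟨i, j, hij, h3⟩ := hN.seq δ hδ fun m => U {k | (Nat.unpair k).1 < m}
    have h4 : U {k | (Nat.unpair k).1 < i} * U {k | i ≤ (Nat.unpair k).1 ∧
        (Nat.unpair k).1 < j} = U {k | (Nat.unpair k).1 < j} := by
      rw [hUmul]
      · congr 1
        ext k
        simp only [Set.mem_union, Set.mem_ofPred_eq]
        omega
      · rw [Set.disjoint_left]
        intro k h5 h6
        simp only [Set.mem_ofPred_eq] at h5 h6
        omega
    rw [← h4, inv_mul_cancel_left] at h3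
    have hinf : ∀ m, {k : ℕ | (Nat.unpair k).1 = m}.Infinite := by
      intro m
      refine Set.infinite_of_injective_forall_mem (f := fun n => Nat.pair m n) (fun a b hab => ?_)
        fun n => ?_
      · exact (Nat.pair_eq_pair.1 hab).2
      · simp
    obtain ⟨σ, hσ⟩ := exists_perm_moiety (D := {k | i ≤ (Nat.unpair k).1 ∧
        (Nat.unpair k).1 < j}) (D' := D) ((hinf i).mono fun k hk => by
          simp only [Set.mem_ofPred_eq] at hk ⊢
          omega) ((hinf j).mono fun k hk => by
          simp only [Set.mem_ofPred_eq, Set.mem_compl_iff] at hk ⊢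
          omega) h1 h2
    rw [← hσ, ← hUconj]
    exact hN.conj _ _ _ h3
  have hodd : {k : ℕ | k % 2 = 1}.Infinite := by
    refine Set.infinite_of_injective_forall_mem (f := fun n => 2 * n + 1) (fun a b hab => ?_)
      fun n => ?_
    · simpa using hab
    · simp only [Set.mem_ofPred_eq]
      omega
  have heven : {k : ℕ | k % 2 = 0 ∧ k ≠ 0}.Infinite := by
    refine Set.infinite_of_injective_forall_mem (f := fun n => 2 * n + 2) (fun a b hab => ?_)
      fun n => ?_
    · simpa using hab
    · simp only [Set.mem_ofPred_eq]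
      omega
  have h1 := hmo (ε / 2) (half_pos hε) {k | k % 2 = 1} hodd (heven.mono fun k hk => by
    simp only [Set.mem_ofPred_eq, Set.mem_compl_iff] at hk ⊢
    omega)
  have h2 := hmo (ε / 2) (half_pos hε) ({k | k % 2 = 1} ∪ {0}) (hodd.mono
    Set.subset_union_left) (heven.mono fun k hk => by
    simp only [Set.mem_ofPred_eq, Set.mem_compl_iff, Set.mem_union, Set.mem_singleton_iff]
      at hk ⊢
    omega)
  have h3 := hN.mul _ _ _ _ (hN.inv _ _ h1) h2
  rw [← hUmul _ _ (by
    rw [Set.disjoint_left]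
    intro k h5 h6
    simp only [Set.mem_ofPred_eq, Set.mem_singleton_iff] at h5 h6
    omega), inv_mul_cancel_left, add_halves, hU0] at h3
  exact h3

/-- Prefixing the first `l` coordinates of `s`. -/
def pre (s : CC) (l : ℕ) (x : CC) : CC := fun i => if i < l then s i else x (i - l)

theorem contr_pre (s : CC) {l : ℕ} (hl : 0 < l) : Contr (pre s l) l where
  up n x y h i hi := by
    unfold pre
    by_cases h1 : i < l
    · rw [if_pos h1, if_pos h1]
    · rw [if_neg h1, if_neg h1]
      exact h _ (by omega)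
  down n x y h i hi := by
    have h1 := h (i + l) (by omega)
    unfold pre at h1
    rwa [if_neg (by omega), if_neg (by omega), Nat.add_sub_cancel] at h1
  rng x y h hx := by
    obtain ⟨z, rfl⟩ := hx
    refine ⟨fun i => y (i + l), ?_⟩
    funext i
    unfold pre
    by_cases h1 : i < l
    · rw [if_pos h1, ← h i h1]
      unfold pre
      rw [if_pos h1]
    · rw [if_neg h1]
      change y (i - l + l) = y i
      rw [Nat.sub_add_cancel (not_lt.1 h1)]

theorem mem_range_pre {s : CC} {l : ℕ} {x : CC} : x ∈ Set.range (pre s l) ↔ Agr l s x := by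
  constructor
  · rintro ⟨y, rfl⟩ i hi
    unfold pre
    rw [if_pos hi]
  · intro h
    refine ⟨fun i => x (i + l), ?_⟩
    funext i
    unfold pre
    by_cases h1 : i < l
    · rw [if_pos h1]
      exact h i h1
    · rw [if_neg h1]
      change x (i - l + l) = x i
      rw [Nat.sub_add_cancel (not_lt.1 h1)]

/-- Homeomorphisms that are the identity near a point in every coordinate. -/
theorem step1' (hN : TNorm Nm) (g : I → Hm)
    (hg : ∀ i, ∃ (s : CC) (l : ℕ), ∀ x, Agr l s x → (g i).1 x = x) (ε : R)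
    (hε : 0 < ε) : Nm ε g := by
  choose s l hsl using hg
  refine step1 hN g (fun i => pre (s i) (l i + 1)) (fun i => l i + 1)
    (fun i => contr_pre _ (Nat.succ_pos _)) (fun i x hx => ?_) ε hε
  exact hsl i x ((mem_range_pre.1 hx).mono (Nat.le_succ _))

/-- Fragmentation. -/
theorem frag (g : Hm) : ∃ h : Hm, (∃ (s : CC) (l : ℕ), ∀ x, Agr l s x → h.1 x = x) ∧
    ∃ (s : CC) (l : ℕ), ∀ x, Agr l s x → (h⁻¹ * g).1 x = x := by
  by_cases h0 : g = 1
  · subst h0
    exact ⟨1, ⟨fun _ => true, 0, fun x _ => rfl⟩, ⟨fun _ => true, 0, fun x _ => rfl⟩⟩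
  obtain ⟨a, ha⟩ : ∃ a, g.1 a ≠ a := by
    by_contra hc
    push Not at hc
    exact h0 (Subtype.ext (Equiv.ext hc))
  -- a third point
  obtain ⟨b, hb1, hb2⟩ : ∃ b : CC, b ≠ a ∧ b ≠ g.1 a := by
    have h1 : (({a, g.1 a} : Set CC)ᶜ).Nonempty := by
      have h2 : (Set.univ : Set CC).Infinite := Set.infinite_univ
      have h3 := (h2.sdiff (Set.toFinite {a, g.1 a})).nonempty
      obtain ⟨c, -, hc⟩ := h3
      exact ⟨c, hc⟩
    obtain ⟨b, hb⟩ := h1
    rw [Set.mem_compl_iff, Set.mem_insert_iff, Set.mem_singleton_iff, not_or] at hb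
    exact ⟨b, hb.1, hb.2⟩
  have hsep : ∀ x y : CC, x ≠ y → ∃ n, ¬ Agr n x y := by
    intro x y hxy
    by_contra hc
    push Not at hc
    exact hxy (funext fun i => hc (i + 1) i (Nat.lt_succ_self i))
  obtain ⟨n1, hn1⟩ := hsep _ _ ha
  obtain ⟨n2, hn2⟩ := hsep _ _ hb1
  obtain ⟨n3, hn3⟩ := hsep _ _ hb2
  let n := max n1 (max n2 n3)
  have hm1 : ¬ Agr n (g.1 a) a := fun h => hn1 (h.mono (le_max_left _ _))
  have hm2 : ¬ Agr n b a := fun h => hn2 (h.mono ((le_max_left _ _).trans (le_max_right _ _)))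
  have hm3 : ¬ Agr n b (g.1 a) := fun h =>
    hn3 (h.mono ((le_max_right _ _).trans (le_max_right _ _)))
  obtain ⟨m0, hm0⟩ := g.2.1 n
  let m := max m0 n
  -- the cylinder `V` of `a` of level `m`, mapped into the cylinder of `g a` of level `n`
  have hV : ∀ x, Agr m a x → Agr n (g.1 a) (g.1 x) := fun x hx =>
    hm0 _ _ (hx.mono (le_max_left _ _))
  have hVa : ∀ x, Agr m a x → Agr n a x := fun x hx => hx.mono (le_max_right _ _)
  let p : CC → Prop := fun x => Agr m a x
  let q : CC → Prop := fun x => Agr m a (g.1.symm x)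
  have hpq : ∀ x, p x → ¬ q x := by
    intro x hx hq
    have h1 := hV _ hq
    rw [Equiv.apply_symm_apply] at h1
    exact hm1 (h1.trans (hVa x hx).symm)
  let f : CC → CC := fun x => if p x then g.1 x else if q x then g.1.symm x else x
  have hf : ∀ x, f (f x) = x := by
    intro x
    by_cases hx : p x
    · have h1 : f x = g.1 x := if_pos hx
      have h2 : q (g.1 x) := by
        change Agr m a (g.1.symm (g.1 x))
        rw [Equiv.symm_apply_apply]
        exact hx
      have h3 : ¬ p (g.1 x) := fun h => hpq _ h h2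
      rw [h1]
      change (if p (g.1 x) then _ else if q (g.1 x) then _ else _) = x
      rw [if_neg h3, if_pos h2, Equiv.symm_apply_apply]
    · by_cases hq : q x
      · have h1 : f x = g.1.symm x := by
          change (if p x then _ else if q x then _ else _) = _
          rw [if_neg hx, if_pos hq]
        rw [h1]
        change (if p (g.1.symm x) then _ else _) = x
        rw [if_pos hq, Equiv.apply_symm_apply]
      · have h1 : f x = x := by
          change (if p x then _ else if q x then _ else _) = _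
          rw [if_neg hx, if_neg hq]
        rw [h1, h1]
  have huc : UC f := by
    intro k
    obtain ⟨k1, hk1⟩ := g.2.1 k
    obtain ⟨k2, hk2⟩ := g.2.2 (max k m)
    refine ⟨max m (max k1 (max k2 k)), fun x y hxy => ?_⟩
    have h1 : Agr m x y := hxy.mono (le_max_left _ _)
    have h2 : Agr k1 x y := hxy.mono ((le_max_left _ _).trans (le_max_right _ _))
    have h3 : Agr k2 x y := hxy.mono
      ((le_max_left _ _).trans ((le_max_right _ _).trans (le_max_right _ _)))
    have h4 : Agr k x y := hxy.mono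
      ((le_max_right _ _).trans ((le_max_right _ _).trans (le_max_right _ _)))
    have h5 := hk2 x y h3
    have h6 : p x ↔ p y := ⟨fun h => h.trans h1, fun h => h.trans h1.symm⟩
    have h7 : q x ↔ q y := by
      have h8 := h5.mono (le_max_right k m)
      exact ⟨fun h => h.trans h8, fun h => h.trans h8.symm⟩
    change Agr k (if p x then _ else if q x then _ else _)
      (if p y then _ else if q y then _ else _)
    by_cases hx : p x
    · rw [if_pos hx, if_pos (h6.1 hx)]
      exact hk1 x y h2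
    · rw [if_neg hx, if_neg fun h => hx (h6.2 h)]
      by_cases hq : q x
      · rw [if_pos hq, if_pos (h7.1 hq)]
        exact h5.mono (le_max_left _ _)
      · rw [if_neg hq, if_neg fun h => hq (h7.2 h)]
        exact h4
  let h : Hm := ⟨⟨f, f, hf, hf⟩, huc, huc⟩
  refine ⟨h, ⟨b, n, fun x hx => ?_⟩, ⟨a, m, fun x hx => ?_⟩⟩
  · change (if p x then _ else if q x then _ else _) = x
    rw [if_neg, if_neg]
    · intro h1
      have h2 := hV _ h1
      rw [Equiv.apply_symm_apply] at h2
      exact hm3 (hx.trans h2.symm)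
    · intro h1
      exact hm2 (hx.trans (hVa x h1).symm)
  · change f (g.1 x) = x
    have h1 : f x = g.1 x := if_pos hx
    rw [← h1, hf]

theorem norm_trivial (hN : TNorm Nm) (g : I → Hm) (ε : R) (hε : 0 < ε) : Nm ε g := by
  choose h h1 h2 using fun i => frag (g i)
  have h3 := step1' hN h h1 (ε / 2) (half_pos hε)
  have h4 := step1' hN (fun i => (h i)⁻¹ * g i) h2 (ε / 2) (half_pos hε)
  have h5 := hN.mul _ _ _ _ h3 h4
  rw [add_halves] at h5
  have h6 : (h * fun i => (h i)⁻¹ * g i) = g := by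
    funext i
    exact mul_inv_cancel_left _ _
  rwa [h6] at h5

end Pool.Agent.Q211.ZP
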