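import Pool.Agent.Helper672.ZFA.Nat

/-!
# Models of ZFA and some notions in them
-/

set_option autoImplicit false

namespace Pool.Agent.Q211.ZP

open Pool.Agent.Helper672.ZFA FirstOrder FirstOrder.Language

universe u

/-- Models of ZFA: set theory with atoms and the schemata of Separation and Replacement for all
classes that are first order definable with parameters, Foundation, and the existence of the set
of all atoms. -/
class ZFA (M : Type u) [L.Structure M] : Prop extends ZermeloAtoms M where
  replacement : ∀ R : Set (M × M), (Set.univ : Set M).Definable₂ L R → ∀ x : M, IsSet x →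
    (∀ z, Mem z x → ∃! y, (z, y) ∈ R) → ∃ w, IsSet w ∧ ∀ y, Mem y w ↔ ∃ z, Mem z x ∧ (z, y) ∈ R
  foundation : ∀ x : M, (∃ y, Mem y x) → ∃ y, Mem y x ∧ ∀ z, Mem z y → ¬ Mem z x
  atomSet : ∃ a : M, IsSet a ∧ ∀ z, Mem z a ↔ ¬ IsSet z

instance ZFA.isModel' {M : Type u} [L.Structure M] [ZFA M] : IsModel M := ZermeloAtoms.isModel

variable {M : Type u} [L.Structure M]

/-- The standard natural numbers of the model. -/
noncomputable def numI (M : Type u) [L.Structure M] [IsModel M] : ℕ → INat M
  | 0 => 0
  | n + 1 => (numI M n).succ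

variable [hM : IsModel M]

/-- The von Neumann natural number `n` of the model. -/
noncomputable def num (n : ℕ) : M := (numI M n).val

variable (M) in
/-- All natural numbers of the model are standard. -/
def StdOmega : Prop := ∀ n : INat M, ∃ k : ℕ, n.val = num k

/-- `f` is (the graph of) an injection from the set `a` to the set `b`. -/
def IsInjF (f a b : M) : Prop :=
  (∀ z, Mem z a → ∃! w, Mem (op z w) f) ∧ (∀ z w, Mem z a → Mem (op z w) f → Mem w b) ∧
    ∀ z z' w, Mem z a → Mem z' a → Mem (op z w) f → Mem (op z' w) f → z = z'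

/-- `f` is (the graph of) a bijection from the set `a` to the set `b`. -/
def IsBijF (f a b : M) : Prop :=
  IsInjF f a b ∧ ∀ w, Mem w b → ∃ z, Mem z a ∧ Mem (op z w) f

/-- `x` is finite: there is a bijection from a natural number to `x`. -/
def FinIn (x : M) : Prop := ∃ (n : ℕ) (f : M), IsBijF f (num n) x

/-- The class of all `z` with `P z` is a finite set of the model. -/
def FinOf (P : M → Prop) : Prop := ∃ w : M, IsSet w ∧ (∀ z, Mem z w ↔ P z) ∧ FinIn w

/-- `x` is a subset of `y`. -/
def Sub (x y : M) : Prop := IsSet x ∧ ∀ z, Mem z x → Mem z y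

theorem numI_zero : numI M 0 = 0 := rfl

theorem numI_succ (n : ℕ) : numI M (n + 1) = (numI M n).succ := rfl

theorem not_mem_num_zero {z : M} : ¬ Mem z (num 0) := INat.not_mem_zero

theorem mem_num_succ {n : ℕ} {z : M} : Mem z (num (n + 1) : M) ↔ Mem z (num n) ∨ z = num n :=
  INat.mem_succ

theorem mem_num {n : ℕ} {z : M} : Mem z (num n : M) ↔ ∃ k < n, z = num k := by
  induction n with
  | zero => exact ⟨fun h => (not_mem_num_zero h).elim, fun ⟨k, hk, _⟩ => by omega⟩
  | succ n ih =>
    rw [mem_num_succ, ih]
    constructor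
    · rintro (⟨k, hk, rfl⟩ | rfl)
      · exact ⟨k, by omega, rfl⟩
      · exact ⟨n, by omega, rfl⟩
    · rintro ⟨k, hk, rfl⟩
      rcases Nat.lt_succ_iff_lt_or_eq.1 hk with h | rfl
      · exact Or.inl ⟨k, h, rfl⟩
      · exact Or.inr rfl

theorem isSet_num (n : ℕ) : IsSet (num n : M) := by
  cases n with
  | zero => exact small_empty.isSet
  | succ n => exact INat.isSet_succ _

theorem numI_lt {m n : ℕ} (h : m < n) : numI M m < numI M n := mem_num.2 ⟨m, h, rfl⟩

theorem numI_injective : Function.Injective (numI M) := by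
  intro m n h
  rcases lt_trichotomy m n with h1 | h1 | h1
  · exact absurd h (numI_lt h1).ne
  · exact h1
  · exact absurd h.symm (numI_lt h1).ne

theorem num_injective : Function.Injective (num : ℕ → M) := fun _ _ h =>
  numI_injective (INat.ext h)

end Pool.Agent.Q211.ZP
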