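import Pool.Agent.Q211.ZP.Defs

/-!
# Dyadically and strongly filterbase infinite sets in models of ZFA
-/

set_option autoImplicit false

namespace Pool.Agent.Q211.ZP

open Pool.Agent.Helper672.ZFA FirstOrder FirstOrder.Language

universe u

variable {M : Type u} [L.Structure M] [hM : IsModel M]

/-- `V` is a member of the family `𝒱` with the index `(n, i)`, where the sequence of families is
given by the element `f` of the model (a set of pairs `((n, i), V)`). -/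
def Fam (f : M) (n i : ℕ) (V : M) : Prop := Mem (op (op (num n) (num i)) V) f

/-- `x` is weakly Dedekind-infinite: there is a sequence of pairwise distinct subsets of `x` in
the model (`f` is a function on the natural numbers). -/
def WDI (x : M) : Prop := ∃ f : M, (∀ n : ℕ, ∃! V, Mem (op (num n) V) f) ∧
  (∀ (n : ℕ) (V : M), Mem (op (num n) V) f → Sub V x) ∧
  ∀ (m n : ℕ) (V : M), Mem (op (num m) V) f → Mem (op (num n) V) f → m = n

/-- `x` is dyadically filterbase infinite. -/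
def DFBI (x : M) : Prop := ∃ f : M, ∀ n : ℕ,
  (∀ i, 1 ≤ i → i ≤ 2 ^ n → (∃ V, Fam f n i V) ∧
    (∀ V, Fam f n i V → Sub V x ∧ ¬ FinIn V) ∧
    (∀ U V, Fam f n i U → Fam f n i V →
      (∃ W, Fam f n i W ∧ ∀ z, Mem z W ↔ Mem z U ∨ Mem z V) ∧
      (∃ W, Fam f n i W ∧ ∀ z, Mem z W ↔ Mem z U ∧ Mem z V) ∧
      FinOf (fun z : M => Mem z U ∧ ¬ Mem z V))) ∧
  (∀ i j, 1 ≤ i → i ≤ 2 ^ n → 1 ≤ j → j ≤ 2 ^ n → i ≠ j → ∀ W G', Fam f n i W → Fam f n j G' →
    ∃ U V, Fam f (n + 1) (2 * i - 1) U ∧ Fam f (n + 1) (2 * i) V ∧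
      FinOf (fun z : M => (Mem z U ∨ Mem z V) ∧ ¬ Mem z W) ∧
      FinOf (fun z : M => (Mem z U ∨ Mem z V) ∧ Mem z G')) ∧
  ∀ v : ℕ → M, (∀ i, 1 ≤ i → i ≤ 2 ^ n → Fam f n i (v i)) →
    FinOf (fun z : M => Mem z x ∧ ∀ i, 1 ≤ i → i ≤ 2 ^ n → ¬ Mem z (v i))

end Pool.Agent.Q211.ZP
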