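import Pool.Agent.Q211.ZP.Fn
import Pool.Agent.Q211.ZP.FbD

/-!
# Dyadically filterbase infinite sets in permutation models
-/

set_option autoImplicit false

namespace Pool.Agent.Q211.ZP

open Pool.Agent.Helper672.ZFA FirstOrder FirstOrder.Language

variable {A G : Type} [Group G] [MulAction G A] {N : Flt G}

/-- A dyadic system of sets whose classes modulo finite sets are symmetric. -/
structure DySys (x : PM A N) (D : ℕ → ℕ → PM A N) : Prop where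
  sub : ∀ n i, Sub (D n i) x
  inf : ∀ n i, i < 2 ^ n → {z | Mem z (D n i)}.Infinite
  spl : ∀ n i z, Mem z (D n i) ↔ Mem z (D (n + 1) (2 * i)) ∨ Mem z (D (n + 1) (2 * i + 1))
  dis : ∀ n i j z, Mem z (D n i) → Mem z (D n j) → i = j
  cov : ∀ n z, Mem z x → ∃ i < 2 ^ n, Mem z (D n i)
  sym : ∃ H ∈ N.F, ∀ g ∈ H, ∀ n i, Eqf (g • D n i) (D n i)

theorem DySys.dfbi {x : PM A N} {D : ℕ → ℕ → PM A N} (h : DySys x D) : DFBI x := by
  obtain ⟨H, hH, hs⟩ := h.sym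
  obtain ⟨K, hK, hx⟩ := pm_symm x
  obtain ⟨J, hJ, h3, h4⟩ := N.dir H hH K hK
  obtain ⟨f, hf⟩ := exists_fam x (P := fun n i z => Sub z x ∧ Eqf z (D n (i - 1)))
    ⟨J, hJ, fun g hg n i z hz => by
      refine ⟨⟨isSet_smul.2 hz.1.1, fun w hw => ?_⟩, (hz.2.smul g).trans (hs g (h3 hg) n _)⟩
      rw [← smul_inv_smul g w] at hw ⊢
      exact mem_smul' (hx g (h4 hg)) (hz.1.2 _ (mem_smul.1 hw))⟩ fun n i z hz => hz.1
  have hfm : ∀ n i z, Fam f n i z ↔ Sub z x ∧ Eqf z (D n (i - 1)) := hf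
  have hD : ∀ n i, Fam f n i (D n (i - 1)) := fun n i => (hfm _ _ _).2 ⟨h.sub _ _, Eqf.refl _⟩
  refine ⟨f, fun n => ⟨fun i hi hi' => ⟨⟨_, hD n i⟩, fun V hV => ?_, fun U V hU hV => ?_⟩,
    fun i j hi hi' hj hj' hij W G' hW hG => ?_, fun v hv => ?_⟩⟩
  · rw [hfm] at hV
    refine ⟨hV.1, fun hfin => ?_⟩
    rw [finIn_iff] at hfin
    exact hV.2.symm.inf (h.inf n (i - 1) (by omega)) hfin
  · rw [hfm] at hU hV
    have h5 := hU.2.trans hV.2.symm
    refine ⟨?_, ?_, ?_⟩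
    · obtain ⟨W, hW, h6⟩ := exists_sub x (P := fun z => Mem z U ∨ Mem z V) (by
        obtain ⟨H, hH, h1⟩ := pm_symm₂ U V
        refine ⟨H, hH, fun g hg z _ hz => ?_⟩
        rcases hz with hz | hz
        · exact Or.inl (mem_smul' (h1 g hg).1 hz)
        · exact Or.inr (mem_smul' (h1 g hg).2 hz))
      have h7 : ∀ z, Mem z W ↔ Mem z U ∨ Mem z V := fun z => (h6 z).trans
        ⟨fun h => h.2, fun h => ⟨h.elim (hU.1.2 z) (hV.1.2 z), h⟩⟩
      refine ⟨W, (hfm _ _ _).2 ⟨⟨hW, fun z hz => ((h6 z).1 hz).1⟩, ?_⟩, h7⟩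
      refine Eqf.trans ?_ hU.2
      refine h5.subset fun z hz h8 => hz ?_
      rw [h7]
      tauto
    · obtain ⟨W, hW, h6⟩ := exists_sub x (P := fun z => Mem z U ∧ Mem z V) (by
        obtain ⟨H, hH, h1⟩ := pm_symm₂ U V
        refine ⟨H, hH, fun g hg z _ hz => ?_⟩
        exact ⟨mem_smul' (h1 g hg).1 hz.1, mem_smul' (h1 g hg).2 hz.2⟩)
      have h7 : ∀ z, Mem z W ↔ Mem z U ∧ Mem z V := fun z => (h6 z).trans
        ⟨fun h => h.2, fun h => ⟨hU.1.2 z h.1, h⟩⟩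
      refine ⟨W, (hfm _ _ _).2 ⟨⟨hW, fun z hz => ((h6 z).1 hz).1⟩, ?_⟩, h7⟩
      refine Eqf.trans ?_ hU.2
      refine h5.subset fun z hz h8 => hz ?_
      rw [h7]
      tauto
    · rw [finOf_iff]
      refine h5.subset fun z hz h8 => hz.2 (h8.1 hz.1)
  · rw [hfm] at hW hG
    refine ⟨D (n + 1) (2 * i - 1 - 1), D (n + 1) (2 * i - 1), hD _ _, hD _ _, ?_, ?_⟩
    · rw [finOf_iff]
      refine hW.2.subset fun z hz h8 => hz.2 (h8.2 ?_)
      rw [h.spl, show 2 * (i - 1) = 2 * i - 1 - 1 by omega, show 2 * i - 1 - 1 + 1 = 2 * i - 1 by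
        omega]
      exact hz.1
    · rw [finOf_iff]
      refine hG.2.subset fun z hz h8 => ?_
      have h9 : Mem z (D n (i - 1)) := by
        rw [h.spl, show 2 * (i - 1) = 2 * i - 1 - 1 by omega,
          show 2 * i - 1 - 1 + 1 = 2 * i - 1 by omega]
        exact hz.1
      have h10 := h.dis n _ _ z h9 (h8.1 hz.2)
      omega
  · rw [finOf_iff]
    have h5 : (⋃ i ∈ Set.Iio (2 ^ n + 1), {z | ¬ (1 ≤ i → i ≤ 2 ^ n →
        (Mem z (v i) ↔ Mem z (D n (i - 1))))}).Finite := by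
      refine Set.Finite.biUnion (Set.finite_Iio _) fun i _ => ?_
      by_cases h6 : 1 ≤ i ∧ i ≤ 2 ^ n
      · refine ((hfm _ _ _).1 (hv i h6.1 h6.2)).2.subset fun z hz h7 => hz fun _ _ => h7
      · refine Set.finite_empty.subset fun z hz => (hz fun h7 h8 => (h6 ⟨h7, h8⟩).elim).elim
    refine h5.subset fun z hz => ?_
    obtain ⟨i, hi, h6⟩ := h.cov n z hz.1
    refine Set.mem_biUnion (show i + 1 ∈ Set.Iio (2 ^ n + 1) from Nat.succ_lt_succ hi) fun h7 => ?_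
    refine hz.2 (i + 1) (by omega) hi ((h7 (by omega) hi).2 ?_)
    rw [Nat.add_sub_cancel]
    exact h6

end Pool.Agent.Q211.ZP
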