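import Pool.Agent.Q211.ZP.M

/-!
# Finite sets in permutation models
-/

set_option autoImplicit false

namespace Pool.Agent.Q211.ZP

open Pool.Agent.Helper672.ZFA FirstOrder FirstOrder.Language

variable {A G : Type} [Group G] [MulAction G A] {N : Flt G}

/-- Common stabilizers of finitely many elements. -/
theorem exists_stab {S : Set (PM A N)} (hS : S.Finite) :
    ∃ H ∈ N.F, ∀ g ∈ H, ∀ x ∈ S, g • x = x := by
  refine Set.Finite.induction_on (motive := fun S _ => ∃ H ∈ N.F, ∀ g ∈ H, ∀ x ∈ S, g • x = x)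
    S hS ?_ ?_
  · obtain ⟨H, hH⟩ := N.ne
    exact ⟨H, hH, fun g _ x hx => hx.elim⟩
  · rintro x S - - ⟨H, hH, h1⟩
    obtain ⟨K, hK, h2⟩ := pm_symm x
    obtain ⟨J, hJ, h3, h4⟩ := N.dir H hH K hK
    refine ⟨J, hJ, fun g hg y hy => ?_⟩
    rcases hy with rfl | hy
    · exact h2 g (h4 hg)
    · exact h1 g (h3 hg) y hy

/-- Finite classes are sets. -/
theorem exists_fset {S : Set (PM A N)} (hS : S.Finite) :
    ∃ x : PM A N, IsSet x ∧ ∀ z, Mem z x ↔ z ∈ S := by
  have := hS.to_subtype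
  obtain ⟨H, hH, h1⟩ := exists_stab hS
  refine exists_set (Countable.toSmall _) ⟨H, hH, fun g hg z hz => ?_⟩
  rw [h1 g hg z hz]
  exact hz

theorem finIn_iff {x : PM A N} : FinIn x ↔ {z | Mem z x}.Finite := by
  constructor
  · rintro ⟨n, f, ⟨⟨h1, h2, h3⟩, h4⟩⟩
    have h5 : {z : PM A N | Mem z (num n)}.Finite := by
      refine ((Set.finite_lt_nat n).image (fun k => (num k : PM A N))).subset fun z hz => ?_
      have hz' : Mem z (num n : PM A N) := hz
      obtain ⟨k, hk, rfl⟩ := mem_num.1 hz'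
      exact ⟨k, hk, rfl⟩
    have h6 : ∀ z, Mem z (num n : PM A N) → ∃ w, ∀ w', Mem (op z w') f → w' = w := fun z hz => by
      obtain ⟨w, -, h7⟩ := h1 z hz
      exact ⟨w, h7⟩
    have : Inhabited (PM A N) := ⟨x⟩
    choose! F hF using h6
    refine (h5.image F).subset fun w hw => ?_
    obtain ⟨z, hz, hzw⟩ := h4 w hw
    exact ⟨z, hz, (hF z hz w hzw).symm⟩
  · intro h
    have : Finite {z : PM A N // Mem z x} := h.to_subtype
    obtain ⟨n, ⟨e⟩⟩ := Finite.exists_equiv_fin {z : PM A N // Mem z x}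
    obtain ⟨f, -, hf⟩ := exists_fset (S := Set.range fun k : Fin n =>
      (op (num k) (e.symm k).1 : PM A N)) (Set.finite_range _)
    have hf' : ∀ (k : Fin n) (w : PM A N), Mem (op (num k) w) f ↔ w = (e.symm k).1 := by
      intro k w
      rw [hf]
      constructor
      · rintro ⟨j, hj⟩
        obtain ⟨h1, h2⟩ := op_inj hj
        have h3 : j = k := Fin.ext (num_injective h1)
        rw [← h2, h3]
      · rintro rfl
        exact ⟨k, rfl⟩
    refine ⟨n, f, ⟨fun z hz => ?_, fun z w hz hw => ?_, fun z z' w hz hz' hw hw' => ?_⟩,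
      fun w hw => ?_⟩
    · obtain ⟨k, hk, rfl⟩ := mem_num.1 hz
      exact ⟨_, (hf' ⟨k, hk⟩ _).2 rfl, fun w hw => (hf' ⟨k, hk⟩ _).1 hw⟩
    · obtain ⟨k, hk, rfl⟩ := mem_num.1 hz
      rw [(hf' ⟨k, hk⟩ _).1 hw]
      exact (e.symm _).2
    · obtain ⟨k, hk, rfl⟩ := mem_num.1 hz
      obtain ⟨k', hk', rfl⟩ := mem_num.1 hz'
      have h1 := (hf' ⟨k, hk⟩ _).1 hw
      have h2 := (hf' ⟨k', hk'⟩ _).1 hw'
      have h3 := e.symm.injective (Subtype.ext (h1.symm.trans h2))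
      rw [Fin.mk.inj_iff] at h3
      rw [h3]
    · refine ⟨num (e ⟨w, hw⟩), mem_num.2 ⟨_, (e ⟨w, hw⟩).2, rfl⟩, (hf' _ _).2 ?_⟩
      rw [Equiv.symm_apply_apply]

theorem finOf_iff {P : PM A N → Prop} : FinOf P ↔ {z | P z}.Finite := by
  constructor
  · rintro ⟨w, -, h1, h2⟩
    rw [finIn_iff] at h2
    refine h2.subset fun z hz => (h1 z).2 hz
  · intro h
    obtain ⟨w, hw, h1⟩ := exists_fset h
    refine ⟨w, hw, h1, finIn_iff.2 (h.subset fun z hz => (h1 z).1 hz)⟩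

/-- Equality modulo a finite set. -/
def Eqf (x y : PM A N) : Prop := {z | ¬ (Mem z x ↔ Mem z y)}.Finite

theorem Eqf.refl (x : PM A N) : Eqf x x := by
  unfold Eqf
  simp

theorem Eqf.symm {x y : PM A N} (h : Eqf x y) : Eqf y x :=
  h.subset fun _ hz h1 => hz h1.symm

theorem Eqf.trans {x y w : PM A N} (h : Eqf x y) (h' : Eqf y w) : Eqf x w := by
  refine (h.union h').subset fun z hz => ?_
  by_contra h1
  rw [Set.mem_union, not_or] at h1
  exact hz ((not_not.1 h1.1).trans (not_not.1 h1.2))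

theorem Eqf.smul {x y : PM A N} (h : Eqf x y) (g : G) : Eqf (g • x) (g • y) := by
  refine (h.image fun z => g • z).subset fun z hz => ⟨g⁻¹ • z, fun h1 => hz ?_, ?_⟩
  · rw [← mem_smul (g := g), ← mem_smul (g := g) (x := g⁻¹ • z) (y := y), smul_inv_smul] at h1
    exact h1
  · exact smul_inv_smul g z

theorem Eqf.inf {x y : PM A N} (h : Eqf x y) (hx : {z | Mem z x}.Infinite) :
    {z | Mem z y}.Infinite := by
  intro hy
  refine hx ((h.union hy).subset fun z hz => ?_)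
  by_cases h1 : Mem z y
  · exact Or.inr h1
  · exact Or.inl fun h2 => h1 (h2.1 hz)

/-- Definable subsets given by a symmetric predicate. -/
theorem exists_sub (x : PM A N) {P : PM A N → Prop}
    (h : ∃ H ∈ N.F, ∀ g ∈ H, ∀ z, Mem z x → P z → P (g • z)) :
    ∃ y : PM A N, IsSet y ∧ ∀ z, Mem z y ↔ Mem z x ∧ P z := by
  obtain ⟨H, hH, h1⟩ := h
  obtain ⟨K, hK, h2⟩ := pm_symm x
  obtain ⟨J, hJ, h3, h4⟩ := N.dir H hH K hK
  have := pm_small x
  have hs : _root_.Small.{0} {z : PM A N | Mem z x ∧ P z} :=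
    small_subset (s := {z : PM A N | Mem z x}) fun z (hz : Mem z x ∧ P z) => hz.1
  obtain ⟨p, hp, h⟩ := exists_set hs
    ⟨J, hJ, fun g hg z hz => ⟨mem_smul' (h2 g (h4 hg)) hz.1, h1 g (h3 hg) z hz.1 hz.2⟩⟩
  exact ⟨p, hp, fun z => h z⟩

/-- The set of the subsets of `x` with a symmetric property, indexed by pairs of natural
numbers. -/
theorem exists_fam (x : PM A N) {P : ℕ → ℕ → PM A N → Prop}
    (h : ∃ H ∈ N.F, ∀ g ∈ H, ∀ n i z, P n i z → P n i (g • z)) (hP : ∀ n i z, P n i z → Sub z x) :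
    ∃ f : PM A N, ∀ n i z, Mem (op (op (num n) (num i)) z) f ↔ P n i z := by
  obtain ⟨H, hH, h1⟩ := h
  obtain ⟨p, hp⟩ := (inferInstance : IsModel (PM A N)).power x
  have := pm_small p
  have hs : _root_.Small.{0} (⋃ t : ℕ × ℕ, (fun z : PM A N => op (op (num t.1) (num t.2)) z) ''
      {z | Mem z p}) := small_iUnion _
  have hs' : _root_.Small.{0} {q : PM A N | ∃ n i z, P n i z ∧ q = op (op (num n) (num i)) z} := by
    refine small_subset (s := ⋃ t : ℕ × ℕ, (fun z : PM A N => op (op (num t.1) (num t.2)) z) ''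
      {z | Mem z p}) ?_
    rintro q ⟨n, i, z, hz, rfl⟩
    exact Set.mem_iUnion.2 ⟨(n, i), z, (hp.2 z).2 (hP n i z hz), rfl⟩
  obtain ⟨f, -, hf⟩ := exists_set hs'
    ⟨H, hH, fun g hg q hq => by
      obtain ⟨n, i, z, hz, rfl⟩ := hq
      refine ⟨n, i, g • z, h1 g hg n i z hz, ?_⟩
      rw [smul_op, smul_op, smul_num, smul_num]⟩
  refine ⟨f, fun n i z => (hf _).trans ?_⟩
  constructor
  · rintro ⟨n', i', z', hz, h2⟩
    obtain ⟨h3, h4⟩ := op_inj h2
    obtain ⟨h5, h6⟩ := op_inj h3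
    rw [num_injective h5, num_injective h6, h4]
    exact hz
  · intro hz
    exact ⟨n, i, z, hz, rfl⟩

end Pool.Agent.Q211.ZP
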