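import Mathlib

/-!
# The group of finitary permutations
-/

set_option autoImplicit false

namespace Pool.Agent.Q211.ZP

/-- The group of finitary permutations. -/
def FinP (X : Type) : Subgroup (Equiv.Perm X) where
  carrier := {σ | {x | σ x ≠ x}.Finite}
  one_mem' := by
    refine Set.finite_empty.subset fun x hx => hx rfl
  mul_mem' {σ τ} hσ hτ := by
    refine (hσ.union hτ).subset fun x hx => ?_
    by_contra h
    rw [Set.mem_union, not_or] at h
    have h1 : τ x = x := not_not.1 h.2
    have h2 : σ x = x := not_not.1 h.1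
    exact hx (by rw [Equiv.Perm.mul_apply, h1, h2])
  inv_mem' {σ} hσ := by
    refine hσ.subset fun x hx h => hx ?_
    rw [Equiv.Perm.inv_eq_iff_eq]
    exact h.symm

variable {X : Type}

attribute [local instance] Classical.propDecidable

theorem finP_smul (g : FinP X) (x : X) : g • x = g.1 x := rfl

theorem finP_supp (g : FinP X) : {x : X | g • x ≠ x}.Finite := g.2

/-- The transposition. -/
noncomputable def sw (a b : X) : FinP X := ⟨Equiv.swap a b, by
  refine (Set.toFinite {a, b}).subset fun x hx => ?_
  by_contra h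
  rw [Set.mem_insert_iff, Set.mem_singleton_iff, not_or] at h
  exact hx (Equiv.swap_apply_of_ne_of_ne h.1 h.2)⟩

theorem sw_left (a b : X) : sw a b • a = b := Equiv.swap_apply_left a b

theorem sw_right (a b : X) : sw a b • b = a := Equiv.swap_apply_right a b

theorem sw_other {a b x : X} (h : x ≠ a) (h' : x ≠ b) : sw a b • x = x :=
  Equiv.swap_apply_of_ne_of_ne h h'

theorem sw_self (a : X) : sw a a = 1 := Subtype.ext (Equiv.swap_self a)

theorem sw_comm (a b : X) : sw a b = sw b a := Subtype.ext (Equiv.swap_comm a b)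

theorem sw_mul_self (a b : X) : sw a b * sw a b = 1 := Subtype.ext (Equiv.swap_mul_self a b)

theorem sw_inv (a b : X) : (sw a b)⁻¹ = sw a b := Subtype.ext (Equiv.swap_inv a b)

theorem conj_sw (g : FinP X) (a b : X) : g * sw a b * g⁻¹ = sw (g • a) (g • b) :=
  Subtype.ext (by
    change g.1 * Equiv.swap a b * g.1⁻¹ = Equiv.swap (g.1 a) (g.1 b)
    rw [Equiv.mul_swap_eq_swap_mul, mul_assoc, mul_inv_cancel, mul_one])

theorem mul_sw (g : FinP X) (a b : X) : g * sw a b = sw (g • a) (g • b) * g := by
  rw [← conj_sw, inv_mul_cancel_right]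

/-- Induction on the size of the support. -/
theorem fin_ind {γ : Type} (c : X → γ) (E : Set X) (T : Subgroup (FinP X))
    (hT : ∀ a b, c a = c b → a ∉ E → b ∉ E → sw a b ∈ T) (g : FinP X)
    (h1 : ∀ a, c (g • a) = c a) (h2 : ∀ a ∈ E, g • a = a) : g ∈ T := by
  obtain ⟨n, hn⟩ : ∃ n, {x : X | g • x ≠ x}.ncard = n := ⟨_, rfl⟩
  induction n using Nat.strong_induction_on generalizing g with
  | _ n ih =>
    by_cases h3 : ∀ a : X, g • a = a
    · have h4 : g = 1 := Subtype.ext (Equiv.ext h3)
      rw [h4]
      exact T.one_mem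
    push Not at h3
    obtain ⟨a, ha⟩ := h3
    have haE : a ∉ E := fun h => ha (h2 a h)
    have hgE : g • a ∉ E := fun h => ha (MulAction.injective g (h2 _ h))
    have h5 : sw (g • a) a ∈ T := hT _ _ (h1 a) hgE haE
    have h6 : sw (g • a) a * g ∈ T := by
      have hfix : ∀ x : X, g • x = x → (sw (g • a) a * g) • x = x := by
        intro x hx
        rw [mul_smul, hx]
        refine sw_other (fun h => ha ?_) fun h => ha ?_
        · have h7 : g • x = g • a := hx.trans h
          rw [← MulAction.injective g h7]
          exact hx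
        · rw [← h]
          exact hx
      have hfa : (sw (g • a) a * g) • a = a := by
        rw [mul_smul, sw_left]
      refine ih _ ?_ (sw (g • a) a * g) (fun x => ?_) (fun x hx => hfix x (h2 x hx)) rfl
      · rw [← hn]
        refine Set.ncard_lt_ncard ⟨fun x hx h => hx (hfix x h), fun h => ?_⟩ (finP_supp g)
        exact h ha hfa
      · rw [mul_smul]
        by_cases h7 : g • x = g • a
        · rw [h7, sw_left, ← h1 a, ← h7, h1]
        · by_cases h8 : g • x = a
          · rw [h8, sw_right, h1, ← h8, h1]
          · rw [sw_other h7 h8, h1]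
    have h7 := T.mul_mem h5 h6
    rwa [← mul_assoc, sw_mul_self, one_mul] at h7

end Pool.Agent.Q211.ZP
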