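import Pool.Agent.Q211.ZP.N
import Pool.Agent.Q211.ZP.Defs

/-!
# Permutation models are models of ZFA
-/

set_option autoImplicit false

namespace Pool.Agent.Q211.ZP

open Pool.Agent.Helper672.ZFA FirstOrder FirstOrder.Language

variable {A G : Type} [Group G] [MulAction G A] {N : Flt G}

/-- The common stabilizer. -/
theorem pm_symm₂ (x y : PM A N) : ∃ H ∈ N.F, ∀ g ∈ H, g • x = x ∧ g • y = y := by
  obtain ⟨H, hH, h1⟩ := pm_symm x
  obtain ⟨K, hK, h2⟩ := pm_symm y
  obtain ⟨J, hJ, h3, h4⟩ := N.dir H hH K hK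
  exact ⟨J, hJ, fun g hg => ⟨h1 g (h3 hg), h2 g (h4 hg)⟩⟩

theorem mem_smul' {g : G} {x z : PM A N} (h : g • x = x) (hz : Mem z x) : Mem (g • z) x := by
  have h1 := (mem_smul (g := g)).2 hz
  rwa [h] at h1

theorem exists_empty : ∃ x : PM A N, IsSet x ∧ ∀ z, ¬ Mem z x := by
  obtain ⟨H, hH⟩ := N.ne
  obtain ⟨x, hx, h⟩ := exists_set (S := (∅ : Set (PM A N))) (by infer_instance)
    ⟨H, hH, fun _ _ _ hz => hz⟩
  exact ⟨x, hx, fun z hz => (h z).1 hz⟩

theorem exists_pair (x y : PM A N) : ∃ p, IsSet p ∧ ∀ z, Mem z p ↔ z = x ∨ z = y := by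
  obtain ⟨H, hH, h1⟩ := pm_symm₂ x y
  have hs : _root_.Small.{0} {z : PM A N | z = x ∨ z = y} :=
    by
    have : _root_.Small.{0} ({x} ∪ {y} : Set (PM A N)) := small_union _ _
    refine small_subset (s := ({x} ∪ {y} : Set (PM A N))) fun z hz => ?_
    exact hz
  obtain ⟨p, hp, h⟩ := exists_set hs
    ⟨H, hH, fun g hg z hz => by
      rcases hz with rfl | rfl
      · exact Or.inl (h1 g hg).1
      · exact Or.inr (h1 g hg).2⟩
  exact ⟨p, hp, fun z => (h z)⟩

theorem exists_succ (x : PM A N) : ∃ s, IsSet s ∧ ∀ z, Mem z s ↔ Mem z x ∨ z = x := by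
  obtain ⟨H, hH, h1⟩ := pm_symm x
  have := pm_small x
  have hs : _root_.Small.{0} ({z : PM A N | Mem z x} ∪ {x} : Set (PM A N)) := small_union _ _
  obtain ⟨p, hp, h⟩ := exists_set hs
    ⟨H, hH, fun g hg z hz => by
      rcases hz with hz | hz
      · exact Or.inl (mem_smul' (h1 g hg) hz)
      · rw [Set.mem_singleton_iff] at hz
        rw [hz]
        exact Or.inr (h1 g hg)⟩
  exact ⟨p, hp, fun z => (h z)⟩

/-- Natural numbers. -/
noncomputable def nPM : ℕ → PM A N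
  | 0 => exists_empty.choose
  | n + 1 => (exists_succ (nPM n)).choose

theorem nPM_zero : IsSet (nPM 0 : PM A N) ∧ ∀ z : PM A N, ¬ Mem z (nPM 0) :=
  exists_empty.choose_spec

theorem nPM_succ (n : ℕ) : IsSet (nPM (n + 1) : PM A N) ∧
    ∀ z : PM A N, Mem z (nPM (n + 1)) ↔ Mem z (nPM n) ∨ z = nPM n :=
  (exists_succ (nPM n)).choose_spec

theorem isSet_nPM (n : ℕ) : IsSet (nPM n : PM A N) := by
  cases n with
  | zero => exact nPM_zero.1
  | succ n => exact (nPM_succ n).1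

theorem smul_nPM (g : G) (n : ℕ) : g • (nPM n : PM A N) = nPM n := by
  induction n with
  | zero =>
    refine pm_ext (isSet_smul.2 nPM_zero.1) nPM_zero.1 fun z => ?_
    constructor
    · intro h
      rw [← smul_inv_smul g z, mem_smul] at h
      exact (nPM_zero.2 _ h).elim
    · intro h
      exact (nPM_zero.2 _ h).elim
  | succ n ih =>
    refine pm_ext (isSet_smul.2 (nPM_succ n).1) (nPM_succ n).1 fun z => ?_
    rw [(nPM_succ n).2]
    have h1 : Mem z (g • (nPM (n + 1) : PM A N)) ↔ Mem (g⁻¹ • z) (nPM (n + 1) : PM A N) := by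
      rw [← mem_smul (g := g) (x := g⁻¹ • z), smul_inv_smul]
    have h2 : Mem (g⁻¹ • z) (nPM n : PM A N) ↔ Mem z (nPM n : PM A N) := by
      rw [← mem_smul (g := g) (x := g⁻¹ • z), smul_inv_smul, ih]
    rw [h1, (nPM_succ n).2, h2]
    refine or_congr Iff.rfl ?_
    rw [inv_smul_eq_iff, ih]

instance : ZFA (PM A N) where
  atoms x y h := fun h1 => U.IsAtom.not_mem h1 h
  ext x y hx hy h := pm_ext hx hy h
  pairing := exists_pair
  union x _ := by
    obtain ⟨H, hH, h1⟩ := pm_symm x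
    have := pm_small x
    have h2 : ∀ y : {z : PM A N | Mem z x}, _root_.Small.{0} {z : PM A N | Mem z y.1} :=
      fun y => pm_small y.1
    have hs : _root_.Small.{0} (⋃ y : {z : PM A N | Mem z x}, {z : PM A N | Mem z y.1}) :=
      small_iUnion _
    obtain ⟨p, hp, h⟩ := exists_set hs
      ⟨H, hH, fun g hg z hz => by
        obtain ⟨⟨y, hy⟩, hz⟩ := Set.mem_iUnion.1 hz
        exact Set.mem_iUnion.2 ⟨⟨g • y, mem_smul' (h1 g hg) hy⟩, mem_smul.2 hz⟩⟩
    refine ⟨p, hp, fun z => (h z).trans ?_⟩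
    rw [Set.mem_iUnion]
    exact ⟨fun ⟨y, hy⟩ => ⟨y.1, y.2, hy⟩, fun ⟨y, hy, hz⟩ => ⟨⟨y, hy⟩, hz⟩⟩
  power x _ := by
    obtain ⟨H, hH, h1⟩ := pm_symm x
    have := pm_small x
    have hs : _root_.Small.{0} {z : PM A N | IsSet z ∧ ∀ w, Mem w z → Mem w x} := by
      refine small_of_injective (f := fun z : {z : PM A N | IsSet z ∧ ∀ w, Mem w z → Mem w x} =>
        ({w | Mem w.1 z.1} : Set {w : PM A N | Mem w x})) fun a b hab => ?_
      refine Subtype.ext (pm_ext a.2.1 b.2.1 fun w => ?_)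
      constructor
      · intro hw
        have h2 := congrArg (fun s : Set {w : PM A N | Mem w x} =>
          (⟨w, a.2.2 w hw⟩ : {w : PM A N | Mem w x}) ∈ s) hab
        exact (Eq.mp h2 hw : _)
      · intro hw
        have h2 := congrArg (fun s : Set {w : PM A N | Mem w x} =>
          (⟨w, b.2.2 w hw⟩ : {w : PM A N | Mem w x}) ∈ s) hab.symm
        exact (Eq.mp h2 hw : _)
    obtain ⟨p, hp, h⟩ := exists_set hs
      ⟨H, hH, fun g hg z hz => by
        refine ⟨isSet_smul.2 hz.1, fun w hw => ?_⟩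
        rw [← smul_inv_smul g w] at hw ⊢
        exact mem_smul' (h1 g hg) (hz.2 _ (mem_smul.1 hw))⟩
    exact ⟨p, hp, fun z => h z⟩
  infinity := by
    obtain ⟨H, hH⟩ := N.ne
    have hs : _root_.Small.{0} (Set.range (nPM : ℕ → PM A N)) := small_range _
    obtain ⟨p, hp, h⟩ := exists_set hs
      ⟨H, hH, fun g hg z hz => by
        obtain ⟨n, rfl⟩ := hz
        exact ⟨n, (smul_nPM g n).symm⟩⟩
    refine ⟨p, ⟨nPM 0, (h _).2 ⟨0, rfl⟩, nPM_zero.1, nPM_zero.2⟩, fun n hn => ?_⟩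
    obtain ⟨k, rfl⟩ := (h _).1 hn
    exact ⟨nPM (k + 1), (h _).2 ⟨k + 1, rfl⟩, (nPM_succ k).1, (nPM_succ k).2⟩
  separation S hS x _ := by
    obtain ⟨H, hH, h1⟩ := pm_symm x
    have hD : D (fun v : Fin 1 → PM A N => v 0 ∈ S) := hS
    obtain ⟨K, hK, h2⟩ := D_inv hD
    obtain ⟨J, hJ, h3, h4⟩ := N.dir H hH K hK
    have := pm_small x
    have hs : _root_.Small.{0} {z : PM A N | Mem z x ∧ z ∈ S} :=
      small_subset (s := {z : PM A N | Mem z x}) fun z (hz : Mem z x ∧ z ∈ S) => hz.1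
    obtain ⟨p, hp, h⟩ := exists_set hs
      ⟨J, hJ, fun g hg z hz => ⟨mem_smul' (h1 g (h3 hg)) hz.1,
        (h2 g (h4 hg) fun _ => z).2 hz.2⟩⟩
    exact ⟨p, hp, fun z => h z⟩
  replacement R hR x _ hf := by
    classical
    obtain ⟨H, hH, h1⟩ := pm_symm x
    have hD : D (fun v : Fin 2 → PM A N => (v 0, v 1) ∈ R) := hR
    obtain ⟨K, hK, h2⟩ := D_inv hD
    obtain ⟨J, hJ, h3, h4⟩ := N.dir H hH K hK
    have := pm_small x
    have hs : _root_.Small.{0} {y : PM A N | ∃ z, Mem z x ∧ (z, y) ∈ R} := by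
      have h5 : _root_.Small.{0} (Set.range fun z : {z : PM A N | Mem z x} =>
        (hf z.1 z.2).choose) := small_range _
      refine small_subset (s := Set.range fun z : {z : PM A N | Mem z x} =>
        (hf z.1 z.2).choose) ?_
      rintro y ⟨z, hz, hy⟩
      exact ⟨⟨z, hz⟩, ((hf z hz).choose_spec.2 y hy).symm⟩
    obtain ⟨p, hp, h⟩ := exists_set hs
      ⟨J, hJ, fun g hg y hy => by
        obtain ⟨z, hz, hy⟩ := hy
        refine ⟨g • z, mem_smul' (h1 g (h3 hg)) hz, ?_⟩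
        have h5 := (h2 g (h4 hg) ![z, y]).2 hy
        exact h5⟩
    exact ⟨p, hp, fun y => h y⟩
  foundation x hx := by
    by_contra hc
    push Not at hc
    have h1 : ∀ u : U A, ∀ y : PM A N, y.1 = u → ¬ Mem y x := by
      intro u
      refine U.ind (p := fun u => ∀ y : PM A N, y.1 = u → ¬ Mem y x) (fun u ih y hy hyx => ?_) u
      obtain ⟨z, hz, hzx⟩ := hc y hyx
      refine ih z.1 ?_ z rfl hzx
      rw [← hy]
      exact hz
    obtain ⟨y, hy⟩ := hx
    exact h1 y.1 y rfl hy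
  atomSet := by
    obtain ⟨H, hH⟩ := N.ne
    have hs : _root_.Small.{0} {z : PM A N | ¬ IsSet z} := by
      have h1 : ∀ z : {z : PM A N | ¬ IsSet z}, ∃ a, z.1.1 = U.atom a := fun z =>
        U.isAtom_iff.1 (not_not.1 z.2)
      choose f hf using h1
      refine small_of_injective (f := f) fun a b hab => Subtype.ext (Subtype.ext ?_)
      rw [hf a, hf b, hab]
    obtain ⟨p, hp, h⟩ := exists_set hs
      ⟨H, hH, fun g hg z hz => fun h1 => hz (isSet_smul.1 h1)⟩
    exact ⟨p, hp, fun z => h z⟩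

theorem num_eq (n : ℕ) : (num n : PM A N) = nPM n := by
  induction n with
  | zero =>
    refine pm_ext (isSet_num 0) nPM_zero.1 fun z => ?_
    exact ⟨fun h => (not_mem_num_zero h).elim, fun h => (nPM_zero.2 z h).elim⟩
  | succ n ih =>
    refine pm_ext (isSet_num _) (nPM_succ n).1 fun z => ?_
    rw [mem_num_succ, (nPM_succ n).2, ih]

theorem smul_num (g : G) (n : ℕ) : g • (num n : PM A N) = num n := by
  rw [num_eq, smul_nPM]

theorem stdOmega : StdOmega (PM A N) := by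
  intro n
  obtain ⟨H, hH⟩ := N.ne
  have hs : _root_.Small.{0} (Set.range (num : ℕ → PM A N)) := small_range _
  obtain ⟨p, hp, h⟩ := exists_set hs
    ⟨H, hH, fun g hg z hz => by
      obtain ⟨n, rfl⟩ := hz
      exact ⟨n, (smul_num g n).symm⟩⟩
  obtain ⟨k, hk⟩ := (h _).1 (n.prop p ⟨⟨num 0, (h _).2 ⟨0, rfl⟩, isSet_num 0,
    fun z => not_mem_num_zero⟩, fun z hz => by
      obtain ⟨k, rfl⟩ := (h _).1 hz
      exact ⟨num (k + 1), (h _).2 ⟨k + 1, rfl⟩, isSet_num _, fun z => mem_num_succ⟩⟩)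
  exact ⟨k, hk.symm⟩

theorem exists_numI (n : INat (PM A N)) : ∃ k : ℕ, n = numI _ k := by
  obtain ⟨k, hk⟩ := stdOmega n
  exact ⟨k, INat.ext hk⟩

/-- The type of the natural numbers is a type of the model. -/
noncomputable instance : ITy (PM A N) ℕ where
  code := num
  inj := num_injective
  small := by
    obtain ⟨H, hH⟩ := N.ne
    have hs : _root_.Small.{0} {z : PM A N | ∃ k : ℕ, num k = z} :=
      small_range (num : ℕ → PM A N)
    obtain ⟨p, hp, h⟩ := exists_set hs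
      ⟨H, hH, fun g hg z hz => by
        obtain ⟨n, rfl⟩ := hz
        exact ⟨n, (smul_num g n).symm⟩⟩
    exact ⟨p, hp, fun z => h z⟩

theorem code_nat (n : ℕ) : code (M := PM A N) n = num n := rfl

theorem smul_op (g : G) (x y : PM A N) : g • op x y = op (g • x) (g • y) := by
  have h : ∀ x y : PM A N, g • up x y = up (g • x) (g • y) := by
    intro x y
    rw [eq_up]
    refine ⟨isSet_smul.2 (isSet_up x y), fun z => ?_⟩
    rw [← smul_inv_smul g z, mem_smul, mem_up, smul_inv_smul, inv_smul_eq_iff, inv_smul_eq_iff]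
  unfold op
  rw [h, h, h]

/-! ### Internal predicates -/

section

variable {α : Type*} [ITy (PM A N) α] {β : Type*} [ITy (PM A N) β]

/-- `g` maps `a` to `b`. -/
def Rel (g : G) (a : α) (b : β) : Prop := g • code (M := PM A N) a = code (M := PM A N) b

theorem exists_rel : ∃ H ∈ N.F, ∀ g ∈ H, ∀ a : α, ∃ b : α, Rel (N := N) (A := A) g a b := by
  obtain ⟨H, hH, h1⟩ := pm_symm (dom (PM A N) α)
  refine ⟨H, hH, fun g hg a => ?_⟩
  obtain ⟨b, hb⟩ := mem_dom.1 (mem_smul' (h1 g hg) (code_mem_dom a))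
  exact ⟨b, hb.symm⟩

theorem int_iff {p : α → Prop} : Int (PM A N) p ↔
    ∃ H ∈ N.F, ∀ g ∈ H, ∀ a b : α, Rel (N := N) (A := A) g a b → p a → p b := by
  constructor
  · rintro ⟨s, hs⟩
    obtain ⟨H, hH, h1⟩ := pm_symm s
    refine ⟨H, hH, fun g hg a b hab ha => ?_⟩
    rw [← hs] at ha ⊢
    have h2 := mem_smul' (h1 g hg) ha
    rwa [hab] at h2
  · rintro ⟨H, hH, h1⟩
    obtain ⟨K, hK, h2⟩ := exists_rel (α := α) (N := N) (A := A)
    obtain ⟨J, hJ, h3, h4⟩ := N.dir H hH K hK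
    have h5 := pm_small (dom (PM A N) α)
    have hs : _root_.Small.{0} {z : PM A N | ∃ a, p a ∧ code a = z} :=
      small_subset (s := {z : PM A N | Mem z (dom (PM A N) α)}) fun z
        (hz : ∃ a, p a ∧ code (M := PM A N) a = z) =>
          mem_dom.2 ⟨hz.choose, hz.choose_spec.2⟩
    obtain ⟨x, hx, h⟩ := exists_set hs
      ⟨J, hJ, fun g hg z hz => by
        obtain ⟨a, ha, rfl⟩ := hz
        obtain ⟨b, hb⟩ := h2 g (h4 hg) a
        exact ⟨b, h1 g (h3 hg) a b hb ha, hb.symm⟩⟩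
    refine ⟨x, fun a => (h _).trans ?_⟩
    constructor
    · rintro ⟨b, hb, h6⟩
      rwa [← ITy.inj h6]
    · intro ha
      exact ⟨a, ha, rfl⟩

theorem rel_prod {g : G} {a a' : α} {b b' : β} : Rel (N := N) (A := A) g (a, b) (a', b') ↔
    Rel (N := N) (A := A) g a a' ∧ Rel (N := N) (A := A) g b b' := by
  unfold Rel
  rw [code_prod, code_prod, smul_op]
  constructor
  · intro h
    exact op_inj h
  · rintro ⟨h1, h2⟩
    rw [h1, h2]

theorem rel_nat {g : G} {m n : ℕ} : Rel (N := N) (A := A) g m n ↔ m = n := by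
  unfold Rel
  rw [code_nat, code_nat, smul_num]
  exact num_injective.eq_iff

theorem rel_inj {g : G} {a b b' : α} (h : Rel (N := N) (A := A) g a b)
    (h' : Rel (N := N) (A := A) g a b') : b = b' := ITy.inj (h.symm.trans h')

theorem rel_inj' {g : G} {a a' b : α} (h : Rel (N := N) (A := A) g a b)
    (h' : Rel (N := N) (A := A) g a' b) : a = a' :=
  ITy.inj (MulAction.injective g (h.trans h'.symm))

theorem rel_mem {g : G} {a b : α} {s t : IPow (PM A N) α} (h : Rel (N := N) (A := A) g a b)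
    (h' : Rel (N := N) (A := A) g s t) : a ∈ s ↔ b ∈ t := by
  rw [← mem_code_iff, ← mem_smul (g := g), h, h', mem_code_iff]

theorem rel_pow {g : G} {s t : IPow (PM A N) α}
    (h : ∀ a ∈ s, ∃ b ∈ t, Rel (N := N) (A := A) g a b)
    (h' : ∀ b ∈ t, ∃ a ∈ s, Rel (N := N) (A := A) g a b) : Rel (N := N) (A := A) g s t := by
  unfold Rel
  have h1 : ∀ s : IPow (PM A N) α, IsSet (code (M := PM A N) s) := fun s => s.int.small.isSet
  refine pm_ext (isSet_smul.2 (h1 s)) (h1 t) fun z => ?_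
  have h2 : Mem z (g • code (M := PM A N) s) ↔ Mem (g⁻¹ • z) (code (M := PM A N) s) := by
    rw [← mem_smul (g := g) (x := g⁻¹ • z), smul_inv_smul]
  rw [h2]
  have h3 : ∀ (s : IPow (PM A N) α) (w : PM A N), Mem w (code (M := PM A N) s) ↔
      ∃ a, a ∈ s ∧ code a = w := fun s w => mem_code_pow
  rw [h3, h3]
  constructor
  · rintro ⟨a, ha, h4⟩
    obtain ⟨b, hb, h5⟩ := h a ha
    refine ⟨b, hb, ?_⟩
    rw [← h5, h4, smul_inv_smul]
  · rintro ⟨b, hb, rfl⟩
    obtain ⟨a, ha, h5⟩ := h' b hb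
    refine ⟨a, ha, ?_⟩
    rw [← h5, inv_smul_smul]

end

end Pool.Agent.Q211.ZP
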