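import Pool.Agent.Q211.ZP.Dy
import Pool.Agent.Q211.ZP.Bin
import Pool.Agent.Q211.ZP.Fp

/-!
# The permutation model of the dyadic blocks
-/

set_option autoImplicit false

namespace Pool.Agent.Q211.ZP

open Pool.Agent.Helper672.ZFA FirstOrder FirstOrder.Language

/-- The finitary permutations that preserve the blocks of level `n` and fix `E` pointwise. -/
def Hs (n : ℕ) (E : Set ℕ) : Subgroup (FinP ℕ) where
  carrier := {g | (∀ a : ℕ, cx n (g • a) = cx n a) ∧ ∀ a ∈ E, g • a = a}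
  one_mem' := ⟨fun a => by rw [one_smul], fun a _ => one_smul _ a⟩
  mul_mem' {g h} hg hh := ⟨fun a => by rw [mul_smul, hg.1, hh.1], fun a ha => by
    rw [mul_smul, hh.2 a ha, hg.2 a ha]⟩
  inv_mem' {g} hg := ⟨fun a => by rw [← hg.1, smul_inv_smul], fun a ha => by
    rw [inv_smul_eq_iff, hg.2 a ha]⟩

theorem mem_Hs {n : ℕ} {E : Set ℕ} {g : FinP ℕ} :
    g ∈ Hs n E ↔ (∀ a : ℕ, cx n (g • a) = cx n a) ∧ ∀ a ∈ E, g • a = a := Iff.rfl

theorem Hs_le {m n : ℕ} {E E' : Set ℕ} (h : m ≤ n) (hE : E ⊆ E') : Hs n E' ≤ Hs m E :=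
  fun _ hg => ⟨fun a => cx_mono h (hg.1 a), fun a ha => hg.2 a (hE ha)⟩

/-- The filter. -/
def Na : Flt (FinP ℕ) where
  F := {H | ∃ (n : ℕ) (E : Set ℕ), E.Finite ∧ H = Hs n E}
  ne := ⟨_, 0, ∅, Set.finite_empty, rfl⟩
  dir := by
    rintro _ ⟨n, E, hE, rfl⟩ _ ⟨m, E', hE', rfl⟩
    exact ⟨_, ⟨max n m, E ∪ E', hE.union hE', rfl⟩, Hs_le (le_max_left _ _) Set.subset_union_left,
      Hs_le (le_max_right _ _) Set.subset_union_right⟩
  conj := by
    rintro _ ⟨n, E, hE, rfl⟩ g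
    refine ⟨_, ⟨n, {x : ℕ | g • x ≠ x} ∪ E, (finP_supp g).union hE, rfl⟩, fun k hk => ?_⟩
    have key : ∀ a : ℕ, (g⁻¹ * k * g) • a = a ∨ (g • a = a ∧ (g⁻¹ * k * g) • a = k • a) := by
      intro a
      by_cases h1 : g • a = a
      · right
        refine ⟨h1, ?_⟩
        rw [mul_smul, mul_smul, h1, inv_smul_eq_iff]
        by_contra h2
        have h3 : k • k • a = k • a := hk.2 _ (Or.inl fun h => h2 h.symm)
        have h4 : k • a = a := MulAction.injective k h3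
        rw [h4] at h2
        exact h2 h1.symm
      · left
        have h2 : g • g • a ≠ g • a := fun h => h1 (MulAction.injective g h)
        rw [mul_smul, mul_smul, hk.2 _ (Or.inl h2), inv_smul_smul]
    refine ⟨fun a => ?_, fun a ha => ?_⟩
    · rcases key a with h | ⟨-, h⟩
      · rw [h]
      · rw [h, hk.1]
    · rcases key a with h | ⟨-, h⟩
      · exact h
      · rw [h, hk.2 a (Or.inr ha)]

/-- The model. -/
abbrev Pa : Type 1 := PM ℕ Na

theorem pa_symm (x : Pa) : ∃ (n : ℕ) (E : Set ℕ), E.Finite ∧ ∀ g ∈ Hs n E, g • x = x := by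
  obtain ⟨_, ⟨n, E, hE, rfl⟩, h⟩ := pm_symm x
  exact ⟨n, E, hE, h⟩

theorem sw_mem_Hs {n : ℕ} {E : Set ℕ} {a b : ℕ} (h : cx n a = cx n b) (ha : a ∉ E) (hb : b ∉ E) :
    sw a b ∈ Hs n E := by
  refine ⟨fun x => ?_, fun x hx => ?_⟩
  · by_cases h1 : x = a
    · rw [h1, sw_left, h]
    · by_cases h2 : x = b
      · rw [h2, sw_right, h]
      · rw [sw_other h1 h2]
  · refine sw_other (fun h1 => ha ?_) fun h1 => hb ?_
    · rwa [← h1]
    · rwa [← h1]

/-- The index in a block. -/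
theorem cx_div (m k b : ℕ) : cx (m + k) b / 2 ^ k = cx m b := by
  induction k with
  | zero => simp
  | succ k ih =>
    rw [← add_assoc, pow_succ', ← Nat.div_div_eq_div_mul, cx_half, ih]

/-- Sets all of whose elements have a common support. -/
theorem dfbi_of_fixed {x : Pa} (hx : {z | Mem z x}.Infinite) {H : Subgroup (FinP ℕ)}
    (hH : H ∈ Na.F) (h : ∀ z, Mem z x → ∀ g ∈ H, g • z = z) : DFBI x := by
  classical
  have := hx.to_subtype
  let ν : ℕ ↪ {z : Pa | Mem z x} := Infinite.natEmbedding _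
  let r : Pa → ℕ := fun z => if hz : ∃ k, (ν k).1 = z then hz.choose else 0
  have hr : ∀ k, r (ν k).1 = k := by
    intro k
    have h1 : ∃ j, (ν j).1 = (ν k).1 := ⟨k, rfl⟩
    change (if hz : ∃ j, (ν j).1 = (ν k).1 then hz.choose else 0) = k
    rw [dif_pos h1]
    exact ν.injective (Subtype.ext h1.choose_spec)
  choose D hD hD' using fun n i => exists_sub x (P := fun z => cx n (r z) = i)
    ⟨H, hH, fun g hg z hz hp => by rwa [h z hz g hg]⟩
  refine DySys.dfbi (D := D) ⟨fun n i => ⟨hD n i, fun z hz => ((hD' n i z).1 hz).1⟩,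
    fun n i hi => ?_, fun n i z => ?_, fun n i j z h1 h2 => ?_, fun n z hz => ?_,
    H, hH, fun g hg n i => ?_⟩
  · refine ((cx_infinite n i hi).image (f := fun k => (ν k).1) fun a _ b _ hab =>
      ν.injective (Subtype.ext hab)).mono ?_
    rintro _ ⟨k, hk, rfl⟩
    refine (hD' n i _).2 ⟨(ν k).2, ?_⟩
    rw [hr]
    exact hk
  · rw [hD', hD', hD']
    have h1 := cx_half n (r z)
    constructor
    · rintro ⟨h2, h3⟩
      rcases Nat.mod_two_eq_zero_or_one (cx (n + 1) (r z)) with h4 | h4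
      · exact Or.inl ⟨h2, by omega⟩
      · exact Or.inr ⟨h2, by omega⟩
    · rintro (⟨h2, h3⟩ | ⟨h2, h3⟩)
      · exact ⟨h2, by omega⟩
      · exact ⟨h2, by omega⟩
  · rw [hD'] at h1 h2
    rw [← h1.2, h2.2]
  · exact ⟨cx n (r z), cx_lt _ _, (hD' _ _ _).2 ⟨hz, rfl⟩⟩
  · have h1 : g • D n i = D n i := by
      refine pm_ext (isSet_smul.2 (hD n i)) (hD n i) fun z => ?_
      constructor
      · intro h2
        rw [← smul_inv_smul g z, mem_smul] at h2
        have h3 := h _ ((hD' _ _ _).1 h2).1 g hg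
        rw [smul_inv_smul] at h3
        rwa [← h3] at h2
      · intro h2
        have h3 := h _ ((hD' _ _ _).1 h2).1 g hg
        rw [← h3, mem_smul]
        exact h2
    rw [h1]
    exact Eqf.refl _

/-- Sets that contain a copy of a block. -/
theorem dfbi_of_moved {x : Pa} {n : ℕ} {E : Set ℕ} (hE : E.Finite)
    (hx : ∀ g ∈ Hs n E, g • x = x) {z : Pa} (hz : Mem z x) {g : FinP ℕ} (hg : g ∈ Hs n E)
    (hgz : g • z ≠ z) : DFBI x := by
  classical
  -- a support of `z`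
  obtain ⟨m₀, E₀, hE₀, hz₀⟩ := pa_symm z
  obtain ⟨m, E', hE', hm, hEE, hz'⟩ : ∃ (m : ℕ) (E' : Set ℕ), E'.Finite ∧ n ≤ m ∧ E ⊆ E' ∧
      ∀ g ∈ Hs m E', g • z = z :=
    ⟨max n m₀, E ∪ E₀, hE.union hE₀, le_max_left _ _, Set.subset_union_left, fun g hg =>
      hz₀ g (Hs_le (le_max_right _ _) Set.subset_union_right hg)⟩
  -- a transposition that moves `z`
  obtain ⟨a, b, hab, ha, hb, hsw⟩ : ∃ a b, cx n a = cx n b ∧ a ∉ E ∧ b ∉ E' ∧
      sw a b • z ≠ z := by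
    by_contra hc
    push Not at hc
    refine hgz ?_
    refine fin_ind (cx n) E (MulAction.stabilizer (FinP ℕ) z) (fun a b h1 h2 h3 => ?_) g hg.1 hg.2
    have h4 : ({c | cx n c = cx n a} \ (E' ∪ {a, b})).Infinite :=
      (cx_infinite n _ (cx_lt n a)).sdiff (hE'.union (Set.toFinite _))
    obtain ⟨c, hc1, hc2⟩ := h4.nonempty
    have hc3 : c ∉ E' := fun h => hc2 (Or.inl h)
    have hca : c ≠ a := fun h => hc2 (Or.inr (Or.inl h))
    have hcb : c ≠ b := fun h => hc2 (Or.inr (Or.inr h))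
    by_cases hab' : a = b
    · rw [hab', sw_self]
      exact one_smul _ z
    have h5 : sw a b = sw a c * sw b c * sw a c := by
      have h6 := conj_sw (sw a c) b c
      rw [sw_inv, sw_right, sw_other (fun h => hab' h.symm) (fun h => hcb h.symm)] at h6
      rw [h6, sw_comm]
    have h6 : sw a c • z = z := hc a c hc1.symm h2 hc3
    have h7 : sw b c • z = z := hc b c (h1.symm.trans hc1.symm) h3 hc3
    change sw a b • z = z
    rw [h5, mul_smul, mul_smul, h6, h7, h6]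
  have hab' : a ≠ b := by
    rintro rfl
    rw [sw_self, one_smul] at hsw
    exact hsw rfl
  have hm' : ∀ c d, cx m c = cx m d → c ∉ E' → d ∉ E' → sw c d • z = z :=
    fun c d h1 h2 h3 => hz' _ (sw_mem_Hs h1 h2 h3)
  let q := cx m b
  let B : ℕ → Prop := fun c => cx m c = q ∧ c ∉ E' ∧ c ≠ a
  let F : ℕ → Pa := fun c => sw a c • z
  have hFx : ∀ c, B c → Mem (F c) x := fun c hc => mem_smul'
    (hx _ (sw_mem_Hs (hab.trans (cx_mono hm hc.1.symm)) ha fun h => hc.2.1 (hEE h))) hz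
  have hFne : ∀ c, B c → F c ≠ z := by
    intro c hc h1
    by_cases hbc : c = b
    · rw [hbc] at h1
      exact hsw h1
    · have h2 := conj_sw (sw b c) a b
      rw [sw_inv, sw_left, sw_other hab' (fun h => hc.2.2 h.symm)] at h2
      have h3 : sw b c • z = z := hm' b c hc.1.symm hb hc.2.1
      have h4 : sw a c • z = z := h1
      rw [← h2, mul_smul, mul_smul, h3, smul_eq_iff_eq_inv_smul, sw_inv, h3] at h4
      exact hsw h4
  have hFinj : ∀ c d, B c → B d → F c = F d → c = d := by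
    intro c d hc hd h1
    by_contra hcd
    have h2 := conj_sw (sw c d) a c
    rw [sw_inv, sw_left, sw_other (fun h => hc.2.2 h.symm) (fun h => hd.2.2 h.symm)] at h2
    have h3 : sw c d • z = z := hm' c d (hc.1.trans hd.1.symm) hc.2.1 hd.2.1
    have h4 : F d = sw c d • F c := by
      change sw a d • z = sw c d • sw a c • z
      rw [← h2, mul_smul, mul_smul, h3]
    have h5 := conj_sw (sw a c) c d
    rw [sw_inv, sw_right, sw_other (fun h => hd.2.2 h) (fun h => hcd h.symm)] at h5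
    have h6 : F d = sw a c • sw c d • F c := by
      change sw a d • z = sw a c • sw c d • sw a c • z
      rw [← h5, mul_smul, mul_smul]
    rw [← h4, ← h1] at h6
    have h7 : sw a c • F c = z := by
      change sw a c • sw a c • z = z
      rw [← mul_smul, sw_mul_self, one_smul]
    rw [h7] at h6
    exact hFne c hc h6
  have hFact : ∀ g ∈ Hs m (E' ∪ {a}), ∀ c, B c → B (g • c) ∧ g • F c = F (g • c) := by
    intro g hg c hc
    have hga : g • a = a := hg.2 a (Or.inr rfl)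
    have hgE : ∀ e ∈ E', g • e = e := fun e he => hg.2 e (Or.inl he)
    refine ⟨⟨(hg.1 c).trans hc.1, fun h => hc.2.1 ?_, fun h => hc.2.2 ?_⟩, ?_⟩
    · have h1 := hgE _ h
      rwa [MulAction.injective g h1] at h
    · exact MulAction.injective g (h.trans hga.symm)
    · change g • sw a c • z = sw a (g • c) • z
      rw [← mul_smul, mul_sw, hga, mul_smul, hz' g ⟨hg.1, hgE⟩]
  have hFact' : ∀ g ∈ Hs m (E' ∪ {a}), ∀ w, (∃ c, B c ∧ g • w = F c) → ∃ c, B c ∧ w = F c := by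
    rintro g hg w ⟨c, hc, h1⟩
    obtain ⟨h2, h3⟩ := hFact g⁻¹ (inv_mem hg) c hc
    refine ⟨g⁻¹ • c, h2, ?_⟩
    rw [← h3, ← h1, inv_smul_smul]
  choose D hD hD' using fun k i => exists_sub x (P := fun w =>
    (∃ c, B c ∧ w = F c ∧ cx (m + k) c = 2 ^ k * q + i) ∨ (i = 0 ∧ ¬ ∃ c, B c ∧ w = F c))
    ⟨_, ⟨m + k, E' ∪ {a}, hE'.union (Set.finite_singleton a), rfl⟩, fun g hg w hw hp => by
      have hg' : g ∈ Hs m (E' ∪ {a}) := Hs_le (Nat.le_add_right m k) subset_rfl hg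
      rcases hp with ⟨c, hc, rfl, h1⟩ | ⟨hi, h1⟩
      · obtain ⟨h2, h3⟩ := hFact g hg' c hc
        exact Or.inl ⟨g • c, h2, h3, by rw [hg.1, h1]⟩
      · exact Or.inr ⟨hi, fun h2 => h1 (hFact' g hg' w h2)⟩⟩
  have hpow : ∀ k, 2 ^ (k + 1) * q = 2 * (2 ^ k * q) := fun k => by ring
  refine DySys.dfbi (D := D) ⟨fun n i => ⟨hD n i, fun z hz => ((hD' n i z).1 hz).1⟩,
    fun k i hi => ?_, fun k i w => ?_, fun k i j w h1 h2 => ?_, fun k w hw => ?_,
    _, ⟨m, E' ∪ {a}, hE'.union (Set.finite_singleton a), rfl⟩, fun g hg k i => ?_⟩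
  · have hlt : 2 ^ k * q + i < 2 ^ (m + k) := by
      have h1 : q < 2 ^ m := cx_lt m b
      have h2 : 2 ^ k * (q + 1) ≤ 2 ^ k * 2 ^ m := Nat.mul_le_mul_left _ h1
      rw [← pow_add, add_comm k m, Nat.mul_add, mul_one] at h2
      omega
    have h1 : ({c | cx (m + k) c = 2 ^ k * q + i} \ (E' ∪ {a})).Infinite :=
      (cx_infinite _ _ hlt).sdiff (hE'.union (Set.finite_singleton a))
    have h2 : ∀ c ∈ ({c | cx (m + k) c = 2 ^ k * q + i} \ (E' ∪ {a})), B c := by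
      rintro c ⟨h3, h4⟩
      refine ⟨?_, fun h => h4 (Or.inl h), fun h => h4 (Or.inr h)⟩
      rw [← cx_div m k c, h3, Nat.mul_add_div (Nat.two_pow_pos k), Nat.div_eq_of_lt hi, add_zero]
    refine (h1.image (f := F) fun c hc d hd hcd => hFinj c d (h2 c hc) (h2 d hd) hcd).mono ?_
    rintro _ ⟨c, hc, rfl⟩
    exact (hD' k i _).2 ⟨hFx c (h2 c hc), Or.inl ⟨c, h2 c hc, rfl, hc.1⟩⟩
  · rw [hD', hD', hD']
    have key : ∀ c, cx (m + k) c = 2 ^ k * q + i ↔ (cx (m + (k + 1)) c = 2 ^ (k + 1) * q + 2 * i ∨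
        cx (m + (k + 1)) c = 2 ^ (k + 1) * q + (2 * i + 1)) := by
      intro c
      have h1 : cx (m + (k + 1)) c / 2 = cx (m + k) c := cx_half (m + k) c
      have h2 := hpow k
      omega
    constructor
    · rintro ⟨h1, ⟨c, hc, h2, h3⟩ | ⟨hi, h2⟩⟩
      · rcases (key c).1 h3 with h4 | h4
        · exact Or.inl ⟨h1, Or.inl ⟨c, hc, h2, h4⟩⟩
        · exact Or.inr ⟨h1, Or.inl ⟨c, hc, h2, h4⟩⟩
      · exact Or.inl ⟨h1, Or.inr ⟨by omega, h2⟩⟩
    · rintro (⟨h1, ⟨c, hc, h2, h3⟩ | ⟨hi, h2⟩⟩ | ⟨h1, ⟨c, hc, h2, h3⟩ | ⟨hi, h2⟩⟩)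
      · exact ⟨h1, Or.inl ⟨c, hc, h2, (key c).2 (Or.inl h3)⟩⟩
      · exact ⟨h1, Or.inr ⟨by omega, h2⟩⟩
      · exact ⟨h1, Or.inl ⟨c, hc, h2, (key c).2 (Or.inr h3)⟩⟩
      · omega
  · rw [hD'] at h1 h2
    rcases h1.2 with ⟨c, hc, h3, h4⟩ | ⟨hi, h3⟩
    · rcases h2.2 with ⟨d, hd, h5, h6⟩ | ⟨hj, h5⟩
      · rw [h3] at h5
        rw [hFinj c d hc hd h5] at h4
        omega
      · exact (h5 ⟨c, hc, h3⟩).elim
    · rcases h2.2 with ⟨d, hd, h5, h6⟩ | ⟨hj, h5⟩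
      · exact (h3 ⟨d, hd, h5⟩).elim
      · rw [hi, hj]
  · by_cases h1 : ∃ c, B c ∧ w = F c
    · obtain ⟨c, hc, h2⟩ := h1
      refine ⟨cx (m + k) c % 2 ^ k, Nat.mod_lt _ (Nat.two_pow_pos k), (hD' _ _ _).2 ⟨hw,
        Or.inl ⟨c, hc, h2, ?_⟩⟩⟩
      have h3 := cx_div m k c
      rw [hc.1] at h3
      rw [← h3]
      exact (Nat.div_add_mod _ _).symm
    · exact ⟨0, Nat.two_pow_pos k, (hD' _ _ _).2 ⟨hw, Or.inr ⟨rfl, h1⟩⟩⟩
  · have hgx : g • x = x := hx g (Hs_le hm (hEE.trans Set.subset_union_left) hg)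
    refine ((finP_supp g⁻¹).image F).subset fun w hw => ?_
    by_contra h1
    refine hw ?_
    have h2 : Mem w (g • D k i) ↔ Mem (g⁻¹ • w) (D k i) := by
      rw [← mem_smul (g := g) (x := g⁻¹ • w), smul_inv_smul]
    have h3 : Mem (g⁻¹ • w) x ↔ Mem w x := by
      rw [← mem_smul (g := g) (x := g⁻¹ • w), smul_inv_smul, hgx]
    rw [h2, hD', hD', h3]
    refine and_congr Iff.rfl ?_
    by_cases h4 : ∃ c, B c ∧ w = F c
    · obtain ⟨c, hc, h5⟩ := h4
      have h6 : g⁻¹ • c = c := by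
        by_contra h7
        exact h1 ⟨c, h7, h5.symm⟩
      have h7 : g⁻¹ • w = w := by
        rw [h5, (hFact g⁻¹ (inv_mem hg) c hc).2, h6]
      rw [h7]
    · have h5 : ¬ ∃ c, B c ∧ g⁻¹ • w = F c := fun h6 => h4 (hFact' g⁻¹ (inv_mem hg) w h6)
      constructor
      · rintro (⟨c, hc, h6, -⟩ | ⟨hi, -⟩)
        · exact (h5 ⟨c, hc, h6⟩).elim
        · exact Or.inr ⟨hi, h4⟩
      · rintro (⟨c, hc, h6, -⟩ | ⟨hi, -⟩)
        · exact (h4 ⟨c, hc, h6⟩).elim
        · exact Or.inr ⟨hi, h5⟩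

theorem dfbi_all (x : Pa) (hx : ¬ FinIn x) : DFBI x := by
  rw [finIn_iff] at hx
  obtain ⟨n, E, hE, h⟩ := pa_symm x
  by_cases h1 : ∀ z, Mem z x → ∀ g ∈ Hs n E, g • z = z
  · exact dfbi_of_fixed hx ⟨n, E, hE, rfl⟩ h1
  · push Not at h1
    obtain ⟨z, hz, g, hg, hgz⟩ := h1
    exact dfbi_of_moved hE h hz hg hgz

/-- The atoms. -/
theorem exists_atoms : ∃ x : Pa, IsSet x ∧ ¬ FinIn x ∧ ¬ WDI x := by
  have hat : ∀ a : ℕ, HS Na (U.atom a : U ℕ) := fun a =>
    .intro _ ⟨_, ⟨0, {a}, Set.finite_singleton a, rfl⟩, fun g hg => by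
      rw [U.smul_atom, hg.2 a rfl]⟩ fun y hy => (U.not_mem_atom hy).elim
  let at' : ℕ → Pa := fun a => ⟨U.atom a, hat a⟩
  have hinj : Function.Injective at' := fun a b h => U.atom_inj.1 (congrArg Subtype.val h)
  have hact : ∀ (g : FinP ℕ) (a : ℕ), g • at' a = at' (g • a) := fun g a =>
    Subtype.ext (U.smul_atom g a)
  obtain ⟨x, hx, h⟩ := exists_set (S := Set.range at') (small_range _)
    ⟨_, ⟨0, ∅, Set.finite_empty, rfl⟩, fun g _ z hz => by
      obtain ⟨a, rfl⟩ := hz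
      exact ⟨g • a, (hact g a).symm⟩⟩
  refine ⟨x, hx, fun hf => ?_, ?_⟩
  · rw [finIn_iff] at hf
    refine Set.infinite_range_of_injective hinj (hf.subset fun z hz => (h z).2 hz)
  · rintro ⟨f, h1, h2, h3⟩
    obtain ⟨n, E, hE, hf⟩ := pa_symm f
    choose V hV hV' using h1
    have hfix : ∀ k, ∀ g ∈ Hs n E, g • V k = V k := by
      intro k g hg
      refine hV' k _ ?_
      have h4 := mem_smul' (hf g hg) (hV k)
      rwa [smul_op, smul_num] at h4
    have hswap : ∀ k a b, cx n a = cx n b → a ∉ E → b ∉ E → Mem (at' a) (V k) →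
        Mem (at' b) (V k) := by
      intro k a b hab ha hb hak
      have h4 := mem_smul' (hfix k _ (sw_mem_Hs hab ha hb)) hak
      rwa [hact, sw_left] at h4
    have hkey : ∀ k k', ({a | a ∈ E ∧ Mem (at' a) (V k)} : Set ℕ) =
        {a | a ∈ E ∧ Mem (at' a) (V k')} →
        ({i | i < 2 ^ n ∧ ∃ a, a ∉ E ∧ cx n a = i ∧ Mem (at' a) (V k)} : Set ℕ) =
        {i | i < 2 ^ n ∧ ∃ a, a ∉ E ∧ cx n a = i ∧ Mem (at' a) (V k')} → V k = V k' := by
      intro k k' h4 h5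
      have key : ∀ k k', ({a | a ∈ E ∧ Mem (at' a) (V k)} : Set ℕ) =
          {a | a ∈ E ∧ Mem (at' a) (V k')} →
          ({i | i < 2 ^ n ∧ ∃ a, a ∉ E ∧ cx n a = i ∧ Mem (at' a) (V k)} : Set ℕ) =
          {i | i < 2 ^ n ∧ ∃ a, a ∉ E ∧ cx n a = i ∧ Mem (at' a) (V k')} →
          ∀ z, Mem z (V k) → Mem z (V k') := by
        intro k k' h4 h5 z hz
        obtain ⟨a, rfl⟩ := (h z).1 ((h2 k _ (hV k)).2 z hz)
        by_cases ha : a ∈ E
        · have h6 : a ∈ ({a | a ∈ E ∧ Mem (at' a) (V k)} : Set ℕ) := ⟨ha, hz⟩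
          rw [h4] at h6
          exact h6.2
        · have h6 : cx n a ∈ ({i | i < 2 ^ n ∧ ∃ a, a ∉ E ∧ cx n a = i ∧
            Mem (at' a) (V k)} : Set ℕ) := ⟨cx_lt n a, a, ha, rfl, hz⟩
          rw [h5] at h6
          obtain ⟨-, b, hb, hab, hbk⟩ := h6
          exact hswap k' b a hab hb ha hbk
      exact pm_ext (h2 k _ (hV k)).1 (h2 k' _ (hV k')).1 fun z =>
        ⟨key k k' h4 h5 z, key k' k h4.symm h5.symm z⟩
    have h4 : Finite (𝒫 E × 𝒫 (Set.Iio (2 ^ n)) : Type) := by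
      have h5 : Finite (𝒫 E) := hE.finite_subsets.to_subtype
      have h6 : Finite (𝒫 (Set.Iio (2 ^ n))) := (Set.finite_Iio _).finite_subsets.to_subtype
      infer_instance
    let φ : ℕ → (𝒫 E × 𝒫 (Set.Iio (2 ^ n)) : Type) := fun k =>
      (⟨{a | a ∈ E ∧ Mem (at' a) (V k)}, fun a ha => ha.1⟩,
        ⟨{i | i < 2 ^ n ∧ ∃ a, a ∉ E ∧ cx n a = i ∧ Mem (at' a) (V k)}, fun i hi => hi.1⟩)
    have hφ : Function.Injective φ := by
      intro k k' hk
      rw [Prod.ext_iff] at hk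
      have h5 := hkey k k' (congrArg Subtype.val hk.1) (congrArg Subtype.val hk.2)
      exact h3 k k' _ (hV k) (h5 ▸ hV k')
    exact not_injective_infinite_finite φ hφ

end Pool.Agent.Q211.ZP
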