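import Pool.Agent.Q211.ZP.Defs

/-!
# Topological and metric spaces in models of ZFA: definitions
-/

set_option autoImplicit false

namespace Pool.Agent.Q211.ZP

open Pool.Agent.Helper672.ZFA FirstOrder FirstOrder.Language

universe u

variable {M : Type u} [L.Structure M] [hM : IsModel M]

/-- The binary operation `f` is given by an element of the model. -/
def GOp {a b c : M} (f : El a → El b → El c) : Prop :=
  ∃ g : M, ∀ (x : El a) (y : El b) (z : El c), f x y = z ↔ Mem (op (op x.1 y.1) z.1) g

/-- `El r` is the field of the real numbers of the model: an ordered field, with operations and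
order in the model, in which all nonempty bounded subsets in the model have a supremum. -/
structure IsReals (r : M) [Field (El r)] [LinearOrder (El r)] [IsStrictOrderedRing (El r)] :
    Prop where
  add : GOp fun x y : El r => x + y
  mul : GOp fun x y : El r => x * y
  le : ∃ g : M, ∀ x y : El r, x ≤ y ↔ Mem (op x.1 y.1) g
  sup : ∀ s : M, (∃ a : El r, Mem a.1 s) → (∃ b : El r, ∀ a : El r, Mem a.1 s → a ≤ b) →
    ∃ b : El r, IsLUB {a : El r | Mem a.1 s} b

/-- `d` is a metric on `x` with values in `r`, and it is in the model. -/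
structure IsMetric {x r : M} [Field (El r)] [LinearOrder (El r)] (d : El x → El x → El r) :
    Prop where
  graph : GOp d
  zero : ∀ a b, d a b = 0 ↔ a = b
  symm : ∀ a b, d a b = d b a
  tri : ∀ a b c, d a c ≤ d a b + d b c

/-- `t` is the set of all open subsets of the metric space. -/
def Induces {x r : M} [Field (El r)] [LinearOrder (El r)] (t : M) (d : El x → El x → El r) :
    Prop :=
  ∀ u : M, Mem u t ↔ Sub u x ∧ ∀ a : El x, Mem a.1 u →
    ∃ e : El r, 0 < e ∧ ∀ b : El x, d a b < e → Mem b.1 u

/-- The space with the set `x` of points and the set `t` of open sets is metrizable. -/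
def IsMetrizable (t x : M) : Prop :=
  ∃ (r : M) (_ : Field (El r)) (_ : LinearOrder (El r)) (_ : IsStrictOrderedRing (El r)),
    IsReals r ∧ ∃ d : El x → El x → El r, IsMetric d ∧ Induces t d

/-- The space is compact. -/
def IsCompact' (t x : M) : Prop :=
  ∀ c : M, (∀ u, Mem u c → Mem u t) → (∀ z, Mem z x → ∃ u, Mem u c ∧ Mem z u) →
    ∃ c' : M, FinIn c' ∧ (∀ u, Mem u c' → Mem u c) ∧ ∀ z, Mem z x → ∃ u, Mem u c' ∧ Mem z u

/-- The set `D` is countable: there is an assignment of natural numbers to its elements that is
injective. -/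
def CountIn (D : M) : Prop := ∃ e : M,
  (∀ z, Mem z D → ∃! n : ℕ, Mem (op z (num n)) e) ∧
    ∀ z z' (n : ℕ), Mem z D → Mem z' D → Mem (op z (num n)) e → Mem (op z' (num n)) e → z = z'

/-- The space is separable: it has a countable dense subset. -/
def IsSeparable' (t x : M) : Prop :=
  ∃ D : M, Sub D x ∧ CountIn D ∧ ∀ u, Mem u t → (∃ z, Mem z u) → ∃ z, Mem z D ∧ Mem z u

end Pool.Agent.Q211.ZP
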