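import Pool.Agent.Q211.ZP.Fn
import Pool.Agent.Q211.ZP.TopD

/-!
# Real numbers and metric spaces in permutation models
-/

set_option autoImplicit false

namespace Pool.Agent.Q211.ZP

open Pool.Agent.Helper672.ZFA FirstOrder FirstOrder.Language

variable {A G : Type} [Group G] [MulAction G A] {N : Flt G}

theorem mem_smul_set {g : G} {x z : PM A N} : Mem z (g • x) ↔ Mem (g⁻¹ • z) x := by
  rw [← mem_smul (g := g) (x := g⁻¹ • z), smul_inv_smul]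

theorem mem_smul_fix {g : G} {x z : PM A N} (h : g • x = x) : Mem (g • z) x ↔ Mem z x := by
  conv_lhs => rw [← h]
  exact mem_smul

/-- The action of an element that fixes a set on the elements of the set. -/
def ac {x : PM A N} (g : G) (h : g • x = x) (z : El x) : El x := ⟨g • z.1, (mem_smul_fix h).2 z.2⟩

theorem ac_val {x : PM A N} (g : G) (h : g • x = x) (z : El x) : (ac g h z).1 = g • z.1 := rfl

theorem El.ext' {x : PM A N} {a b : El x} (h : a.1 = b.1) : a = b := Subtype.ext h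

theorem GOp.smul {a b c : PM A N} {f : El a → El b → El c} (hf : GOp f) :
    ∃ H ∈ N.F, ∀ g ∈ H, ∀ (ha : g • a = a) (hb : g • b = b) (hc : g • c = c) x y,
      f (ac g ha x) (ac g hb y) = ac g hc (f x y) := by
  obtain ⟨q, hq⟩ := hf
  obtain ⟨H, hH, h⟩ := pm_symm q
  refine ⟨H, hH, fun g hg ha hb hc x y => (hq _ _ _).2 ?_⟩
  rw [ac_val, ac_val, ac_val, ← smul_op, ← smul_op, mem_smul_fix (h g hg), ← hq]

section

variable {r : PM A N} [Field (El r)] [LinearOrder (El r)] [IsStrictOrderedRing (El r)]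
  (hR : IsReals r)

include hR

theorem reals_hom : ∃ H ∈ N.F, ∀ g ∈ H, ∃ h : g • r = r, ∃ φ : El r →+*o El r, ∀ x, φ x = ac g h x := by
  obtain ⟨H₁, hH₁, h1⟩ := hR.add.smul
  obtain ⟨H₂, hH₂, h2⟩ := hR.mul.smul
  obtain ⟨q, hq⟩ := hR.le
  obtain ⟨H₃, hH₃, h3⟩ := pm_symm₂ q r
  obtain ⟨H₄, hH₄, h4, h5⟩ := N.dir _ hH₁ _ hH₂
  obtain ⟨H₅, hH₅, h6, h7⟩ := N.dir _ hH₄ _ hH₃
  refine ⟨H₅, hH₅, fun g hg => ?_⟩
  have hr := (h3 g (h7 hg)).2
  have hadd := h1 g (h4 (h6 hg)) hr hr hr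
  have hmul := h2 g (h5 (h6 hg)) hr hr hr
  have h0 : ac g hr 0 = 0 := by
    have h8 := hadd 0 0
    rw [add_zero] at h8
    simpa using h8
  have hinj : ∀ x y, ac g hr x = ac g hr y → x = y := by
    intro x y hxy
    have h8 : g • x.1 = g • y.1 := congrArg Subtype.val hxy
    exact El.ext' (MulAction.injective g h8)
  have h1' : ac g hr 1 = 1 := by
    have h8 := hmul 1 1
    rw [mul_one] at h8
    have h9 : ac g hr 1 ≠ 0 := fun h10 => one_ne_zero (hinj 1 0 (h10.trans h0.symm))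
    exact mul_left_cancel₀ h9 (by rw [h8, mul_one])
  refine ⟨hr, ⟨⟨⟨⟨ac g hr, h1'⟩, fun x y => (hmul x y).symm⟩, h0, fun x y => (hadd x y).symm⟩,
    fun x y hxy => ?_⟩, fun x => rfl⟩
  change ac g hr x ≤ ac g hr y
  rw [hq, ac_val, ac_val, ← smul_op, mem_smul_fix (h3 g (h7 hg)).1, ← hq]
  exact hxy

theorem reals_arch : Archimedean (El r) := by
  rw [archimedean_iff_nat_lt]
  by_contra hc
  push Not at hc
  obtain ⟨b, hb⟩ := hc
  obtain ⟨H, hH, h⟩ := reals_hom hR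
  have := pm_small r
  have hs : _root_.Small.{0} {z : PM A N | ∃ n : ℕ, z = (n : El r).1} :=
    small_subset (s := {z | Mem z r}) fun z (hz : ∃ n : ℕ, z = (n : El r).1) => by
      obtain ⟨n, hn⟩ := hz
      have h1 := (n : El r).2
      rw [← hn] at h1
      exact h1
  obtain ⟨s, -, hs'⟩ := exists_set hs ⟨H, hH, fun g hg z hz => by
    obtain ⟨n, rfl⟩ := hz
    obtain ⟨hr, φ, hφ⟩ := h g hg
    refine ⟨n, ?_⟩
    have h1 := hφ n
    rw [map_natCast] at h1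
    exact (congrArg Subtype.val h1).symm⟩
  have hn : ∀ n : ℕ, Mem (n : El r).1 s := fun n => (hs' _).2 ⟨n, rfl⟩
  obtain ⟨c, hc⟩ := hR.sup s ⟨(0 : ℕ), hn 0⟩ ⟨b, fun a ha => by
    obtain ⟨n, h1⟩ := (hs' _).1 ha
    rw [El.ext' h1]
    exact hb n⟩
  have h1 : ∃ n : ℕ, c - 1 < n := by
    by_contra h2
    push Not at h2
    have h3 : c ≤ c - 1 := hc.2 fun a ha => by
      obtain ⟨n, h4⟩ := (hs' _).1 ha
      rw [El.ext' h4]
      exact h2 n
    linarith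
  obtain ⟨n, h2⟩ := h1
  have h3 : ((n + 1 : ℕ) : El r) ≤ c := hc.1 (hn (n + 1))
  push_cast at h3
  linarith

/-- The real numbers of the model are fixed. -/
theorem reals_fixed : ∃ H ∈ N.F, ∀ g ∈ H, g • r = r ∧ ∀ c : El r, g • c.1 = c.1 := by
  obtain ⟨H, hH, h⟩ := reals_hom hR
  have := reals_arch hR
  refine ⟨H, hH, fun g hg => ?_⟩
  obtain ⟨hr, φ, hφ⟩ := h g hg
  refine ⟨hr, fun c => ?_⟩
  have h1 : φ = OrderRingHom.id (El r) := Subsingleton.elim _ _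
  have h2 := hφ c
  rw [h1, OrderRingHom.id_apply] at h2
  rw [← ac_val g hr, ← h2]

/-- The metric is invariant. -/
theorem metric_inv {x : PM A N} {d : El x → El x → El r} (hd : GOp d) :
    ∃ H ∈ N.F, ∀ g ∈ H, (∀ c : El r, g • c.1 = c.1) ∧ ∃ h : g • x = x, ∀ a b,
      d (ac g h a) (ac g h b) = d a b := by
  obtain ⟨H₁, hH₁, h1⟩ := hd.smul
  obtain ⟨H₂, hH₂, h2⟩ := reals_fixed hR
  obtain ⟨H₃, hH₃, h3⟩ := pm_symm x
  obtain ⟨H₄, hH₄, h4, h5⟩ := N.dir _ hH₁ _ hH₂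
  obtain ⟨H₅, hH₅, h6, h7⟩ := N.dir _ hH₄ _ hH₃
  refine ⟨H₅, hH₅, fun g hg => ⟨(h2 g (h5 (h6 hg))).2, h3 g (h7 hg), fun a b => ?_⟩⟩
  rw [h1 g (h4 (h6 hg)) _ _ (h2 g (h5 (h6 hg))).1]
  exact El.ext' ((h2 g (h5 (h6 hg))).2 _)

/-- Open balls are open sets of the model. -/
theorem exists_ball {x t : PM A N} {d : El x → El x → El r} (hd : IsMetric d) (ht : Induces t d)
    (a : El x) (e : El r) : ∃ u, Mem u t ∧ ∀ z : El x, Mem z.1 u ↔ d a z < e := by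
  obtain ⟨H, hH, h⟩ := metric_inv hR hd.graph
  obtain ⟨K, hK, h1⟩ := pm_symm a.1
  obtain ⟨J, hJ, h2, h3⟩ := N.dir _ hH _ hK
  obtain ⟨u, hu, hu'⟩ := exists_sub x (P := fun w => ∃ hw : Mem w x, d a ⟨w, hw⟩ < e)
    ⟨J, hJ, fun g hg w hw hp => by
      obtain ⟨-, hx, h4⟩ := h g (h2 hg)
      refine ⟨(mem_smul_fix hx).2 hw, ?_⟩
      obtain ⟨hw', h5⟩ := hp
      rw [← h4] at h5
      have h6 : ac g hx a = a := El.ext' (h1 g (h3 hg))
      rw [h6] at h5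
      exact h5⟩
  have hu2 : ∀ z : El x, Mem z.1 u ↔ d a z < e := fun z => (hu' z.1).trans
    ⟨fun h4 => h4.2.2, fun h4 => ⟨z.2, z.2, h4⟩⟩
  refine ⟨u, (ht u).2 ⟨⟨hu, fun z hz => ((hu' z).1 hz).1⟩, fun b hb => ?_⟩, hu2⟩
  refine ⟨e - d a b, sub_pos.2 ((hu2 b).1 hb), fun c hc => (hu2 c).2 ?_⟩
  have h4 := hd.tri a b c
  linarith

/-- Compact metric spaces are totally bounded. -/
theorem exists_net {x t : PM A N} {d : El x → El x → El r} (hd : IsMetric d) (ht : Induces t d)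
    (hc : IsCompact' t x) {e : El r} (he : 0 < e) :
    ∃ F : Set (El x), F.Finite ∧ ∀ z, ∃ y ∈ F, d y z < e := by
  obtain ⟨H, hH, h⟩ := metric_inv hR hd.graph
  obtain ⟨c, -, hc'⟩ := exists_sub t (P := fun u => Sub u x ∧ ∃ a : El x, ∀ z : El x,
      Mem z.1 u ↔ d a z < e)
    ⟨H, hH, fun g hg u hu hp => by
      obtain ⟨-, hx, h4⟩ := h g hg
      obtain ⟨h5, a, ha⟩ := hp
      refine ⟨⟨isSet_smul.2 h5.1, fun w hw => ?_⟩, ac g hx a, fun z => ?_⟩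
      · rw [mem_smul_set] at hw
        have h6 := h5.2 _ hw
        rwa [← mem_smul_fix hx, smul_inv_smul] at h6
      · have hx' : g⁻¹ • x = x := by rw [inv_smul_eq_iff, hx]
        rw [mem_smul_set]
        have h6 := ha (ac g⁻¹ hx' z)
        rw [ac_val] at h6
        rw [h6, ← h4]
        have h7 : ac g hx (ac g⁻¹ hx' z) = z := El.ext' (smul_inv_smul g z.1)
        rw [h7]⟩
  obtain ⟨c', hf, h1, h2⟩ := hc c (fun u hu => ((hc' u).1 hu).1) fun z hz => by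
    obtain ⟨u, hu, hu'⟩ := exists_ball hR hd ht ⟨z, hz⟩ e
    refine ⟨u, (hc' u).2 ⟨hu, ((ht u).1 hu).1, ⟨z, hz⟩, hu'⟩, (hu' ⟨z, hz⟩).2 ?_⟩
    rw [(hd.zero _ _).2 rfl]
    exact he
  rw [finIn_iff] at hf
  have h3 : ∀ u, Mem u c' → ∃ a : El x, ∀ z : El x, Mem z.1 u ↔ d a z < e := fun u hu =>
    ((hc' u).1 (h1 u hu)).2.2
  choose f hf' using h3
  refine ⟨{a | ∃ u, ∃ hu : Mem u c', f u hu = a}, ?_, fun z => ?_⟩
  · have := hf.to_subtype
    refine (Set.finite_range fun u : {u | Mem u c'} => f u.1 u.2).subset ?_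
    rintro a ⟨u, hu, rfl⟩
    exact ⟨⟨u, hu⟩, rfl⟩
  · obtain ⟨u, hu, hzu⟩ := h2 z.1 z.2
    exact ⟨_, ⟨u, hu, rfl⟩, (hf' u hu z).1 hzu⟩

/-- A compact metric space all of whose points have a common support is separable. -/
theorem separable_of_fixed {x t : PM A N} {d : El x → El x → El r} (hd : IsMetric d)
    (ht : Induces t d) (hc : IsCompact' t x) {K : Subgroup G} (hK : K ∈ N.F)
    (hfix : ∀ g ∈ K, ∀ z, Mem z x → g • z = z) : IsSeparable' t x := by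
  classical
  have := reals_arch hR
  choose F hF hF' using fun n : ℕ => exists_net hR hd ht hc
    (show (0 : El r) < 1 / (n + 1) by positivity)
  have hcnt : (⋃ n, F n).Countable := Set.countable_iUnion fun n => (hF n).countable
  have := hcnt.to_subtype
  obtain ⟨enc, henc⟩ := exists_injective_nat (⋃ n, F n : Set (El x))
  have hsm := pm_small x
  have hs1 : _root_.Small.{0} {z : PM A N | ∃ h : Mem z x, (⟨z, h⟩ : El x) ∈ ⋃ n, F n} :=
    small_subset (s := {z | Mem z x}) fun z (hz : ∃ h : Mem z x, (⟨z, h⟩ : El x) ∈ ⋃ n, F n) =>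
      hz.1
  obtain ⟨D, hD, hD'⟩ := exists_set hs1 ⟨K, hK, fun g hg z hz => by
    rw [hfix g hg z hz.1]
    exact hz⟩
  have hs2 : _root_.Small.{0} (Set.range fun a : (⋃ n, F n : Set (El x)) =>
    (op a.1.1 (num (enc a)) : PM A N)) := small_range _
  obtain ⟨q, -, hq⟩ := exists_set hs2 ⟨K, hK, fun g hg z hz => by
    obtain ⟨a, rfl⟩ := hz
    refine ⟨a, ?_⟩
    change op a.1.1 (num (enc a)) = g • op a.1.1 (num (enc a))
    rw [smul_op, smul_num, hfix g hg _ a.1.2]⟩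
  have hq' : ∀ (a : El x) (n : ℕ), Mem (op a.1 (num n)) q ↔ ∃ h : a ∈ ⋃ n, F n,
      enc ⟨a, h⟩ = n := by
    intro a n
    rw [hq]
    constructor
    · rintro ⟨b, hb⟩
      obtain ⟨h1, h2⟩ := op_inj hb
      have h3 : b.1 = a := El.ext' h1
      subst h3
      exact ⟨b.2, num_injective h2⟩
    · rintro ⟨h1, h2⟩
      refine ⟨⟨a, h1⟩, ?_⟩
      change op a.1 (num (enc ⟨a, h1⟩)) = _
      rw [h2]
  refine ⟨D, ⟨hD, fun z hz => ((hD' z).1 hz).1⟩, ⟨q, fun z hz => ?_, fun z z' n hz hz' h1 h2 => ?_⟩,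
    fun u hu hz => ?_⟩
  · obtain ⟨h1, h2⟩ := (hD' z).1 hz
    refine ⟨enc ⟨⟨z, h1⟩, h2⟩, (hq' ⟨z, h1⟩ _).2 ⟨h2, rfl⟩, fun n hn => ?_⟩
    obtain ⟨h3, h4⟩ := (hq' ⟨z, h1⟩ n).1 hn
    exact h4.symm
  · obtain ⟨h3, -⟩ := (hD' z).1 hz
    obtain ⟨h4, -⟩ := (hD' z').1 hz'
    obtain ⟨h5, h6⟩ := (hq' ⟨z, h3⟩ n).1 h1
    obtain ⟨h7, h8⟩ := (hq' ⟨z', h4⟩ n).1 h2
    have h9 := henc (h6.trans h8.symm)
    exact congrArg (fun a : (⋃ n, F n : Set (El x)) => a.1.1) h9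
  · obtain ⟨z, hz⟩ := hz
    obtain ⟨h1, h2⟩ := (ht u).1 hu
    have hzx := h1.2 z hz
    obtain ⟨e, he, h3⟩ := h2 ⟨z, hzx⟩ hz
    obtain ⟨n, hn⟩ := exists_nat_one_div_lt he
    obtain ⟨y, hy, h4⟩ := hF' n ⟨z, hzx⟩
    refine ⟨y.1, (hD' _).2 ⟨y.2, Set.mem_iUnion.2 ⟨n, hy⟩⟩, h3 y ?_⟩
    rw [hd.symm]
    exact h4.trans hn

end

end Pool.Agent.Q211.ZP
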