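import Pool.Agent.Q211.ZP.McD
import Pool.Agent.Q211.ZP.Re
import Pool.Agent.Q211.ZP.Cn

/-!
# Compact metrizable spaces in the permutation model of the Cantor cubes
-/

set_option autoImplicit false

namespace Pool.Agent.Q211.ZP

open Pool.Agent.Helper672.ZFA FirstOrder FirstOrder.Language

attribute [local instance] Classical.propDecidable

/-- The permutation of the atoms given by homeomorphisms of the copies with index outside `S`. -/
noncomputable def toG (S : Set ℕ) (h : {n // n ∉ S} → Hm) : Gc :=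
  ⟨⟨fun a => if ha : a.1 ∉ S then (a.1, (h ⟨a.1, ha⟩).1 a.2) else a,
    fun a => if ha : a.1 ∉ S then (a.1, (h ⟨a.1, ha⟩).1.symm a.2) else a,
    fun a => by
      by_cases ha : a.1 ∉ S
      · simp [ha]
      · simp [ha],
    fun a => by
      by_cases ha : a.1 ∉ S
      · simp [ha]
      · simp [ha]⟩, fun n => by
    by_cases hn : n ∉ S
    · refine ⟨⟨(h ⟨n, hn⟩).1, (h ⟨n, hn⟩).2.1.continuous, (h ⟨n, hn⟩).2.2.continuous⟩,
        fun f => ?_⟩
      simp [hn]
    · refine ⟨Homeomorph.refl _, fun f => ?_⟩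
      simp [hn]⟩

theorem toG_apply (S : Set ℕ) (h : {n // n ∉ S} → Hm) (a : Ac) (ha : a.1 ∉ S) :
    toG S h • a = (a.1, (h ⟨a.1, ha⟩).1 a.2) := by
  change (if ha : a.1 ∉ S then (a.1, (h ⟨a.1, ha⟩).1 a.2) else a) = _
  rw [dif_pos ha]

theorem toG_apply' (S : Set ℕ) (h : {n // n ∉ S} → Hm) (a : Ac) (ha : a.1 ∈ S) :
    toG S h • a = a := by
  change (if ha : a.1 ∉ S then (a.1, (h ⟨a.1, ha⟩).1 a.2) else a) = _
  rw [dif_neg (not_not.2 ha)]

theorem toG_mul (S : Set ℕ) (h k : {n // n ∉ S} → Hm) : toG S (h * k) = toG S h * toG S k := by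
  refine Subtype.ext (Equiv.ext fun a => ?_)
  change toG S (h * k) • a = toG S h • toG S k • a
  by_cases ha : a.1 ∉ S
  · rw [toG_apply S k a ha, toG_apply S (h * k) a ha]
    exact (toG_apply S h (a.1, (k ⟨a.1, ha⟩).1 a.2) ha).symm
  · rw [toG_apply' S k a (not_not.1 ha), toG_apply' S (h * k) a (not_not.1 ha),
      toG_apply' S h a (not_not.1 ha)]

theorem toG_one (S : Set ℕ) : toG S 1 = 1 := by
  have h := toG_mul S 1 1
  rw [mul_one] at h
  exact (mul_eq_left.1 h.symm)

theorem toG_inv (S : Set ℕ) (h : {n // n ∉ S} → Hm) : toG S h⁻¹ = (toG S h)⁻¹ := by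
  rw [eq_inv_iff_mul_eq_one, ← toG_mul, inv_mul_cancel, toG_one]

theorem toG_mem {S : Set ℕ} {E : Set Ac} (hE : ∀ a ∈ E, a.1 ∈ S) (h : {n // n ∉ S} → Hm) :
    toG S h ∈ fixingSubgroup Gc E := by
  rw [mem_fixingSubgroup_iff]
  intro a ha
  exact toG_apply' S h a (hE a ha)

theorem exists_toG {S : Set ℕ} {g : Gc} (hg : g ∈ fixingSubgroup Gc {a : Ac | a.1 ∈ S}) :
    ∃ h, toG S h = g := by
  rw [mem_fixingSubgroup_iff] at hg
  choose k hk using g.2
  refine ⟨fun n => ⟨(k n.1).toEquiv, UC.of_continuous (k n.1).continuous,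
    UC.of_continuous (k n.1).symm.continuous⟩, Subtype.ext (Equiv.ext fun a => ?_)⟩
  change toG S _ • a = g • a
  by_cases ha : a.1 ∉ S
  · rw [toG_apply S _ a ha]
    exact (hk a.1 a.2).symm
  · rw [toG_apply' S _ a (not_not.1 ha), hg a (not_not.1 ha)]

theorem separable_pc {x t : Pc} (hm : IsMetrizable t x) (hc : IsCompact' t x) :
    IsSeparable' t x := by
  obtain ⟨r, _, _, _, hR, d, hd, ht⟩ := hm
  obtain ⟨_, ⟨E, ⟨S, hS, hE⟩, rfl⟩, h⟩ := metric_inv hR hd.graph
  have hx : ∀ k : {n // n ∉ S} → Hm, toG S k • x = x := fun k =>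
    (h _ (toG_mem hE k)).2.choose
  let a : ({n // n ∉ S} → Hm) → El x → El x := fun k => ac (toG S k) (hx k)
  have hinv : ∀ k y z, d (a k y) (a k z) = d y z := fun k y z =>
    (h _ (toG_mem hE k)).2.choose_spec y z
  have hmul : ∀ k l z, a (k * l) z = a k (a l z) := by
    intro k l z
    refine El.ext' ?_
    change toG S (k * l) • z.1 = toG S k • toG S l • z.1
    rw [toG_mul, mul_smul]
  have hone : ∀ z, a 1 z = z := by
    intro z
    refine El.ext' ?_
    change toG S 1 • z.1 = z.1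
    rw [toG_one, one_smul]
  have hN : TNorm (I := {n // n ∉ S}) (R := El r) fun e k => ∀ z, d (a k z) z ≤ e := by
    refine ⟨fun e e' k l h1 h2 z => ?_, fun e k h1 z => ?_, fun e k l h1 z => ?_,
      fun e he s => ?_⟩
    · rw [hmul]
      exact (hd.tri _ (a l z) _).trans (add_le_add (h1 _) (h2 _))
    · rw [← hinv k, ← hmul, mul_inv_cancel, hone, hd.symm]
      exact h1 z
    · have h2 : d (a (l * k * l⁻¹) z) z = d (a k (a l⁻¹ z)) (a l⁻¹ z) := by
        rw [← hinv l⁻¹ (a (l * k * l⁻¹) z) z, ← hmul, ← hmul]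
        congr 2
        group
      rw [h2]
      exact h1 _
    · obtain ⟨F, hF, hF'⟩ := exists_net hR hd ht hc (show 0 < e / 4 by positivity)
      have := hF.to_subtype
      choose f hf hf' using hF'
      obtain ⟨i, j, hij, h1⟩ := Finite.exists_ne_map_eq_of_infinite
        (fun (i : ℕ) (y : F) => (⟨f (a (s i) y.1), hf _⟩ : F))
      have key : ∀ i j : ℕ, (fun y : F => (⟨f (a (s i) y.1), hf _⟩ : F)) =
          (fun y : F => (⟨f (a (s j) y.1), hf _⟩ : F)) → ∀ z, d (a ((s i)⁻¹ * s j) z) z ≤ e := by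
        intro i j h1 z
        have h2 : d (a ((s i)⁻¹ * s j) z) z = d (a (s j) z) (a (s i) z) := by
          rw [← hinv (s i), ← hmul, mul_inv_cancel_left]
        have h3 : f (a (s i) (f z)) = f (a (s j) (f z)) :=
          congrArg Subtype.val (congrFun h1 ⟨f z, hf z⟩)
        have h4 := hf' z
        have h5 := hf' (a (s i) (f z))
        have h6 := hf' (a (s j) (f z))
        rw [h3] at h5
        have h7 : d (a (s j) z) (a (s i) z) ≤ d (a (s j) z) (a (s j) (f z)) +
            (d (a (s j) (f z)) (f (a (s j) (f z))) + (d (f (a (s j) (f z))) (a (s i) (f z)) +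
              d (a (s i) (f z)) (a (s i) z))) :=
          (hd.tri _ _ _).trans (add_le_add le_rfl ((hd.tri _ _ _).trans
            (add_le_add le_rfl (hd.tri _ _ _))))
        rw [hinv, hinv, hd.symm z, hd.symm (a (s j) (f z))] at h7
        rw [h2]
        linarith
      rcases lt_or_gt_of_ne hij with h2 | h2
      · exact ⟨i, j, h2, key i j h1⟩
      · exact ⟨j, i, h2, key j i h1.symm⟩
  have hfix : ∀ k z, a k z = z := by
    intro k z
    rw [← hd.zero]
    refine le_antisymm (le_of_forall_pos_le_add fun e he => ?_) ?_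
    · rw [zero_add]
      exact norm_trivial hN k e he z
    · have h1 := hd.tri z (a k z) z
      rw [(hd.zero z z).2 rfl, hd.symm z] at h1
      linarith
  refine separable_of_fixed hR hd ht hc (K := fixingSubgroup Gc {a : Ac | a.1 ∈ S})
    ⟨_, ⟨S, hS, fun a ha => ha⟩, rfl⟩ fun g hg z hz => ?_
  obtain ⟨k, rfl⟩ := exists_toG hg
  exact congrArg Subtype.val (hfix k ⟨z, hz⟩)

end Pool.Agent.Q211.ZP
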