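import Pool.Agent.Q211.ZP.M

/-!
# The permutation model of the Cantor cubes

The atoms are the pairs `(n, f)` of a natural number `n` and a point `f` of the Cantor cube. The
group consists of the permutations whose restriction to each copy of the Cantor cube is an
autohomeomorphism, and the supports are the sets of atoms contained in finitely many copies.
-/

set_option autoImplicit false

namespace Pool.Agent.Q211.ZP

/-- The atoms. -/
abbrev Ac : Type := ℕ × (ℕ → Bool)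

/-- The group. -/
def Gc : Subgroup (Equiv.Perm Ac) where
  carrier := {φ | ∀ n, ∃ h : (ℕ → Bool) ≃ₜ (ℕ → Bool), ∀ f, φ (n, f) = (n, h f)}
  one_mem' := fun n => ⟨Homeomorph.refl _, fun f => rfl⟩
  mul_mem' {φ ψ} hφ hψ := fun n => by
    obtain ⟨h, hh⟩ := hφ n
    obtain ⟨k, hk⟩ := hψ n
    refine ⟨k.trans h, fun f => ?_⟩
    rw [Equiv.Perm.mul_apply, hk, hh]
    rfl
  inv_mem' {φ} hφ := fun n => by
    obtain ⟨h, hh⟩ := hφ n
    refine ⟨h.symm, fun f => ?_⟩
    rw [Equiv.Perm.inv_eq_iff_eq, hh, Homeomorph.apply_symm_apply]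

theorem gc_fst (g : Gc) (a : Ac) : (g • a).1 = a.1 := by
  obtain ⟨n, f⟩ := a
  obtain ⟨h, hh⟩ := g.2 n
  change (g.1 (n, f)).1 = n
  rw [hh]

/-- The supports: sets of atoms contained in the union of finitely many copies. -/
def Supp (E : Set Ac) : Prop := ∃ S : Set ℕ, S.Finite ∧ ∀ a ∈ E, a.1 ∈ S

/-- The filter of the pointwise stabilizers of the supports. -/
def Nc : Flt Gc where
  F := {H | ∃ E, Supp E ∧ H = fixingSubgroup Gc E}
  ne := ⟨_, ∅, ⟨∅, Set.finite_empty, fun a ha => ha.elim⟩, rfl⟩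
  dir := by
    rintro _ ⟨E, ⟨S, hS, hE⟩, rfl⟩ _ ⟨E', ⟨S', hS', hE'⟩, rfl⟩
    refine ⟨_, ⟨E ∪ E', ⟨S ∪ S', hS.union hS', fun a ha => ?_⟩, rfl⟩,
      fixingSubgroup_antitone _ _ Set.subset_union_left,
      fixingSubgroup_antitone _ _ Set.subset_union_right⟩
    exact ha.imp (hE a) (hE' a)
  conj := by
    rintro _ ⟨E, ⟨S, hS, hE⟩, rfl⟩ g
    refine ⟨_, ⟨{a | g⁻¹ • a ∈ E}, ⟨S, hS, fun a ha => ?_⟩, rfl⟩, fun k hk => ?_⟩
    · rw [← gc_fst g⁻¹ a]
      exact hE _ ha
    · rw [mem_fixingSubgroup_iff] at hk ⊢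
      intro a ha
      have h1 : g⁻¹ • g • a ∈ E := by rwa [inv_smul_smul]
      rw [mul_smul, mul_smul, hk (g • a) h1, inv_smul_smul]

/-- The permutation model. -/
abbrev Pc : Type 1 := PM Ac Nc

end Pool.Agent.Q211.ZP
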