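import Pool.Agent.Q211.ZP.Defs

/-!
# Strongly and dyadically filterbase infinite sets in models of ZFA
-/

set_option autoImplicit false

namespace Pool.Agent.Q211.ZP

open Pool.Agent.Helper672.ZFA FirstOrder FirstOrder.Language

universe u

variable {M : Type u} [L.Structure M] [hM : IsModel M]

/-- `V` is a member of the family with the index `i`, where the sequence of families is given by
the element `f` of the model (a set of pairs `(i, V)`). -/
def SFam (f : M) (i : ℕ) (V : M) : Prop := Mem (op (num i) V) f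

/-- `V` is a member of the family with the index `(n, i)`, where the sequence of families is
given by the element `f` of the model (a set of pairs `((n, i), V)`). -/
def DFam (f : M) (n i : ℕ) (V : M) : Prop := Mem (op (op (num n) (num i)) V) f

/-- `P` is a nonempty family of infinite subsets of `x` that is closed under finite unions and
finite intersections, and any two of its members are equal modulo finite sets. -/
def FB (x : M) (P : M → Prop) : Prop :=
  (∃ V, P V) ∧ (∀ V, P V → Sub V x ∧ ¬ FinIn V) ∧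
    ∀ U V, P U → P V →
      (∃ W, P W ∧ ∀ z, Mem z W ↔ Mem z U ∨ Mem z V) ∧
      (∃ W, P W ∧ ∀ z, Mem z W ↔ Mem z U ∧ Mem z V) ∧
      FinOf (fun z : M => Mem z U ∧ ¬ Mem z V)

/-- `x` is strongly filterbase infinite. -/
def StronglyFB (x : M) : Prop := ∃ f : M, (∀ i : ℕ, FB x (SFam f i)) ∧
  (∀ i j : ℕ, i ≠ j → ∃ V W, SFam f i V ∧ SFam f j W ∧ FinOf (fun z : M => Mem z V ∧ Mem z W)) ∧
  ∀ (n : ℕ) (v : ℕ → M), (∀ i < n, SFam f i (v i)) →
    ¬ FinOf (fun z : M => Mem z x ∧ ∀ i < n, ¬ Mem z (v i))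

/-- `x` is dyadically filterbase infinite. -/
def DyadicallyFB (x : M) : Prop := ∃ f : M, ∀ n : ℕ, 1 ≤ n →
  (∀ i, 1 ≤ i → i ≤ 2 ^ n → FB x (DFam f n i)) ∧
  (∀ i j, 1 ≤ i → i ≤ 2 ^ n → 1 ≤ j → j ≤ 2 ^ n → i ≠ j → ∀ W G', DFam f n i W → DFam f n j G' →
    ∃ U V, DFam f (n + 1) (2 * i - 1) U ∧ DFam f (n + 1) (2 * i) V ∧
      FinOf (fun z : M => (Mem z U ∨ Mem z V) ∧ ¬ Mem z W) ∧
      FinOf (fun z : M => (Mem z U ∨ Mem z V) ∧ Mem z G')) ∧
  ∀ v : ℕ → M, (∀ i, 1 ≤ i → i ≤ 2 ^ n → DFam f n i (v i)) →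
    FinOf (fun z : M => Mem z x ∧ ∀ i, 1 ≤ i → i ≤ 2 ^ n → ¬ Mem z (v i))

end Pool.Agent.Q211.ZP
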