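import Pool.Agent.Q211.ZP.Fn
import Pool.Agent.Q211.ZP.SfD

/-!
# Strongly filterbase infinite sets in permutation models
-/

set_option autoImplicit false

namespace Pool.Agent.Q211.ZP

open Pool.Agent.Helper672.ZFA FirstOrder FirstOrder.Language

variable {A G : Type} [Group G] [MulAction G A] {N : Flt G}

/-- The set of the subsets of `x` with a symmetric property, indexed by natural numbers. -/
theorem exists_sfam (x : PM A N) {P : ℕ → PM A N → Prop}
    (h : ∃ H ∈ N.F, ∀ g ∈ H, ∀ i z, P i z → P i (g • z)) (hP : ∀ i z, P i z → Sub z x) :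
    ∃ f : PM A N, ∀ i z, Mem (op (num i) z) f ↔ P i z := by
  obtain ⟨H, hH, h1⟩ := h
  obtain ⟨p, hp⟩ := (inferInstance : IsModel (PM A N)).power x
  have := pm_small p
  have hs : _root_.Small.{0} (⋃ t : ℕ, (fun z : PM A N => op (num t) z) ''
      {z | Mem z p}) := small_iUnion _
  have hs' : _root_.Small.{0} {q : PM A N | ∃ i z, P i z ∧ q = op (num i) z} := by
    refine small_subset (s := ⋃ t : ℕ, (fun z : PM A N => op (num t) z) ''
      {z | Mem z p}) ?_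
    rintro q ⟨i, z, hz, rfl⟩
    exact Set.mem_iUnion.2 ⟨i, z, (hp.2 z).2 (hP i z hz), rfl⟩
  obtain ⟨f, -, hf⟩ := exists_set hs'
    ⟨H, hH, fun g hg q hq => by
      obtain ⟨i, z, hz, rfl⟩ := hq
      refine ⟨i, g • z, h1 g hg i z hz, ?_⟩
      rw [smul_op, smul_num]⟩
  refine ⟨f, fun i z => (hf _).trans ?_⟩
  constructor
  · rintro ⟨i', z', hz, h2⟩
    obtain ⟨h3, h4⟩ := op_inj h2
    rw [num_injective h3, h4]
    exact hz
  · intro hz
    exact ⟨i, z, hz, rfl⟩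

/-- A sequence of pairwise disjoint infinite subsets whose classes modulo finite sets are
symmetric. -/
theorem sfb_of {x : PM A N} (D : ℕ → PM A N) (hsub : ∀ k, Sub (D k) x)
    (hinf : ∀ k, {z | Mem z (D k)}.Infinite) (hdis : ∀ j k z, Mem z (D j) → Mem z (D k) → j = k)
    (hsym : ∃ H ∈ N.F, ∀ g ∈ H, ∀ k, Eqf (g • D k) (D k)) : StronglyFB x := by
  obtain ⟨H, hH, hs⟩ := hsym
  obtain ⟨K, hK, hx⟩ := pm_symm x
  obtain ⟨J, hJ, h3, h4⟩ := N.dir H hH K hK
  obtain ⟨f, hf⟩ := exists_sfam x (P := fun i z => Sub z x ∧ Eqf z (D i))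
    ⟨J, hJ, fun g hg i z hz => by
      refine ⟨⟨isSet_smul.2 hz.1.1, fun w hw => ?_⟩, (hz.2.smul g).trans (hs g (h3 hg) _)⟩
      rw [← smul_inv_smul g w] at hw ⊢
      exact mem_smul' (hx g (h4 hg)) (hz.1.2 _ (mem_smul.1 hw))⟩ fun i z hz => hz.1
  have hfm : ∀ i z, SFam f i z ↔ Sub z x ∧ Eqf z (D i) := hf
  have hD : ∀ i, SFam f i (D i) := fun i => (hfm _ _).2 ⟨hsub _, Eqf.refl _⟩
  refine ⟨f, fun i => ⟨⟨_, hD i⟩, fun V hV => ?_, fun U V hU hV => ?_⟩, fun i j hij =>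
    ⟨D i, D j, hD i, hD j, ?_⟩, fun n v hv h => ?_⟩
  · rw [hfm] at hV
    refine ⟨hV.1, fun hfin => ?_⟩
    rw [finIn_iff] at hfin
    exact hV.2.symm.inf (hinf i) hfin
  · rw [hfm] at hU hV
    have h5 := hU.2.trans hV.2.symm
    refine ⟨?_, ?_, ?_⟩
    · obtain ⟨W, hW, h6⟩ := exists_sub x (P := fun z => Mem z U ∨ Mem z V) (by
        obtain ⟨H, hH, h1⟩ := pm_symm₂ U V
        refine ⟨H, hH, fun g hg z _ hz => ?_⟩
        rcases hz with hz | hz
        · exact Or.inl (mem_smul' (h1 g hg).1 hz)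
        · exact Or.inr (mem_smul' (h1 g hg).2 hz))
      have h7 : ∀ z, Mem z W ↔ Mem z U ∨ Mem z V := fun z => (h6 z).trans
        ⟨fun h => h.2, fun h => ⟨h.elim (hU.1.2 z) (hV.1.2 z), h⟩⟩
      refine ⟨W, (hfm _ _).2 ⟨⟨hW, fun z hz => ((h6 z).1 hz).1⟩, ?_⟩, h7⟩
      refine Eqf.trans ?_ hU.2
      refine h5.subset fun z hz h8 => hz ?_
      rw [h7]
      tauto
    · obtain ⟨W, hW, h6⟩ := exists_sub x (P := fun z => Mem z U ∧ Mem z V) (by
        obtain ⟨H, hH, h1⟩ := pm_symm₂ U V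
        refine ⟨H, hH, fun g hg z _ hz => ?_⟩
        exact ⟨mem_smul' (h1 g hg).1 hz.1, mem_smul' (h1 g hg).2 hz.2⟩)
      have h7 : ∀ z, Mem z W ↔ Mem z U ∧ Mem z V := fun z => (h6 z).trans
        ⟨fun h => h.2, fun h => ⟨hU.1.2 z h.1, h⟩⟩
      refine ⟨W, (hfm _ _).2 ⟨⟨hW, fun z hz => ((h6 z).1 hz).1⟩, ?_⟩, h7⟩
      refine Eqf.trans ?_ hU.2
      refine h5.subset fun z hz h8 => hz ?_
      rw [h7]
      tauto
    · rw [finOf_iff]
      refine h5.subset fun z hz h8 => hz.2 (h8.1 hz.1)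
  · rw [finOf_iff]
    refine Set.finite_empty.subset fun z hz => ?_
    exact hij (hdis i j z hz.1 hz.2)
  · rw [finOf_iff] at h
    have h5 : (⋃ i ∈ Set.Iio n, {z | ¬ (i < n → (Mem z (v i) ↔ Mem z (D i)))}).Finite := by
      refine Set.Finite.biUnion (Set.finite_Iio _) fun i hi => ?_
      refine ((hfm _ _).1 (hv i hi)).2.subset fun z hz h7 => hz fun _ => h7
    refine hinf n ((h.union h5).subset fun z hz => ?_)
    by_contra h6
    rw [Set.mem_union, not_or] at h6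
    refine h6.1 ⟨(hsub n).2 z hz, fun i hi h7 => ?_⟩
    refine h6.2 (Set.mem_biUnion hi fun h8 => ?_)
    have h9 := hdis i n z ((h8 hi).1 h7) hz
    omega

/-- Sets with infinitely many orbits. -/
theorem sfb_of_orb {x : PM A N} {H : Subgroup G} (hH : H ∈ N.F) (hHx : ∀ g ∈ H, g • x = x)
    (y : ℕ → PM A N) (hy : ∀ n, Mem (y n) x) (hne : ∀ m n, ∀ g ∈ H, g • y m = y n → m = n) :
    StronglyFB x := by
  choose D hD hD' using fun k => exists_sub x (P := fun z => ∃ g ∈ H, ∃ n,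
    (Nat.unpair n).1 = k ∧ z = g • y n) ⟨H, hH, fun h hh z _ hz => by
      obtain ⟨g, hg, n, hn, rfl⟩ := hz
      exact ⟨h * g, H.mul_mem hh hg, n, hn, (mul_smul h g _).symm⟩⟩
  refine sfb_of D (fun k => ⟨hD k, fun z hz => ((hD' k z).1 hz).1⟩) (fun k => ?_)
    (fun j k z hj hk => ?_) ⟨H, hH, fun g hg k => ?_⟩
  · refine Set.infinite_of_injective_forall_mem (f := fun m => y (Nat.pair k m)) ?_ ?_
    · intro m n hmn
      have h1 := hne _ _ 1 H.one_mem ((one_smul G _).trans hmn)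
      exact (Nat.pair_eq_pair.1 h1).2
    · intro m
      refine (hD' k _).2 ⟨hy _, 1, H.one_mem, _, ?_, (one_smul G _).symm⟩
      rw [Nat.unpair_pair]
  · obtain ⟨-, g, hg, n, hn, h1⟩ := (hD' j z).1 hj
    obtain ⟨-, g', hg', n', hn', h2⟩ := (hD' k z).1 hk
    have h3 : (g'⁻¹ * g) • y n = y n' := by
      rw [mul_smul, ← h1, h2, inv_smul_smul]
    have h4 := hne n n' _ (H.mul_mem (H.inv_mem hg') hg) h3
    rw [← hn, ← hn', h4]
  · have h1 : g • D k = D k := by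
      refine pm_ext (isSet_smul.2 (hD k)) (hD k) fun z => ?_
      have h2 : Mem z (g • D k) ↔ Mem (g⁻¹ • z) (D k) := by
        rw [← mem_smul (g := g) (x := g⁻¹ • z), smul_inv_smul]
      have h3 : Mem (g⁻¹ • z) x ↔ Mem z x := by
        rw [← mem_smul (g := g) (x := g⁻¹ • z), smul_inv_smul, hHx g hg]
      rw [h2, hD', hD', h3]
      refine and_congr Iff.rfl ?_
      constructor
      · rintro ⟨g', hg', n, hn, h4⟩
        refine ⟨g * g', H.mul_mem hg hg', n, hn, ?_⟩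
        rw [mul_smul, ← h4, smul_inv_smul]
      · rintro ⟨g', hg', n, hn, h4⟩
        refine ⟨g⁻¹ * g', H.mul_mem (H.inv_mem hg) hg', n, hn, ?_⟩
        rw [mul_smul, ← h4]
    rw [h1]
    exact Eqf.refl _

end Pool.Agent.Q211.ZP
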