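import Pool.Agent.Q211.ZP.Tg
import Pool.Agent.Q211.ZP.Sf

/-!
# The tree model: all infinite sets are strongly filterbase infinite
-/

set_option autoImplicit false

namespace Pool.Agent.Q211.ZP

open Pool.Agent.Helper672.ZFA FirstOrder FirstOrder.Language

/-- The model. -/
abbrev Pt : Type 1 := PM (List ℕ) Nt

theorem pt_symm (x : Pt) : ∃ S, Good S ∧ ∀ g ∈ Gs S, g • x = x := by
  obtain ⟨_, ⟨S, hS, rfl⟩, h⟩ := pm_symm x
  exact ⟨S, hS, h⟩

theorem pt_symm' (x : Pt) {T : Set (List ℕ)} (hT : T.Finite) :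
    ∃ S, Good S ∧ T ⊆ S ∧ ∀ g ∈ Gs S, g • x = x := by
  obtain ⟨S, hS, h⟩ := pt_symm x
  obtain ⟨U, hU, h1⟩ := exists_good hT
  exact ⟨S ∪ U, hS.union hU, h1.trans Set.subset_union_right,
    fun g hg => h g (Gs_mono Set.subset_union_left hg)⟩

/-- An element is moved by a transposition. -/
theorem sfb_tr {x : Pt} {S : Set (List ℕ)} (hS : Good S) (hx : ∀ g ∈ Gs S, g • x = x)
    {z : Pt} (hz : Mem z x) {a b : List ℕ} (ha : a ∉ S) (hb : b ∉ S)
    (hab : ∀ u ∈ S, u <+: a ↔ u <+: b) (hne : tr a b • z ≠ z) : StronglyFB x := by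
  classical
  obtain ⟨T, hT, hST, hzT⟩ := pt_symm' z hS.1
  -- we may assume that `b` is not in the support of `z`
  obtain ⟨a, b, ha, hb, hab, hsw⟩ : ∃ a b, a ∉ S ∧ b ∉ T ∧ (∀ u ∈ S, u <+: a ↔ u <+: b) ∧
      tr a b • z ≠ z := by
    by_contra hc
    push Not at hc
    refine hne ?_
    obtain ⟨w, hw, hwa, hwl⟩ := hS.longest a
    obtain ⟨m, hm⟩ := (hS.union (exists_good (hT.1.union
      (Set.toFinite {a, b}))).choose_spec.1).child w
    obtain ⟨hU, hU'⟩ := (exists_good (hT.1.union (Set.toFinite {a, b}))).choose_spec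
    have hm1 := hm m le_rfl
    rw [Set.mem_union, not_or] at hm1
    have hcT : w ++ [m] ∉ T := fun h => hm1.2 (hU' (Or.inl h))
    have hca : w ++ [m] ≠ a := fun h => hm1.2 (hU' (Or.inr (Or.inl h)))
    have hcb : w ++ [m] ≠ b := fun h => hm1.2 (hU' (Or.inr (Or.inr h)))
    have hcell : ∀ u ∈ S, u <+: a ↔ u <+: w ++ [m] := by
      intro u hu
      rw [hS.cell hm1.1 (List.prefix_refl _) hu]
      exact ⟨hwl u hu, fun h => h.trans hwa⟩
    by_cases hab' : a = b
    · rw [hab', tr_self]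
      exact one_smul _ z
    have h5 : tr a b = tr a (w ++ [m]) * tr b (w ++ [m]) * tr a (w ++ [m]) := by
      have h6 := conj_tr (tr a (w ++ [m])) b (w ++ [m])
      rw [tr_inv, tr_right, tr_other (fun h => hab' h.symm) (fun h => hcb h.symm)] at h6
      rw [h6, tr_comm]
    have h6 : tr a (w ++ [m]) • z = z := hc a _ ha hcT hcell
    have h7 : tr b (w ++ [m]) • z = z := hc b _ hb hcT fun u hu => (hab u hu).symm.trans
      (hcell u hu)
    rw [h5, mul_smul, mul_smul, h6, h7, h6]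
  have hab' : a ≠ b := by
    rintro rfl
    rw [tr_self, one_smul] at hsw
    exact hsw rfl
  have hm' : ∀ c d, c ∉ T → d ∉ T → (∀ u ∈ T, u <+: c ↔ u <+: d) → tr c d • z = z :=
    fun c d h1 h2 h3 => hzT _ (tr_mem_Gs h1 h2 h3)
  let B : List ℕ → Prop := fun c => c ∉ T ∧ c ≠ a ∧ ∀ u ∈ T, u <+: c ↔ u <+: b
  let F : List ℕ → Pt := fun c => tr a c • z
  have hFx : ∀ c, B c → Mem (F c) x := fun c hc => mem_smul'
    (hx _ (tr_mem_Gs ha (fun h => hc.1 (hST h)) fun u hu =>
      (hab u hu).trans (hc.2.2 u (hST hu)).symm)) hz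
  have hFne : ∀ c, B c → F c ≠ z := by
    intro c hc h1
    by_cases hbc : c = b
    · rw [hbc] at h1
      exact hsw h1
    · have h2 := conj_tr (tr b c) a b
      rw [tr_inv, tr_left, tr_other hab' (fun h => hc.2.1 h.symm)] at h2
      have h3 : tr b c • z = z := hm' b c hb hc.1 fun u hu => (hc.2.2 u hu).symm
      have h4 : tr a c • z = z := h1
      rw [← h2, mul_smul, mul_smul, h3, smul_eq_iff_eq_inv_smul, tr_inv, h3] at h4
      exact hsw h4
  have hFinj : ∀ c d, B c → B d → F c = F d → c = d := by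
    intro c d hc hd h1
    by_contra hcd
    have h2 := conj_tr (tr c d) a c
    rw [tr_inv, tr_left, tr_other (fun h => hc.2.1 h.symm) (fun h => hd.2.1 h.symm)] at h2
    have h3 : tr c d • z = z := hm' c d hc.1 hd.1 fun u hu =>
      (hc.2.2 u hu).trans (hd.2.2 u hu).symm
    have h4 : F d = tr c d • F c := by
      change tr a d • z = tr c d • tr a c • z
      rw [← h2, mul_smul, mul_smul, h3]
    have h5 := conj_tr (tr a c) c d
    rw [tr_inv, tr_right, tr_other (fun h => hd.2.1 h) (fun h => hcd h.symm)] at h5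
    have h6 : F d = tr a c • tr c d • F c := by
      change tr a d • z = tr a c • tr c d • tr a c • z
      rw [← h5, mul_smul, mul_smul]
    rw [← h4, ← h1] at h6
    have h7 : tr a c • F c = z := by
      change tr a c • tr a c • z = z
      rw [← mul_smul, tr_mul_self, one_smul]
    rw [h7] at h6
    exact hFne c hc h6
  obtain ⟨U, hU, hTU⟩ := exists_good (hT.1.union (Set.finite_singleton a))
  have hTU' : T ⊆ U := fun t ht => hTU (Or.inl ht)
  have haU : a ∈ U := hTU (Or.inr rfl)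
  have hFact : ∀ g ∈ Gs U, ∀ c, B c → B (g • c) ∧ g • F c = F (g • c) := by
    intro g hg c hc
    have hga : g • a = a := Gs_fix hU hg haU
    have hgT : g ∈ Gs T := Gs_mono hTU' hg
    refine ⟨⟨Gs_not_mem hT hgT hc.1, fun h => hc.2.1 ?_, fun u hu => ?_⟩, ?_⟩
    · exact MulAction.injective g (h.trans hga.symm)
    · rw [Gs_prefix hT hgT hu]
      exact hc.2.2 u hu
    · change g • tr a c • z = tr a (g • c) • z
      rw [← mul_smul, mul_tr, hga, mul_smul, hzT g hgT]
  obtain ⟨q, hq, hqb, hql⟩ := hT.longest b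
  obtain ⟨m, hm⟩ := hT.child q
  have hB : ∀ k, m ≤ k → ∀ c, q ++ [k] <+: c → c ≠ a → B c := by
    intro k hk c hc hca
    refine ⟨hT.not_mem (hm k hk) hc, hca, fun u hu => ?_⟩
    rw [hT.cell (hm k hk) hc hu]
    exact ⟨fun h => h.trans hqb, hql u hu⟩
  choose D hD hD' using fun k => exists_sub x (P := fun w =>
    ∃ c, q ++ [m + k] <+: c ∧ B c ∧ w = F c) (by
      obtain ⟨H, hH, h⟩ := exists_stab (N := Nt) (Set.finite_singleton x)
      obtain ⟨V, hV, hUV⟩ := exists_good ((hU.1.union (Set.finite_singleton (q ++ [m + k]))))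
      refine ⟨_, ⟨V, hV, rfl⟩, fun g hg w _ hp => ?_⟩
      obtain ⟨c, h1, h2, rfl⟩ := hp
      obtain ⟨h3, h4⟩ := hFact g (Gs_mono (Set.subset_union_left.trans hUV) hg) c h2
      exact ⟨g • c, (Gs_prefix hV hg (hUV (Or.inr rfl)) c).2 h1, h3, h4⟩)
  refine sfb_of D (fun k => ⟨hD k, fun z hz => ((hD' k z).1 hz).1⟩) (fun k => ?_)
    (fun j k w hj hk => ?_) ⟨_, ⟨U, hU, rfl⟩, fun g hg k => ?_⟩
  · have h1 : ((fun l => q ++ [m + k] ++ [l]) ⁻¹' {a}).Finite := by
      refine (Set.finite_singleton a).preimage fun l _ l' _ hl => ?_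
      have h2 : q ++ [m + k] ++ [l] = q ++ [m + k] ++ [l'] := hl
      rw [List.append_cancel_left_eq, List.cons_eq_cons] at h2
      exact h2.1
    have h2 : ∀ l, l ∉ ((fun l => q ++ [m + k] ++ [l]) ⁻¹' {a}) → B (q ++ [m + k] ++ [l]) :=
      fun l hl => hB (m + k) (by omega) _ (List.prefix_append _ _) hl
    refine ((Set.Infinite.image (f := fun l => F (q ++ [m + k] ++ [l])) ?_
      (h1.infinite_compl))).mono ?_
    · intro l hl l' hl' hll
      have h3 : F (q ++ [m + k] ++ [l]) = F (q ++ [m + k] ++ [l']) := hll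
      have h4 := hFinj _ _ (h2 l hl) (h2 l' hl') h3
      rw [List.append_cancel_left_eq, List.cons_eq_cons] at h4
      exact h4.1
    · rintro _ ⟨l, hl, rfl⟩
      exact (hD' k _).2 ⟨hFx _ (h2 l hl), _, List.prefix_append _ _, h2 l hl, rfl⟩
  · obtain ⟨-, c, h1, h2, h3⟩ := (hD' j w).1 hj
    obtain ⟨-, c', h1', h2', h3'⟩ := (hD' k w).1 hk
    rw [h3] at h3'
    rw [← hFinj _ _ h2 h2' h3'] at h1'
    have h4 := (List.prefix_of_prefix_length_le h1 h1' (by simp)).eq_of_length (by simp)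
    rw [List.append_cancel_left_eq, List.cons_eq_cons] at h4
    omega
  · have hgx : g • x = x := hx g (Gs_mono (hST.trans hTU') hg)
    have hgi := (Gs U).inv_mem hg
    refine ((Gs_child hU hgi (hTU' hq) (m + k)).image F).subset fun w hw => ?_
    by_contra h1
    refine hw ?_
    have h2 : Mem w (g • D k) ↔ Mem (g⁻¹ • w) (D k) := by
      rw [← mem_smul (g := g) (x := g⁻¹ • w), smul_inv_smul]
    have h3 : Mem (g⁻¹ • w) x ↔ Mem w x := by
      rw [← mem_smul (g := g) (x := g⁻¹ • w), smul_inv_smul, hgx]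
    rw [h2, hD', hD', h3]
    refine and_congr Iff.rfl ?_
    have h4 : ∀ c, B c → w = F c → (q ++ [m + k] <+: g⁻¹ • c ↔ q ++ [m + k] <+: c) := by
      intro c _ hw
      by_contra h5
      exact h1 ⟨c, h5, hw.symm⟩
    constructor
    · rintro ⟨c, h5, h6, h7⟩
      obtain ⟨h8, h9⟩ := hFact g hg c h6
      have h10 : w = F (g • c) := by
        rw [← h9, ← h7, smul_inv_smul]
      have h11 := h4 _ h8 h10
      rw [inv_smul_smul] at h11
      exact ⟨g • c, h11.1 h5, h8, h10⟩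
    · rintro ⟨c, h5, h6, h7⟩
      obtain ⟨h8, h9⟩ := hFact g⁻¹ hgi c h6
      exact ⟨g⁻¹ • c, (h4 c h6 h7).2 h5, h8, by rw [h7, h9]⟩

end Pool.Agent.Q211.ZP
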