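import Pool.Agent.Q211.ZP.Mt

/-!
# The tree model: all infinite sets are strongly filterbase infinite (orbits)
-/

set_option autoImplicit false

namespace Pool.Agent.Q211.ZP

open Pool.Agent.Helper672.ZFA FirstOrder FirstOrder.Language

/-- The orbit. -/
def Ob (S : Set (List ℕ)) (z : Pt) : Set Pt := {w | ∃ g ∈ Gs S, w = g • z}

theorem Ob_self (S : Set (List ℕ)) (z : Pt) : z ∈ Ob S z := ⟨1, (Gs S).one_mem, (one_smul _ z).symm⟩

theorem Ob_eq {S : Set (List ℕ)} {z w : Pt} (h : w ∈ Ob S z) : Ob S w = Ob S z := by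
  obtain ⟨g, hg, rfl⟩ := h
  ext v
  constructor
  · rintro ⟨k, hk, rfl⟩
    exact ⟨k * g, (Gs S).mul_mem hk hg, (mul_smul k g z).symm⟩
  · rintro ⟨k, hk, rfl⟩
    exact ⟨k * g⁻¹, (Gs S).mul_mem hk ((Gs S).inv_mem hg), by rw [mul_smul, inv_smul_smul]⟩

/-- Elements of `x` with a finite orbit. -/
def Fi (x : Pt) (S : Set (List ℕ)) : Set Pt := {z | Mem z x ∧ (Ob S z).Finite}

theorem Fi_finite {x : Pt} {S : Set (List ℕ)} (hS : Good S) (hx : ∀ g ∈ Gs S, g • x = x)
    (hn : ¬ StronglyFB x) : (Fi x S).Finite := by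
  by_contra hc
  refine hn ?_
  have h1 : (Ob S '' Fi x S).Infinite := by
    intro h
    refine hc (Set.Finite.of_finite_fibers (Ob S) h ?_)
    rintro _ ⟨z, hz, rfl⟩
    refine hz.2.subset fun w hw => ?_
    have h2 : Ob S w = Ob S z := hw.2
    rw [← h2]
    exact Ob_self S w
  have := h1.to_subtype
  let e := Infinite.natEmbedding (Ob S '' Fi x S)
  choose y hy hy' using fun n => (e n).2
  refine sfb_of_orb ⟨S, hS, rfl⟩ hx y (fun n => (hy n).1) fun m n g hg h => ?_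
  refine e.injective (Subtype.ext ?_)
  rw [← hy' m, ← hy' n, ← h]
  exact (Ob_eq ⟨g, hg, rfl⟩).symm

theorem Ob_sub {x : Pt} {S : Set (List ℕ)} (hx : ∀ g ∈ Gs S, g • x = x) {z : Pt} (hz : Mem z x)
    {w : Pt} (hw : w ∈ Ob S z) : Mem w x := by
  obtain ⟨g, hg, rfl⟩ := hw
  exact mem_smul' (hx g hg) hz

variable {x : Pt} {S : Set (List ℕ)}

/-- The set of the elements with a finite orbit is invariant under a larger group. -/
theorem Fi_inv {T : Set (List ℕ)} {u : List ℕ} {k : ℕ} (hT : Good T) (hST : S ⊆ T)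
    (hx : ∀ g ∈ Gs S, g • x = x) (hu : u ∈ T) (hU : Good (insert (u ++ [k]) T))
    (htr : ∀ z, Mem z x → ∀ a b, a ∉ S → b ∉ S → (∀ u ∈ S, u <+: a ↔ u <+: b) → tr a b • z = z)
    {z : Pt} (hz : z ∈ Fi x (insert (u ++ [k]) T)) {g : Gt} (hg : g ∈ Gs T) :
    g • z ∈ Fi x (insert (u ++ [k]) T) := by
  have htr' : ∀ T', S ⊆ T' → ∀ z, Mem z x → ∀ a b, a ∉ T' → b ∉ T' →
      (∀ u ∈ T', u <+: a ↔ u <+: b) → tr a b • z = z := fun T' h z hz a b ha hb hab =>
    htr z hz a b (fun h1 => ha (h h1)) (fun h1 => hb (h h1)) fun u hu => hab u (h hu)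
  have hTU : T ⊆ insert (u ++ [k]) T := Set.subset_insert _ _
  have hxU : ∀ g ∈ Gs (insert (u ++ [k]) T), g • x = x := fun g hg =>
    hx g (Gs_mono (hST.trans hTU) hg)
  refine Gs_ind (C := fun g => g • z ∈ Fi x (insert (u ++ [k]) T)) ?_ ?_ ?_ hg
  · rw [one_smul]
    exact hz
  · intro a b g ha hb hab h
    rw [mul_smul, htr' T hST _ h.1 a b ha hb hab]
    exact h
  · intro t p q g ht h
    rw [mul_smul]
    have hkx : ∀ w, Mem w x → Mem (kp t p q • w) x := fun w hw =>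
      mem_smul' (hx _ (Gs_mono hST (kp_mem_Gs p q ht))) hw
    refine ⟨hkx _ h.1, ?_⟩
    refine (h.2.image fun w => kp t p q • w).subset ?_
    rintro w ⟨g', hg', rfl⟩
    refine Gs_ind (C := fun g' => g' • kp t p q • g • z ∈
      (fun w => kp t p q • w) '' Ob (insert (u ++ [k]) T) (g • z)) ?_ ?_ ?_ hg'
    · exact ⟨_, Ob_self _ _, (one_smul _ _).symm⟩
    · rintro a b g' ha hb hab ⟨w, hw, h1⟩
      refine ⟨w, hw, ?_⟩
      have h2 : kp t p q • w = g' • kp t p q • g • z := h1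
      change kp t p q • w = _
      rw [mul_smul, ← h2, htr' _ (hST.trans hTU) _ (hkx _ (Ob_sub hxU h.1 hw)) a b ha hb hab]
    · rintro t' p' q' g' ht' ⟨w, hw, h1⟩
      have h2 : kp t p q • w = g' • kp t p q • g • z := h1
      have h3 : (kp t p q)⁻¹ * kp t' p' q' * kp t p q ∈ Gs (insert (u ++ [k]) T) := by
        by_cases h4 : t' <+: t
        · have h5 : t ∉ insert (u ++ [k]) T := hU.not_mem ht' h4
          have h6 := kp_mem_Gs p q h5
          exact (Gs _).mul_mem ((Gs _).mul_mem ((Gs _).inv_mem h6) (kp_mem_Gs p' q' ht')) h6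
        · rw [kp_inv, kp_kp p q p' q' h4, mul_assoc, kp_mul_self, mul_one]
          refine kp_mem_Gs _ _ fun h5 => ?_
          have h6 : kf p q t (kf p q t t') = kf p q t t' := by
            rcases h5 with h5 | h5
            · rw [h5]
              exact kf_fix (fun h7 => ht (hT.2.2 u hu t h7)) k
            · exact kf_not fun h7 => ht (hT.2.2 _ h5 t h7)
          rw [kf_invol] at h6
          rw [← h6] at h5
          exact ht' h5
      refine ⟨((kp t p q)⁻¹ * kp t' p' q' * kp t p q) • w, ?_, ?_⟩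
      · obtain ⟨g'', hg'', rfl⟩ := hw
        exact ⟨_, (Gs _).mul_mem h3 hg'', (mul_smul _ _ _).symm⟩
      · change kp t p q • ((kp t p q)⁻¹ * kp t' p' q' * kp t p q) • w = _
        rw [mul_smul _ g', ← h2, ← mul_smul, ← mul_smul]
        rw [← mul_assoc, ← mul_assoc, mul_inv_cancel, one_mul]

theorem mem_Fi_down (hS : Good S) (hx : ∀ g ∈ Gs S, g • x = x) (hn : ¬ StronglyFB x)
    (htr : ∀ z, Mem z x → ∀ a b, a ∉ S → b ∉ S → (∀ u ∈ S, u <+: a ↔ u <+: b) → tr a b • z = z)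
    {z : Pt} (n : ℕ) : ∀ T : Set (List ℕ), Good T → S ⊆ T → (T \ S).ncard = n → z ∈ Fi x T →
      z ∈ Fi x S := by
  induction n with
  | zero =>
    intro T hT hST h1 hz
    rw [Set.ncard_eq_zero (hT.1.sdiff), Set.diff_eq_empty] at h1
    rwa [hST.antisymm h1]
  | succ n ih =>
    intro T hT hST h1 hz
    have hne : S ≠ T := by
      intro h2
      rw [h2, Set.diff_self, Set.ncard_empty] at h1
      omega
    obtain ⟨T', u, k, hT', hST', hu, hk, rfl⟩ := hS.remove hT hST hne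
    refine ih T' hT' hST' ?_ ?_
    · have h2 : insert (u ++ [k]) T' \ S = insert (u ++ [k]) (T' \ S) :=
        Set.insert_sdiff_of_notMem _ fun h => hk (hST' h)
      rw [h2, Set.ncard_insert_of_notMem (fun h => hk h.1) hT'.1.sdiff] at h1
      omega
    · have hxT : ∀ g ∈ Gs T', g • x = x := fun g hg => hx g (Gs_mono hST' hg)
      refine ⟨hz.1, ?_⟩
      refine (Fi_finite hT (fun g hg => hx g (Gs_mono hST hg)) hn).subset ?_
      rintro w ⟨g, hg, rfl⟩
      exact Fi_inv hT' hST' hx hu hT htr hz hg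

theorem sfb_all (x : Pt) (hx : ¬ FinIn x) : StronglyFB x := by
  rw [finIn_iff] at hx
  obtain ⟨S, hS, hxS⟩ := pt_symm x
  by_cases htr : ∀ z, Mem z x → ∀ a b, a ∉ S → b ∉ S → (∀ u ∈ S, u <+: a ↔ u <+: b) →
      tr a b • z = z
  · by_contra hn
    refine hx ((Fi_finite hS hxS hn).subset fun z hz => ?_)
    obtain ⟨T, hT, hST, hzT⟩ := pt_symm' z hS.1
    refine mem_Fi_down hS hxS hn htr _ T hT hST rfl ⟨hz, ?_⟩
    refine (Set.finite_singleton z).subset ?_
    rintro w ⟨g, hg, rfl⟩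
    exact hzT g hg
  · push Not at htr
    obtain ⟨z, hz, a, b, ha, hb, hab, hne⟩ := htr
    exact sfb_tr hS hxS hz ha hb hab hne

end Pool.Agent.Q211.ZP
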