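import Pool.Agent.Q211.ZP.Mt

/-!
# The tree model: the set of the atoms is not dyadically filterbase infinite
-/

set_option autoImplicit false

namespace Pool.Agent.Q211.ZP

open Pool.Agent.Helper672.ZFA FirstOrder FirstOrder.Language

theorem hs_at (a : List ℕ) : HS Nt (U.atom a : U (List ℕ)) := by
  obtain ⟨S, hS, h⟩ := exists_good (Set.finite_singleton a)
  exact .intro _ ⟨_, ⟨S, hS, rfl⟩, fun g hg => by
    rw [U.smul_atom, Gs_fix hS hg (h rfl)]⟩ fun y hy => (U.not_mem_atom hy).elim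

/-- The atoms of the model. -/
def att (a : List ℕ) : Pt := ⟨U.atom a, hs_at a⟩

theorem att_inj {a b : List ℕ} (h : att a = att b) : a = b := U.atom_inj.1 (congrArg Subtype.val h)

theorem smul_att (g : Gt) (a : List ℕ) : g • att a = att (g • a) := Subtype.ext (U.smul_atom g a)

/-- The set of the atoms in `Y`. -/
def El (Y : Pt) : Set (List ℕ) := {a | Mem (att a) Y}

theorem mem_El_smul {g : Gt} {a : List ℕ} {Y : Pt} : g • a ∈ El (g • Y) ↔ a ∈ El Y := by
  change Mem (att (g • a)) (g • Y) ↔ Mem (att a) Y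
  rw [← smul_att, mem_smul]

/-- Almost all subtrees above the children of `w` are contained in `E`. -/
def TI (E : Set (List ℕ)) (w : List ℕ) : Prop := ∃ m, ∀ k, m ≤ k → ∀ c, w ++ [k] <+: c → c ∈ E

theorem TI.not_compl {E : Set (List ℕ)} {w : List ℕ} (h : TI E w) (h' : TI Eᶜ w) : False := by
  obtain ⟨m, hm⟩ := h
  obtain ⟨m', hm'⟩ := h'
  exact hm' (max m m') (le_max_right _ _) _ (List.prefix_refl _)
    (hm (max m m') (le_max_left _ _) _ (List.prefix_refl _))

theorem TI.infinite {E : Set (List ℕ)} {w : List ℕ} (h : TI E w) : E.Infinite := by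
  obtain ⟨m, hm⟩ := h
  refine Set.infinite_of_injective_forall_mem (f := fun k => w ++ [m + k]) (fun k l hkl => ?_)
    fun k => hm _ (Nat.le_add_right m k) _ (List.prefix_refl _)
  have h2 : w ++ [m + k] = w ++ [m + l] := hkl
  rw [List.append_cancel_left_eq, List.cons_eq_cons] at h2
  omega

theorem TI.inter {E E' : Set (List ℕ)} {w : List ℕ} (h : TI E w) (h' : TI E' w) :
    TI (E ∩ E') w := by
  obtain ⟨m, hm⟩ := h
  obtain ⟨m', hm'⟩ := h'
  exact ⟨max m m', fun k hk c hc => ⟨hm k ((le_max_left _ _).trans hk) c hc,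
    hm' k ((le_max_right _ _).trans hk) c hc⟩⟩

theorem TI.child {E : Set (List ℕ)} {w : List ℕ} (h : TI E w) :
    ∃ m, ∀ k, m ≤ k → TI E (w ++ [k]) := by
  obtain ⟨m, hm⟩ := h
  exact ⟨m, fun k hk => ⟨0, fun l _ c hc => hm k hk c ((List.prefix_append _ _).trans hc)⟩⟩

theorem swap_El {Y : Pt} {T : Set (List ℕ)} (h : ∀ g ∈ Gs T, g • Y = Y) {a b : List ℕ}
    (ha : a ∉ T) (hb : b ∉ T) (hab : ∀ u ∈ T, u <+: a ↔ u <+: b) : a ∈ El Y ↔ b ∈ El Y := by
  have h1 := h _ (tr_mem_Gs ha hb hab)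
  have h2 := mem_El_smul (g := tr a b) (a := a) (Y := Y)
  rw [h1, tr_left] at h2
  exact h2.symm

theorem TI_or (Y : Pt) (w : List ℕ) : TI (El Y) w ∨ TI (El Y)ᶜ w := by
  obtain ⟨T, hT, hY⟩ := pt_symm Y
  obtain ⟨m, hm⟩ := hT.child w
  have key : ∀ k, m ≤ k → ∀ c, w ++ [k] <+: c → (c ∈ El Y ↔ w ++ [m] ∈ El Y) := by
    intro k hk c hc
    refine swap_El hY (hT.not_mem (hm k hk) hc) (hm m le_rfl) fun u hu => ?_
    rw [hT.cell (hm k hk) hc hu, hT.cell (hm m le_rfl) (List.prefix_refl _) hu]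
  by_cases h : w ++ [m] ∈ El Y
  · exact Or.inl ⟨m, fun k hk c hc => (key k hk c hc).2 h⟩
  · exact Or.inr ⟨m, fun k hk c hc h1 => h ((key k hk c hc).1 h1)⟩

/-- Types only depend on the class modulo finite sets. -/
theorem TI.mono {Y Y' : Pt} {w : List ℕ} (h : TI (El Y) w) (h' : (El Y \ El Y').Finite) :
    TI (El Y') w := by
  rcases TI_or Y' w with h1 | h1
  · exact h1
  · exact ((h.inter h1).infinite h').elim

theorem TI.mono' {Y Y' : Pt} {w : List ℕ} (h : TI (El Y)ᶜ w) (h' : (El Y' \ El Y).Finite) :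
    TI (El Y')ᶜ w := by
  rcases TI_or Y' w with h1 | h1
  · exact ((h1.inter h).infinite h').elim
  · exact h1

theorem Eqf.El {Y Y' : Pt} (h : Eqf Y Y') : (El Y \ El Y').Finite := by
  refine Set.Finite.of_finite_image (f := att) (h.subset ?_) fun a _ b _ hab => att_inj hab
  rintro _ ⟨a, ha, rfl⟩
  exact fun h1 => ha.2 (h1.1 ha.1)

section

variable {S : Set (List ℕ)} (hS : Good S) {Y : Pt} (hY : ∀ g ∈ Gs S, Eqf (g • Y) Y)

include hY in
theorem TI_swap {w : List ℕ} (hw : w ∉ S) (k j : ℕ) (h : TI (El Y) (w ++ [k])) :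
    TI (El Y) (w ++ [j]) := by
  have h1 := hY _ (kp_mem_Gs k j hw)
  refine TI.mono (Y := kp w k j • Y) ?_ h1.El
  obtain ⟨m, hm⟩ := h
  refine ⟨m, fun i hi c hc => ?_⟩
  obtain ⟨r, rfl⟩ := hc
  have h2 := mem_El_smul (g := kp w k j) (a := w ++ [k] ++ [i] ++ r) (Y := Y)
  have h3 : kp w k j • (w ++ [k] ++ [i] ++ r) = w ++ [j] ++ [i] ++ r := by
    have h4 := kf_append k j w k (i :: r)
    rw [Equiv.swap_apply_left] at h4
    rw [kp_smul]
    simpa using h4
  rw [h3] at h2
  exact h2.2 (hm i hi _ (List.prefix_append _ _))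

include hY in
theorem TI_swap' {w : List ℕ} (hw : w ∉ S) (k j : ℕ) (h : TI (El Y)ᶜ (w ++ [k])) :
    TI (El Y)ᶜ (w ++ [j]) := by
  rcases TI_or Y (w ++ [j]) with h1 | h1
  · exact ((TI_swap hY hw j k h1).not_compl h).elim
  · exact h1

include hY in
theorem TI_parent {w : List ℕ} (hw : w ∉ S) (k : ℕ) : TI (El Y) (w ++ [k]) ↔ TI (El Y) w := by
  constructor
  · intro h
    rcases TI_or Y w with h1 | h1
    · exact h1
    · obtain ⟨m, hm⟩ := h1.child
      exact ((TI_swap hY hw k m h).not_compl (hm m le_rfl)).elim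
  · intro h
    obtain ⟨m, hm⟩ := h.child
    exact TI_swap hY hw m k (hm m le_rfl)

include hS hY in
theorem TI_ext {v : List ℕ} (hv : v ∉ S) {w : List ℕ} (h : v <+: w) :
    TI (El Y) w ↔ TI (El Y) v := by
  obtain ⟨r, rfl⟩ := h
  induction r using List.reverseRecOn with
  | nil => rw [List.append_nil]
  | append_singleton r k ih =>
    rw [← List.append_assoc, TI_parent hY (hS.not_mem hv (List.prefix_append v r)), ih]

include hS hY in
/-- The atoms above `v` in `Y` are almost all or almost none. -/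
theorem finite_above {v : List ℕ} (hv : v ∉ S) (h : ¬ TI (El Y) v) :
    {c | v <+: c ∧ c ∈ El Y}.Finite := by
  obtain ⟨T, hT, hvT, hYT⟩ := pt_symm' Y (Set.finite_singleton v)
  refine hT.1.subset fun c hc => ?_
  by_contra hcT
  obtain ⟨w, hw, hwc, hwl⟩ := hT.longest c
  have h1 : v <+: w := hwl v (hvT rfl) hc.1
  have h2 : ¬ TI (El Y) w := fun h3 => h ((TI_ext hS hY hv h1).1 h3)
  have h3 : TI (El Y)ᶜ w := (TI_or Y w).resolve_left h2
  obtain ⟨m, hm⟩ := h3
  obtain ⟨m', hm'⟩ := hT.child w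
  have h4 := hm' (max m m') (le_max_right _ _)
  refine hm (max m m') (le_max_left _ _) _ (List.prefix_refl _) ?_
  refine (swap_El hYT hcT h4 fun u hu => ?_).1 hc.2
  rw [hT.cell h4 (List.prefix_refl _) hu]
  exact ⟨hwl u hu, fun h => h.trans hwc⟩

/-- The minimal nodes outside of the support. -/
def Bd (S : Set (List ℕ)) : Set (List ℕ) := {v | v ∉ S ∧ ∃ u ∈ S, ∃ k, v = u ++ [k]}

include hS hY in
theorem exists_TI (hinf : (El Y).Infinite) : ∃ v ∈ Bd S, TI (El Y) v := by
  by_contra hc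
  push Not at hc
  have h1 : ∀ u ∈ S, ∃ m, ∀ k, m ≤ k → ∀ c, u ++ [k] <+: c → c ∉ El Y := by
    intro u hu
    rcases TI_or Y u with h2 | h2
    · obtain ⟨m, hm⟩ := h2.child
      obtain ⟨m', hm'⟩ := hS.child u
      exact (hc _ ⟨hm' (max m m') (le_max_right _ _), u, hu, _, rfl⟩
        (hm (max m m') (le_max_left _ _))).elim
    · exact h2
  choose! m hm using h1
  refine hinf ((hS.1.union (Set.Finite.biUnion hS.1 fun u hu =>
    Set.Finite.biUnion (Set.finite_Iio (m u)) fun k _ =>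
      (show ({c | u ++ [k] ∉ S ∧ u ++ [k] <+: c ∧ c ∈ El Y}).Finite from ?_))).subset
        fun c hc' => ?_)
  · by_cases h2 : u ++ [k] ∈ S
    · exact Set.finite_empty.subset fun c hc => hc.1 h2
    · exact (finite_above hS hY h2 (hc _ ⟨h2, u, hu, k, rfl⟩)).subset fun c hc => hc.2
  · by_cases h2 : c ∈ S
    · exact Or.inl h2
    · right
      obtain ⟨u, hu, ⟨r, hr⟩, hl⟩ := hS.longest c
      cases r with
      | nil =>
        rw [List.append_nil] at hr
        rw [hr] at hu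
        exact (h2 hu).elim
      | cons k r =>
        have h3 : u ++ [k] <+: c := ⟨r, by rw [← hr]; simp⟩
        have h4 : u ++ [k] ∉ S := by
          intro h5
          have h6 := (hl _ h5 h3).length_le
          simp at h6
        refine Set.mem_biUnion hu (Set.mem_biUnion (show k < m u from ?_) ⟨h4, h3, hc'⟩)
        by_contra h5
        exact hm u hu k (not_lt.1 h5) c h3 hc'

end

end Pool.Agent.Q211.ZP
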