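import Pool.Agent.Q211.ZP.Mu
import Pool.Agent.Q211.ZP.Mv

/-!
# The tree model: the set of the atoms is not dyadically filterbase infinite
-/

set_option autoImplicit false

namespace Pool.Agent.Q211.ZP

open Pool.Agent.Helper672.ZFA FirstOrder FirstOrder.Language

/-- No dyadic system of types. -/
theorem no_types {S : Set (List ℕ)} (hS : Good S) (ι : ℕ → List ℕ → ℕ)
    (hlt : ∀ n w, 1 ≤ n → ι n w < 2 ^ n) (hhalf : ∀ n w, 1 ≤ n → ι (n + 1) w / 2 = ι n w)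
    (hsurj : ∀ n i, 1 ≤ n → i < 2 ^ n → ∃ v ∈ Bd S, ι n v = i)
    (hev : ∀ n u, 1 ≤ n → u ∈ S → ∃ m, ∀ k, m ≤ k → ι n (u ++ [k]) = ι n u) : False := by
  classical
  obtain ⟨n, hn1, hn⟩ : ∃ n, 1 ≤ n ∧ S.ncard < 2 ^ n :=
    ⟨S.ncard + 1, by omega, (Nat.lt_succ_self _).trans (Nat.lt_two_pow_self)⟩
  obtain ⟨i, hi, hi'⟩ : ∃ i < 2 ^ n, ∀ u ∈ S, ι n u ≠ i := by
    by_contra hc
    push Not at hc
    have h1 : Set.Iio (2 ^ n) ⊆ ι n '' S := fun i hi => by
      obtain ⟨u, hu, h⟩ := hc i hi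
      exact ⟨u, hu, h⟩
    have h2 := Set.ncard_le_ncard h1 (hS.1.image _)
    have h3 := Set.ncard_image_le (f := ι n) hS.1
    rw [Set.ncard_Iio_nat] at h2
    omega
  have hR : {v | v ∈ Bd S ∧ ι n v = i}.Finite := by
    choose! m hm using fun u (hu : u ∈ S) => hev n u hn1 hu
    refine (Set.Finite.biUnion hS.1 fun u _ => ((Set.finite_Iio (m u)).image
      fun k => u ++ [k])).subset ?_
    rintro v ⟨⟨hv, u, hu, k, rfl⟩, h1⟩
    refine Set.mem_biUnion hu ⟨k, ?_, rfl⟩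
    by_contra h2
    rw [hm u hu k (not_lt.1 h2)] at h1
    exact hi' u hu h1
  have hdiv : ∀ m w, ι (n + m) w / 2 ^ m = ι n w := by
    intro m w
    induction m with
    | zero => simp
    | succ m ih =>
      rw [← add_assoc, pow_succ', ← Nat.div_div_eq_div_mul, hhalf _ _ (by omega), ih]
  obtain ⟨m, hm⟩ : ∃ m, {v | v ∈ Bd S ∧ ι n v = i}.ncard < 2 ^ m := ⟨_, Nat.lt_two_pow_self⟩
  have h1 : (fun j => 2 ^ m * i + j) '' Set.Iio (2 ^ m) ⊆
      ι (n + m) '' {v | v ∈ Bd S ∧ ι n v = i} := by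
    rintro _ ⟨j, hj, rfl⟩
    have hj' : j < 2 ^ m := hj
    have h2 : 2 ^ m * i + j < 2 ^ (n + m) := by
      have h3 : 2 ^ m * (i + 1) ≤ 2 ^ m * 2 ^ n := Nat.mul_le_mul_left _ hi
      rw [← pow_add, add_comm m n, Nat.mul_add, mul_one] at h3
      omega
    obtain ⟨v, hv, h3⟩ := hsurj (n + m) _ (by omega) h2
    refine ⟨v, ⟨hv, ?_⟩, h3⟩
    rw [← hdiv m v, h3, Nat.mul_add_div (Nat.two_pow_pos m), Nat.div_eq_of_lt hj', add_zero]
  have h2 := Set.ncard_le_ncard h1 (hR.image _)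
  have h3 := Set.ncard_image_le (f := ι (n + m)) hR
  rw [Set.ncard_image_of_injective _ (fun a b hab => by
    have h4 : 2 ^ m * i + a = 2 ^ m * i + b := hab
    omega), Set.ncard_Iio_nat] at h2
  omega

theorem finOf_El {P : Pt → Prop} (h : FinOf P) : {a | P (att a)}.Finite := by
  rw [finOf_iff] at h
  refine Set.Finite.of_finite_image (f := att) (h.subset ?_) fun a _ b _ hab => att_inj hab
  rintro _ ⟨a, ha, rfl⟩
  exact ha

theorem exists_atomset : ∃ x : Pt, IsSet x ∧ ¬ FinIn x ∧ (∀ z, Mem z x ↔ ∃ a, z = att a) := by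
  obtain ⟨S, hS, -⟩ := exists_good Set.finite_empty
  obtain ⟨x, hx, h⟩ := exists_set (S := Set.range att) (small_range _)
    ⟨_, ⟨S, hS, rfl⟩, fun g _ z hz => by
      obtain ⟨a, rfl⟩ := hz
      exact ⟨g • a, (smul_att g a).symm⟩⟩
  refine ⟨x, hx, fun hf => ?_, fun z => (h z).trans ⟨fun ⟨a, ha⟩ => ⟨a, ha.symm⟩,
    fun ⟨a, ha⟩ => ⟨a, ha.symm⟩⟩⟩
  rw [finIn_iff] at hf
  exact Set.infinite_range_of_injective (fun a b h => att_inj h) (hf.subset fun z hz => (h z).2 hz)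

theorem not_dfb {x : Pt} (hx : ∀ z, Mem z x ↔ ∃ a, z = att a) : ¬ DyadicallyFB x := by
  classical
  rintro ⟨f, hf⟩
  obtain ⟨S, hS, hfS⟩ := pt_symm f
  -- representatives
  have hex : ∀ n i, 1 ≤ n → i < 2 ^ n → ∃ V, DFam f n (i + 1) V := fun n i hn hi =>
    ((hf n hn).1 (i + 1) (by omega) hi).1
  have : Nonempty Pt := ⟨x⟩
  choose! W hW using hex
  have hWW : ∀ n i, 1 ≤ n → i < 2 ^ n → ∀ V, DFam f n (i + 1) V →
      (El V \ El (W n i)).Finite ∧ (El (W n i) \ El V).Finite := by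
    intro n i hn hi V hV
    have h1 := ((hf n hn).1 (i + 1) (by omega) hi).2.2
    exact ⟨finOf_El (h1 V _ hV (hW n i hn hi)).2.2, finOf_El (h1 _ V (hW n i hn hi) hV).2.2⟩
  have hsub : ∀ n i, 1 ≤ n → i < 2 ^ n → Sub (W n i) x ∧ ¬ FinIn (W n i) := fun n i hn hi =>
    ((hf n hn).1 (i + 1) (by omega) hi).2.1 _ (hW n i hn hi)
  have hinf : ∀ n i, 1 ≤ n → i < 2 ^ n → (El (W n i)).Infinite := by
    intro n i hn hi h
    refine (hsub n i hn hi).2 (finIn_iff.2 ((h.image att).subset fun z hz => ?_))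
    obtain ⟨a, rfl⟩ := (hx z).1 ((hsub n i hn hi).1.2 z hz)
    exact ⟨a, hz, rfl⟩
  have hsym : ∀ n i, 1 ≤ n → i < 2 ^ n → ∀ g ∈ Gs S, Eqf (g • W n i) (W n i) := by
    intro n i hn hi g hg
    have h1 := mem_smul' (hfS g hg) (hW n i hn hi)
    rw [smul_op, smul_op, smul_num, smul_num] at h1
    have h2 := ((hf n hn).1 (i + 1) (by omega) hi).2.2
    have h3 := (h2 _ _ h1 (hW n i hn hi)).2.2
    have h4 := (h2 _ _ (hW n i hn hi) h1).2.2
    rw [finOf_iff] at h3 h4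
    refine (h3.union h4).subset fun z hz => ?_
    by_contra h5
    rw [Set.mem_union, not_or] at h5
    refine hz ⟨fun h6 => by_contra fun h7 => h5.1 ⟨h6, h7⟩, fun h6 => by_contra fun h7 =>
      h5.2 ⟨h6, h7⟩⟩
  -- covering
  have hcov : ∀ n w, 1 ≤ n → ∃ i < 2 ^ n, TI (El (W n i)) w := by
    intro n w hn
    by_contra hc
    push Not at hc
    have h1 : ∀ i < 2 ^ n, TI (El (W n i))ᶜ w := fun i hi => (TI_or _ _).resolve_left (hc i hi)
    have h2 := finOf_El ((hf n hn).2.2 (fun i => W n (i - 1)) fun i hi hi' => by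
      have h3 := hW n (i - 1) hn (by omega)
      rwa [Nat.sub_add_cancel hi] at h3)
    have h3 : ∀ N ≤ 2 ^ n, TI {a | ∀ i < N, a ∉ El (W n i)} w := by
      intro N
      induction N with
      | zero => exact fun _ => ⟨0, fun k _ c _ i hi => (Nat.not_lt_zero i hi).elim⟩
      | succ N ih =>
        intro hN
        obtain ⟨m, hm⟩ := (ih (by omega)).inter (h1 N hN)
        refine ⟨m, fun k hk c hc i hi => ?_⟩
        rcases Nat.lt_succ_iff_lt_or_eq.1 hi with h4 | h4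
        · exact (hm k hk c hc).1 i h4
        · rw [h4]
          exact (hm k hk c hc).2
    refine (h3 _ le_rfl).infinite (h2.subset fun a ha => ⟨(hx _).2 ⟨a, rfl⟩, fun i hi hi' => ?_⟩)
    exact ha (i - 1) (by omega)
  -- splitting
  have hspl : ∀ n i j l w, 1 ≤ n → i < 2 ^ n → j < 2 ^ n → i ≠ j → l / 2 = i →
      TI (El (W (n + 1) l)) w → TI (El (W n i)) w ∧ ¬ TI (El (W n j)) w := by
    intro n i j l w hn hi hj hij hl h
    obtain ⟨U, V, hU, hV, h1, h2⟩ := (hf n hn).2.1 (i + 1) (j + 1) (by omega) hi (by omega) hj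
      (by omega) _ _ (hW n i hn hi) (hW n j hn hj)
    obtain ⟨Z, hZ, hZUV⟩ : ∃ Z, DFam f (n + 1) (l + 1) Z ∧ ∀ z, Mem z Z → Mem z U ∨ Mem z V := by
      rcases Nat.even_or_odd' l with ⟨l', h3 | h3⟩
      · refine ⟨U, ?_, fun z hz => Or.inl hz⟩
        have h4 : 2 * (i + 1) - 1 = l + 1 := by omega
        rwa [h4] at hU
      · refine ⟨V, ?_, fun z hz => Or.inr hz⟩
        have h4 : 2 * (i + 1) = l + 1 := by omega
        rwa [h4] at hV
    have h3 : TI (El Z) w := h.mono (hWW (n + 1) l (by omega) (by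
      rw [pow_succ]
      omega) Z hZ).2
    have h4 : (El Z \ El (W n i)).Finite := (finOf_El h1).subset fun a ha => ⟨hZUV _ ha.1, ha.2⟩
    have h5 : (El Z ∩ El (W n j)).Finite := (finOf_El h2).subset fun a ha => ⟨hZUV _ ha.1, ha.2⟩
    exact ⟨h3.mono h4, fun h6 => (h3.inter h6).infinite h5⟩
  have huniq' : ∀ n i l w, 1 ≤ n → i < 2 ^ n → l < 2 ^ (n + 1) → TI (El (W (n + 1) l)) w →
      TI (El (W n i)) w → l / 2 = i := by
    intro n i l w hn hi hl h1 h2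
    by_contra h3
    refine (hspl n (l / 2) i l w hn ?_ hi h3 rfl h1).2 h2
    rw [pow_succ] at hl
    omega
  have huniq : ∀ n i j w, 1 ≤ n → i < 2 ^ n → j < 2 ^ n → TI (El (W n i)) w → TI (El (W n j)) w →
      i = j := by
    intro n i j w hn hi hj h1 h2
    obtain ⟨l, hl, h3⟩ := hcov (n + 1) w (by omega)
    rw [← huniq' n i l w hn hi hl h3 h1, ← huniq' n j l w hn hj hl h3 h2]
  choose! ι hι hι' using hcov
  have hι'' : ∀ n w i, 1 ≤ n → i < 2 ^ n → TI (El (W n i)) w → ι n w = i := fun n w i hn hi h =>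
    huniq n _ _ w hn (hι n w hn) hi (hι' n w hn) h
  refine no_types hS ι hι (fun n w hn => ?_) (fun n i hn hi => ?_) fun n u hn hu => ?_
  · exact huniq' n _ _ w hn (hι n w hn) (hι (n + 1) w (by omega)) (hι' (n + 1) w (by omega))
      (hι' n w hn)
  · obtain ⟨v, hv, h⟩ := exists_TI hS (hsym n i hn hi) (hinf n i hn hi)
    exact ⟨v, hv, hι'' n v i hn hi h⟩
  · obtain ⟨m, hm⟩ := (hι' n u hn).child
    exact ⟨m, fun k hk => hι'' n _ _ hn (hι n u hn) (hm k hk)⟩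

end Pool.Agent.Q211.ZP
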