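import Pool.Agent.Q211.ZP.U
import Pool.Agent.Helper672.ZFA.Nat

/-!
# Permutation models

A group `G` that acts on the type `A` of atoms and a normal filter of subgroups of `G` determine
the class of the hereditarily symmetric sets, which is a model of ZFA.
-/

set_option autoImplicit false

namespace Pool.Agent.Q211.ZP

open Pool.Agent.Helper672.ZFA FirstOrder FirstOrder.Language

/-- A base of a normal filter of subgroups. -/
structure Flt (G : Type) [Group G] where
  F : Set (Subgroup G)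
  ne : F.Nonempty
  dir : ∀ H ∈ F, ∀ K ∈ F, ∃ J ∈ F, J ≤ H ∧ J ≤ K
  conj : ∀ H ∈ F, ∀ g : G, ∃ K ∈ F, ∀ k ∈ K, g⁻¹ * k * g ∈ H

variable {A G : Type} [Group G] [MulAction G A] (N : Flt G)

/-- Symmetric sets. -/
def Symm (x : U A) : Prop := ∃ H ∈ N.F, ∀ g ∈ H, g • x = x

/-- Hereditarily symmetric sets. -/
inductive HS : U A → Prop
  | intro (x : U A) : Symm N x → (∀ y, y ∈ x → HS y) → HS x

variable {N}

theorem HS.symm {x : U A} (h : HS N x) : Symm N x := by
  cases h with
  | intro _ h1 _ => exact h1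

theorem HS.mem {x y : U A} (h : HS N x) (hy : y ∈ x) : HS N y := by
  cases h with
  | intro _ _ h2 => exact h2 y hy

theorem Symm.smul {x : U A} (h : Symm N x) (g : G) : Symm N (g • x) := by
  obtain ⟨H, hH, h1⟩ := h
  obtain ⟨K, hK, h2⟩ := N.conj H hH g
  refine ⟨K, hK, fun k hk => ?_⟩
  have h3 := h1 _ (h2 k hk)
  rw [mul_smul, mul_smul] at h3
  have h4 := congrArg (fun y => g • y) h3
  rwa [smul_inv_smul] at h4

theorem HS.smul {x : U A} (h : HS N x) (g : G) : HS N (g • x) := by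
  induction h with
  | intro x h1 h2 ih =>
    refine .intro _ (h1.smul g) fun y hy => ?_
    have h3 := ih (g⁻¹ • y) (U.mem_smul_iff.1 hy)
    rwa [smul_inv_smul] at h3

variable (A N)

/-- The permutation model. -/
def PM : Type 1 := {x : U A // HS N x}

variable {A N}

instance : MulAction G (PM A N) where
  smul g x := ⟨g • x.1, x.2.smul g⟩
  one_smul x := Subtype.ext (one_smul G x.1)
  mul_smul g h x := Subtype.ext (mul_smul g h x.1)

theorem val_smul (g : G) (x : PM A N) : (g • x).1 = g • x.1 := rfl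

instance : L.Structure (PM A N) where
  funMap := fun {_} f _ => nomatch (f : Empty)
  RelMap := fun {_} r => match r with
    | Sym.isSet => fun v => ¬ (v 0).1.IsAtom
    | Sym.mem => fun v => (v 0).1 ∈ (v 1).1

theorem isSet_iff {x : PM A N} : IsSet x ↔ ¬ x.1.IsAtom := Iff.rfl

theorem mem_iff {x y : PM A N} : Mem x y ↔ x.1 ∈ y.1 := Iff.rfl

theorem isSet_smul {g : G} {x : PM A N} : IsSet (g • x) ↔ IsSet x := not_congr U.isAtom_smul

theorem mem_smul {g : G} {x y : PM A N} : Mem (g • x) (g • y) ↔ Mem x y := U.smul_mem_smul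

theorem pm_ext {x y : PM A N} (hx : IsSet x) (hy : IsSet y) (h : ∀ z, Mem z x ↔ Mem z y) :
    x = y :=
  Subtype.ext (U.ext hx hy fun z => ⟨fun hz => (h ⟨z, x.2.mem hz⟩).1 hz,
    fun hz => (h ⟨z, y.2.mem hz⟩).2 hz⟩)

theorem pm_symm (x : PM A N) : ∃ H ∈ N.F, ∀ g ∈ H, g • x = x := by
  obtain ⟨H, hH, h⟩ := x.2.symm
  exact ⟨H, hH, fun g hg => Subtype.ext (h g hg)⟩

theorem pm_small (x : PM A N) : _root_.Small.{0} {z : PM A N | Mem z x} := by
  have := U.small x.1
  exact small_of_injective (f := fun z : {z : PM A N | Mem z x} =>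
    (⟨z.1.1, z.2⟩ : {z // z ∈ x.1})) fun a b hab =>
      Subtype.ext (Subtype.ext (congrArg (fun t : {z // z ∈ x.1} => t.1) hab))

/-- The symmetric small classes are sets of the model. -/
theorem exists_set {S : Set (PM A N)} (hS : _root_.Small.{0} S)
    (h : ∃ H ∈ N.F, ∀ g ∈ H, ∀ z ∈ S, g • z ∈ S) : ∃ x : PM A N, IsSet x ∧ ∀ z, Mem z x ↔ z ∈ S := by
  obtain ⟨H, hH, h1⟩ := h
  have hS' : _root_.Small.{0} ((fun y : PM A N => y.1) '' S : Set (U A)) := small_image _ _
  obtain ⟨x, hx, h2⟩ := U.exists_set ((fun y : PM A N => y.1) '' S : Set (U A)) hS'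
  have h3 : ∀ g ∈ H, g • x = x := by
    intro g hg
    refine U.ext (by rwa [U.isAtom_smul]) hx fun z => ?_
    rw [U.mem_smul_iff, h2, h2]
    constructor
    · rintro ⟨y, hy, h3⟩
      refine ⟨g • y, h1 g hg y hy, ?_⟩
      change g • y.1 = z
      have h4 : y.1 = g⁻¹ • z := h3
      rw [h4, smul_inv_smul]
    · rintro ⟨y, hy, h3⟩
      refine ⟨g⁻¹ • y, h1 g⁻¹ (H.inv_mem hg) y hy, ?_⟩
      change g⁻¹ • y.1 = g⁻¹ • z
      have h4 : y.1 = z := h3
      rw [h4]
  refine ⟨⟨x, .intro _ ⟨H, hH, h3⟩ fun y hy => ?_⟩, hx, fun z => ?_⟩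
  · obtain ⟨z, -, h4⟩ := (h2 y).1 hy
    have h5 : z.1 = y := h4
    rw [← h5]
    exact z.2
  · rw [mem_iff]
    change z.1 ∈ x ↔ z ∈ S
    rw [h2]
    constructor
    · rintro ⟨y, hy, h4⟩
      have h5 : y = z := Subtype.ext h4
      rwa [h5] at hy
    · intro hz
      exact ⟨z, hz, rfl⟩

/-! ### Definable classes are symmetric -/

theorem exists_fin {n : ℕ} {P : Fin n → Subgroup G → Prop}
    (hP : ∀ i H K, K ≤ H → P i H → P i K) (h : ∀ i, ∃ H ∈ N.F, P i H) :
    ∃ H ∈ N.F, ∀ i, P i H := by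
  induction n with
  | zero =>
    obtain ⟨H, hH⟩ := N.ne
    exact ⟨H, hH, fun i => i.elim0⟩
  | succ n ih =>
    obtain ⟨H, hH, h1⟩ := ih (P := fun i => P i.castSucc) (fun i => hP _) fun i => h _
    obtain ⟨K, hK, h2⟩ := h (Fin.last n)
    obtain ⟨J, hJ, h3, h4⟩ := N.dir H hH K hK
    refine ⟨J, hJ, fun i => ?_⟩
    refine Fin.lastCases ?_ (fun i => ?_) i
    · exact hP _ _ _ h4 h2
    · exact hP _ _ _ h3 (h1 i)

theorem term_inv {ι : Type} (t : L[[(Set.univ : Set (PM A N))]].Term ι) :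
    ∃ H ∈ N.F, ∀ g ∈ H, ∀ v : ι → PM A N, t.realize (fun i => g • v i) = g • t.realize v := by
  induction t with
  | var i =>
    obtain ⟨H, hH⟩ := N.ne
    exact ⟨H, hH, fun g _ v => rfl⟩
  | @func n f ts ih =>
    rcases f with f | f
    · exact nomatch (f : Empty)
    · cases n with
      | zero =>
        obtain ⟨H, hH, h1⟩ := pm_symm (Structure.funMap (M := PM A N)
          (L := L[[(Set.univ : Set (PM A N))]]) (Sum.inr f) Fin.elim0)
        refine ⟨H, hH, fun g hg v => ?_⟩
        have h2 : ∀ w : Fin 0 → PM A N, w = Fin.elim0 := fun w => funext fun i => i.elim0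
        change Structure.funMap (M := PM A N) (L := L[[(Set.univ : Set (PM A N))]]) (Sum.inr f) _ =
          g • Structure.funMap (M := PM A N) (L := L[[(Set.univ : Set (PM A N))]]) (Sum.inr f) _
        rw [h2 (fun i => (ts i).realize _), h2 (fun i => (ts i).realize v), h1 g hg]
      | succ n => exact nomatch f

theorem rel_inv {n : ℕ} (r : Sym n) (g : G) (v : Fin n → PM A N) :
    Structure.RelMap (L := L) (r : L.Relations n) (fun i => g • v i) ↔
      Structure.RelMap (L := L) (r : L.Relations n) v := by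
  cases r with
  | isSet => exact isSet_smul
  | mem => exact mem_smul

theorem formula_inv {ι : Type} {n : ℕ} (φ : L[[(Set.univ : Set (PM A N))]].BoundedFormula ι n) :
    ∃ H ∈ N.F, ∀ g ∈ H, ∀ (v : ι → PM A N) (xs : Fin n → PM A N),
      φ.Realize (fun i => g • v i) (fun i => g • xs i) ↔ φ.Realize v xs := by
  induction φ with
  | falsum =>
    obtain ⟨H, hH⟩ := N.ne
    exact ⟨H, hH, fun g _ v xs => Iff.rfl⟩
  | @equal n t₁ t₂ =>
    obtain ⟨H, hH, h1⟩ := term_inv t₁
    obtain ⟨K, hK, h2⟩ := term_inv t₂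
    obtain ⟨J, hJ, h3, h4⟩ := N.dir H hH K hK
    refine ⟨J, hJ, fun g hg v xs => ?_⟩
    have h5 : (Sum.elim (fun i => g • v i) fun i => g • xs i) =
        fun i => g • (Sum.elim v xs) i := by
      funext i
      cases i <;> rfl
    change (t₁.realize _ = t₂.realize _) ↔ (t₁.realize _ = t₂.realize _)
    rw [h5, h1 g (h3 hg), h2 g (h4 hg)]
    exact ⟨fun h => MulAction.injective g h, fun h => congrArg _ h⟩
  | @rel n l R ts =>
    obtain ⟨H, hH, h1⟩ := exists_fin (N := N) (P := fun i H => ∀ g ∈ H, ∀ v : _ → PM A N,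
      (ts i).realize (fun i => g • v i) = g • (ts i).realize v)
      (fun i H K hK h g hg => h g (hK hg)) fun i => term_inv (ts i)
    refine ⟨H, hH, fun g hg v xs => ?_⟩
    have h5 : (Sum.elim (fun i => g • v i) fun i => g • xs i) =
        fun i => g • (Sum.elim v xs) i := by
      funext i
      cases i <;> rfl
    rcases R with R | R
    · change Structure.RelMap (L := L) (M := PM A N) R _ ↔
        Structure.RelMap (L := L) (M := PM A N) R _
      rw [h5]
      have h6 : (fun i => (ts i).realize fun i => g • (Sum.elim v xs) i) =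
          fun i => g • (ts i).realize (Sum.elim v xs) := by
        funext i
        exact h1 i g hg _
      rw [h6]
      exact rel_inv R g _
    · exact R.elim
  | imp φ ψ ih1 ih2 =>
    obtain ⟨H, hH, h1⟩ := ih1
    obtain ⟨K, hK, h2⟩ := ih2
    obtain ⟨J, hJ, h3, h4⟩ := N.dir H hH K hK
    refine ⟨J, hJ, fun g hg v xs => ?_⟩
    rw [BoundedFormula.realize_imp, BoundedFormula.realize_imp, h1 g (h3 hg), h2 g (h4 hg)]
  | @all n φ ih =>
    obtain ⟨H, hH, h1⟩ := ih
    refine ⟨H, hH, fun g hg v xs => ?_⟩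
    rw [BoundedFormula.realize_all, BoundedFormula.realize_all]
    have h2 : ∀ x : PM A N, (Fin.snoc (fun i => g • xs i) (g • x) : Fin (n + 1) → PM A N) =
        fun i => g • (Fin.snoc xs x : Fin (n + 1) → PM A N) i := by
      intro x
      funext i
      refine Fin.lastCases ?_ (fun i => ?_) i
      · rw [Fin.snoc_last, Fin.snoc_last]
      · rw [Fin.snoc_castSucc, Fin.snoc_castSucc]
    constructor
    · intro h x
      have h3 := h (g • x)
      rw [h2] at h3
      exact (h1 g hg v _).1 h3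
    · intro h x
      have h3 := (h1 g hg v _).2 (h (g⁻¹ • x))
      rw [← h2, smul_inv_smul] at h3
      exact h3

theorem D_inv {ι : Type} {p : (ι → PM A N) → Prop} (h : D p) :
    ∃ H ∈ N.F, ∀ g ∈ H, ∀ v, p (fun i => g • v i) ↔ p v := by
  obtain ⟨φ, hφ⟩ := h
  obtain ⟨H, hH, h1⟩ := formula_inv φ
  refine ⟨H, hH, fun g hg v => ?_⟩
  have h2 : ∀ v, p v ↔ φ.Realize v := fun v => by
    have h3 : v ∈ {v | p v} ↔ v ∈ Set.ofPred φ.Realize := by rw [hφ]
    exact h3
  rw [h2, h2]
  have h3 := h1 g hg v default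
  have h4 : (fun i => g • (default : Fin 0 → PM A N) i) = default := Subsingleton.elim _ _
  rw [h4] at h3
  exact h3

end Pool.Agent.Q211.ZP
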