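import Pool.Agent.Q211.ZP.Tr
import Pool.Agent.Q211.ZP.Fn

/-!
# The group of the tree model
-/

set_option autoImplicit false

namespace Pool.Agent.Q211.ZP

open Equiv

/-- The group generated by the transpositions and the swaps of sibling subtrees. -/
def Gt : Subgroup (Perm (List ℕ)) := Subgroup.closure
  {g | (∃ a b, g = Equiv.swap a b) ∨ ∃ t p q, g = ke t p q}

/-- The transposition. -/
def tr (a b : List ℕ) : Gt := ⟨Equiv.swap a b, Subgroup.subset_closure (Or.inl ⟨a, b, rfl⟩)⟩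

/-- The swap of the subtrees above `t ++ [p]` and `t ++ [q]`. -/
def kp (t : List ℕ) (p q : ℕ) : Gt := ⟨ke t p q, Subgroup.subset_closure (Or.inr ⟨t, p, q, rfl⟩)⟩

theorem gt_smul (g : Gt) (a : List ℕ) : g • a = g.1 a := rfl

theorem tr_mul_self (a b : List ℕ) : tr a b * tr a b = 1 := Subtype.ext (Equiv.swap_mul_self a b)

theorem tr_inv (a b : List ℕ) : (tr a b)⁻¹ = tr a b := Subtype.ext (Equiv.swap_inv a b)

theorem tr_self (a : List ℕ) : tr a a = 1 := Subtype.ext (Equiv.swap_self a)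

theorem tr_comm (a b : List ℕ) : tr a b = tr b a := Subtype.ext (Equiv.swap_comm a b)

theorem tr_left (a b : List ℕ) : tr a b • a = b := Equiv.swap_apply_left a b

theorem tr_right (a b : List ℕ) : tr a b • b = a := Equiv.swap_apply_right a b

theorem tr_other {a b x : List ℕ} (h : x ≠ a) (h' : x ≠ b) : tr a b • x = x :=
  Equiv.swap_apply_of_ne_of_ne h h'

theorem mul_tr (g : Gt) (a b : List ℕ) : g * tr a b = tr (g • a) (g • b) * g :=
  Subtype.ext (Equiv.mul_swap_eq_swap_mul g.1 a b)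

theorem conj_tr (g : Gt) (a b : List ℕ) : g * tr a b * g⁻¹ = tr (g • a) (g • b) := by
  rw [mul_tr, mul_inv_cancel_right]

theorem kp_mul_self (t : List ℕ) (p q : ℕ) : kp t p q * kp t p q = 1 :=
  Subtype.ext (ke_mul_self t p q)

theorem kp_inv (t : List ℕ) (p q : ℕ) : (kp t p q)⁻¹ = kp t p q := Subtype.ext (ke_inv t p q)

theorem kp_smul (t : List ℕ) (p q : ℕ) (a : List ℕ) : kp t p q • a = kf p q t a := rfl

theorem kp_kp {s t : List ℕ} (i j p q : ℕ) (h : ¬ t <+: s) :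
    kp s i j * kp t p q = kp (kf i j s t) p q * kp s i j := Subtype.ext (ke_conj_ke i j p q h)

/-- The generators that belong to a support. -/
def Gen (S : Set (List ℕ)) : Set Gt := {g | (∃ a b, a ∉ S ∧ b ∉ S ∧
  (∀ u ∈ S, u <+: a ↔ u <+: b) ∧ g = tr a b) ∨ ∃ t p q, t ∉ S ∧ g = kp t p q}

/-- The subgroup that belongs to a support. -/
def Gs (S : Set (List ℕ)) : Subgroup Gt := Subgroup.closure (Gen S)

theorem tr_mem_Gs {S : Set (List ℕ)} {a b : List ℕ} (ha : a ∉ S) (hb : b ∉ S)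
    (h : ∀ u ∈ S, u <+: a ↔ u <+: b) : tr a b ∈ Gs S :=
  Subgroup.subset_closure (Or.inl ⟨a, b, ha, hb, h, rfl⟩)

theorem kp_mem_Gs {S : Set (List ℕ)} {t : List ℕ} (p q : ℕ) (h : t ∉ S) : kp t p q ∈ Gs S :=
  Subgroup.subset_closure (Or.inr ⟨t, p, q, h, rfl⟩)

theorem Gs_mono {S T : Set (List ℕ)} (h : S ⊆ T) : Gs T ≤ Gs S := by
  refine (Subgroup.closure_le _).2 ?_
  rintro g (⟨a, b, ha, hb, h1, rfl⟩ | ⟨t, p, q, ht, rfl⟩)
  · exact tr_mem_Gs (fun h2 => ha (h h2)) (fun h2 => hb (h h2)) fun u hu => h1 u (h hu)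
  · exact kp_mem_Gs p q fun h2 => ht (h h2)

theorem Gs_ind {S : Set (List ℕ)} {C : Gt → Prop} (h1 : C 1)
    (h2 : ∀ a b g, a ∉ S → b ∉ S → (∀ u ∈ S, u <+: a ↔ u <+: b) → C g → C (tr a b * g))
    (h3 : ∀ t p q g, t ∉ S → C g → C (kp t p q * g)) {g : Gt} (hg : g ∈ Gs S) : C g := by
  refine Subgroup.closure_induction_left (p := fun g _ => C g) h1 ?_ ?_ hg
  · rintro x (⟨a, b, ha, hb, h4, rfl⟩ | ⟨t, p, q, ht, rfl⟩) y _ hy
    · exact h2 a b y ha hb h4 hy
    · exact h3 t p q y ht hy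
  · rintro x (⟨a, b, ha, hb, h4, rfl⟩ | ⟨t, p, q, ht, rfl⟩) y _ hy
    · rw [tr_inv]
      exact h2 a b y ha hb h4 hy
    · rw [kp_inv]
      exact h3 t p q y ht hy

theorem Gt_ind {C : Gt → Prop} (h1 : C 1) (h2 : ∀ a b g, C g → C (tr a b * g))
    (h3 : ∀ t p q g, C g → C (kp t p q * g)) (g : Gt) : C g := by
  obtain ⟨g, hg⟩ := g
  refine Subgroup.closure_induction_left (p := fun g hg => C ⟨g, hg⟩) h1 ?_ ?_ hg
  · rintro x (⟨a, b, rfl⟩ | ⟨t, p, q, rfl⟩) y hy' hy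
    · exact h2 a b ⟨y, hy'⟩ hy
    · exact h3 t p q ⟨y, hy'⟩ hy
  · rintro x (⟨a, b, rfl⟩ | ⟨t, p, q, rfl⟩) y hy' hy
    · exact h2 a b ⟨y, hy'⟩ hy
    · exact h3 t p q ⟨y, hy'⟩ hy

theorem Gs_fix {S : Set (List ℕ)} (hS : Good S) {g : Gt} (hg : g ∈ Gs S) {u : List ℕ}
    (hu : u ∈ S) : g • u = u := by
  refine Gs_ind (C := fun g => g • u = u) (one_smul _ u) ?_ ?_ hg
  · intro a b g ha hb _ h
    rw [mul_smul, h]
    refine tr_other (fun h1 => ha ?_) fun h1 => hb ?_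
    · rwa [← h1]
    · rwa [← h1]
  · intro t p q g ht h
    rw [mul_smul, h]
    exact kf_not fun h1 => ht (hS.2.2 u hu t h1)

theorem Gs_not_mem {S : Set (List ℕ)} (hS : Good S) {g : Gt} (hg : g ∈ Gs S) {a : List ℕ}
    (ha : a ∉ S) : g • a ∉ S := by
  intro h
  have h1 := Gs_fix hS hg h
  rw [MulAction.injective g h1] at h
  exact ha h

theorem Gs_prefix {S : Set (List ℕ)} (hS : Good S) {g : Gt} (hg : g ∈ Gs S) {u : List ℕ}
    (hu : u ∈ S) (c : List ℕ) : u <+: g • c ↔ u <+: c := by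
  refine Gs_ind (C := fun g => u <+: g • c ↔ u <+: c) ?_ ?_ ?_ hg
  · rw [one_smul]
  · intro a b g ha hb hab h
    rw [mul_smul, ← h]
    by_cases h1 : g • c = a
    · rw [h1, tr_left, hab u hu]
    · by_cases h2 : g • c = b
      · rw [h2, tr_right, hab u hu]
      · rw [tr_other h1 h2]
  · intro t p q g ht h
    rw [mul_smul, ← h, kp_smul]
    have h1 : kf p q t u = u := kf_not fun h1 => ht (hS.2.2 u hu t h1)
    have h2 := kf_prefix (p := p) (q := q) (t := t) (w := u) (y := g • c)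
    rwa [h1] at h2

theorem Gs_child {S : Set (List ℕ)} (hS : Good S) {g : Gt} (hg : g ∈ Gs S) {u : List ℕ}
    (hu : u ∈ S) (k : ℕ) : {c | ¬ (u ++ [k] <+: g • c ↔ u ++ [k] <+: c)}.Finite := by
  refine Gs_ind (C := fun g => {c | ¬ (u ++ [k] <+: g • c ↔ u ++ [k] <+: c)}.Finite) ?_ ?_ ?_ hg
  · refine Set.finite_empty.subset fun c hc => ?_
    refine hc ?_
    rw [one_smul]
  · intro a b g ha hb hab h
    refine (h.union ((Set.toFinite {a, b}).preimage (f := fun c => g • c)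
      (MulAction.injective g).injOn)).subset fun c hc => ?_
    by_contra h1
    rw [Set.mem_union, not_or] at h1
    refine hc ?_
    have h2 : g • c ≠ a ∧ g • c ≠ b :=
      ⟨fun h3 => h1.2 (Or.inl h3), fun h3 => h1.2 (Or.inr h3)⟩
    rw [mul_smul, tr_other h2.1 h2.2]
    exact not_not.1 h1.1
  · intro t p q g ht h
    refine h.subset fun c hc => fun h1 => hc ?_
    rw [← h1, mul_smul, kp_smul]
    have h2 : kf p q t (u ++ [k]) = u ++ [k] := kf_fix (fun h1 => ht (hS.2.2 u hu t h1)) k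
    have h3 := kf_prefix (p := p) (q := q) (t := t) (w := u ++ [k]) (y := g • c)
    rwa [h2] at h3

/-- Conjugation by a generator. -/
theorem Gs_conj_tr {S : Set (List ℕ)} (a b : List ℕ) (h1 : a ∈ S) (h2 : b ∈ S)
    (hS : Good S) {g : Gt} (hg : g ∈ Gs S) : tr a b * g = g * tr a b := by
  rw [mul_tr, Gs_fix hS hg h1, Gs_fix hS hg h2]

theorem Gs_conj_kp {S T : Set (List ℕ)} (s : List ℕ) (i j : ℕ) (hs : s ∈ T) (hT : Good T)
    (h : ∀ u ∈ S, kf i j s u ∈ T) {g : Gt} (hg : g ∈ Gs T) : (kp s i j)⁻¹ * g * kp s i j ∈ Gs S := by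
  have h' : ∀ u, u ∉ T → kf i j s u ∉ S := fun u hu h1 => hu (by
    have h2 := h _ h1
    rwa [kf_invol] at h2)
  refine Gs_ind (C := fun g => (kp s i j)⁻¹ * g * kp s i j ∈ Gs S) ?_ ?_ ?_ hg
  · rw [mul_one, inv_mul_cancel]
    exact (Gs S).one_mem
  · intro a b g ha hb hab hg
    have h1 : (kp s i j)⁻¹ * (tr a b * g) * kp s i j =
        tr (kf i j s a) (kf i j s b) * ((kp s i j)⁻¹ * g * kp s i j) := by
      have h2 := mul_tr (kp s i j)⁻¹ a b
      rw [← mul_assoc, h2, kp_inv, kp_smul, kp_smul]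
      group
    rw [h1]
    refine (Gs S).mul_mem (tr_mem_Gs (h' a ha) (h' b hb) fun u hu => ?_) hg
    have h3 := hab _ (h u hu)
    have h4 : ∀ c, kf i j s u <+: c ↔ u <+: kf i j s c := by
      intro c
      have h5 := kf_prefix (p := i) (q := j) (t := s) (w := kf i j s u) (y := c)
      rw [kf_invol] at h5
      exact h5.symm
    rw [← h4, ← h4, h3]
  · intro t p q g ht hg
    have h0 : ¬ t <+: s := fun h1 => ht (hT.2.2 s hs t h1)
    have h1 : (kp s i j)⁻¹ * (kp t p q * g) * kp s i j =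
        kp (kf i j s t) p q * ((kp s i j)⁻¹ * g * kp s i j) := by
      have h2 := kp_kp i j p q h0
      rw [kp_inv, ← mul_assoc, h2]
      group
    rw [h1]
    exact (Gs S).mul_mem (kp_mem_Gs p q (h' t ht)) hg

/-- The filter. -/
def Nt : Flt Gt where
  F := {H | ∃ S, Good S ∧ H = Gs S}
  ne := by
    obtain ⟨S, hS, -⟩ := exists_good Set.finite_empty
    exact ⟨_, S, hS, rfl⟩
  dir := by
    rintro _ ⟨S, hS, rfl⟩ _ ⟨T, hT, rfl⟩
    exact ⟨_, ⟨S ∪ T, hS.union hT, rfl⟩, Gs_mono Set.subset_union_left,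
      Gs_mono Set.subset_union_right⟩
  conj := by
    rintro _ ⟨S, hS, rfl⟩ g
    revert S
    suffices h : ∀ S, Good S → ∃ T, Good T ∧ ∀ k ∈ Gs T, g⁻¹ * k * g ∈ Gs S by
      intro S hS
      obtain ⟨T, hT, h1⟩ := h S hS
      exact ⟨_, ⟨T, hT, rfl⟩, h1⟩
    refine Gt_ind (C := fun g => ∀ S, Good S → ∃ T, Good T ∧ ∀ k ∈ Gs T, g⁻¹ * k * g ∈ Gs S)
      ?_ ?_ ?_ g
    · intro S hS
      refine ⟨S, hS, fun k hk => ?_⟩
      rw [inv_one, one_mul, mul_one]
      exact hk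
    · intro a b g ih S hS
      obtain ⟨T, hT, h1⟩ := ih S hS
      obtain ⟨U, hU, h2⟩ := exists_good (hT.1.union (Set.toFinite {a, b}))
      refine ⟨U, hU, fun k hk => ?_⟩
      have h3 := Gs_conj_tr a b (h2 (Or.inr (Or.inl rfl))) (h2 (Or.inr (Or.inr rfl))) hU hk
      have h4 : (tr a b * g)⁻¹ * k * (tr a b * g) = g⁻¹ * k * g := by
        have h5 : (tr a b * g)⁻¹ * k * (tr a b * g) = g⁻¹ * (tr a b * k * tr a b) * g := by
          rw [mul_inv_rev, tr_inv]
          group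
        rw [h5, h3, mul_assoc k, tr_mul_self, mul_one]
      rw [h4]
      exact h1 k (Gs_mono (Set.subset_union_left.trans h2) hk)
    · intro t p q g ih S hS
      obtain ⟨T, hT, h1⟩ := ih S hS
      obtain ⟨U, hU, h2⟩ := exists_good ((hT.1.image (kf p q t)).union (Set.finite_singleton t))
      refine ⟨U, hU, fun k hk => ?_⟩
      have h3 := Gs_conj_kp (S := T) t p q (h2 (Or.inr rfl)) hU
        (fun u hu => h2 (Or.inl ⟨u, hu, rfl⟩)) hk
      have h4 : (kp t p q * g)⁻¹ * k * (kp t p q * g) =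
          g⁻¹ * ((kp t p q)⁻¹ * k * kp t p q) * g := by
        group
      rw [h4]
      exact h1 _ h3

end Pool.Agent.Q211.ZP
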