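import Mathlib

/-!
# Finitary automorphisms of the tree of the finite sequences of natural numbers
-/

set_option autoImplicit false

namespace Pool.Agent.Q211.ZP

open Equiv

/-- The swap of the subtrees above `t ++ [p]` and `t ++ [q]`. -/
def kf (p q : ℕ) : List ℕ → List ℕ → List ℕ
  | [], [] => []
  | [], k :: r => Equiv.swap p q k :: r
  | _ :: _, [] => []
  | a :: s, b :: r => b :: (if a = b then kf p q s r else r)

theorem kf_invol (p q : ℕ) (t y : List ℕ) : kf p q t (kf p q t y) = y := by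
  induction t generalizing y with
  | nil =>
    cases y with
    | nil => rfl
    | cons k r =>
      change Equiv.swap p q (Equiv.swap p q k) :: r = k :: r
      rw [Equiv.swap_apply_self]
  | cons a s ih =>
    cases y with
    | nil => rfl
    | cons b r =>
      by_cases h : a = b
      · rw [kf, if_pos h, kf, if_pos h, ih]
      · rw [kf, if_neg h, kf, if_neg h]

theorem kf_append (p q : ℕ) (t : List ℕ) (k : ℕ) (r : List ℕ) :
    kf p q t (t ++ k :: r) = t ++ Equiv.swap p q k :: r := by
  induction t with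
  | nil => rfl
  | cons a s ih =>
    rw [List.cons_append, kf, if_pos rfl, ih, List.cons_append]

theorem kf_append' {p q : ℕ} {s t : List ℕ} (h : ¬ t <+: s) (r : List ℕ) :
    kf p q s (t ++ r) = kf p q s t ++ r := by
  induction s generalizing t with
  | nil =>
    cases t with
    | nil => exact (h (List.nil_prefix)).elim
    | cons b t => rfl
  | cons a s ih =>
    cases t with
    | nil => exact (h (List.nil_prefix)).elim
    | cons b t =>
      rw [List.cons_append, kf, kf, List.cons_append]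
      by_cases h1 : a = b
      · rw [if_pos h1, if_pos h1, ih]
        intro h2
        refine h ?_
        rw [h1]
        exact List.cons_prefix_cons.2 ⟨rfl, h2⟩
      · rw [if_neg h1, if_neg h1]

theorem kf_not {p q : ℕ} {t y : List ℕ} (h : ¬ t <+: y) : kf p q t y = y := by
  induction t generalizing y with
  | nil => exact (h (List.nil_prefix)).elim
  | cons a s ih =>
    cases y with
    | nil => rfl
    | cons b r =>
      rw [kf]
      by_cases h1 : a = b
      · rw [if_pos h1, ih]
        intro h2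
        refine h ?_
        rw [h1]
        exact List.cons_prefix_cons.2 ⟨rfl, h2⟩
      · rw [if_neg h1]

theorem kf_self (p q : ℕ) (t : List ℕ) : kf p q t t = t := by
  induction t with
  | nil => rfl
  | cons a s ih => rw [kf, if_pos rfl, ih]

theorem kf_fix {p q : ℕ} {t u : List ℕ} (h : ¬ t <+: u) (k : ℕ) :
    kf p q t (u ++ [k]) = u ++ [k] := by
  by_cases h1 : t <+: u ++ [k]
  · rw [List.prefix_concat_iff] at h1
    rcases h1 with h1 | h1
    · rw [h1, kf_self]
    · exact (h h1).elim
  · exact kf_not h1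

theorem kf_cases (p q : ℕ) (t y : List ℕ) :
    (∃ r, y = t ++ p :: r) ∨ (∃ r, y = t ++ q :: r) ∨ kf p q t y = y := by
  by_cases h : t <+: y
  · obtain ⟨r, rfl⟩ := h
    cases r with
    | nil =>
      refine Or.inr (Or.inr ?_)
      rw [List.append_nil, kf_self]
    | cons k r =>
      by_cases h1 : k = p
      · exact Or.inl ⟨r, by rw [h1]⟩
      · by_cases h2 : k = q
        · exact Or.inr (Or.inl ⟨r, by rw [h2]⟩)
        · refine Or.inr (Or.inr ?_)
          rw [kf_append, Equiv.swap_apply_of_ne_of_ne h1 h2]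
  · exact Or.inr (Or.inr (kf_not h))

theorem kf_prefix' {p q : ℕ} {t w y : List ℕ} (h : w <+: y) : kf p q t w <+: kf p q t y := by
  induction t generalizing w y with
  | nil =>
    obtain ⟨r, rfl⟩ := h
    cases w with
    | nil => exact List.nil_prefix
    | cons k w => exact ⟨r, rfl⟩
  | cons a s ih =>
    obtain ⟨r, rfl⟩ := h
    cases w with
    | nil => exact List.nil_prefix
    | cons b w =>
      rw [List.cons_append, kf, kf]
      refine List.cons_prefix_cons.2 ⟨rfl, ?_⟩
      by_cases h1 : a = b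
      · rw [if_pos h1, if_pos h1]
        exact ih ⟨r, rfl⟩
      · rw [if_neg h1, if_neg h1]
        exact ⟨r, rfl⟩

theorem kf_prefix {p q : ℕ} {t w y : List ℕ} : kf p q t w <+: kf p q t y ↔ w <+: y := by
  refine ⟨fun h => ?_, kf_prefix'⟩
  have h1 := kf_prefix' (p := p) (q := q) (t := t) h
  rwa [kf_invol, kf_invol] at h1

/-- The swap of the subtrees above `t ++ [p]` and `t ++ [q]` as a permutation. -/
def ke (t : List ℕ) (p q : ℕ) : Perm (List ℕ) where
  toFun := kf p q t
  invFun := kf p q t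
  left_inv := kf_invol p q t
  right_inv := kf_invol p q t

theorem ke_apply (t : List ℕ) (p q : ℕ) (y : List ℕ) : ke t p q y = kf p q t y := rfl

theorem ke_mul_self (t : List ℕ) (p q : ℕ) : ke t p q * ke t p q = 1 :=
  Equiv.ext (kf_invol p q t)

theorem ke_inv (t : List ℕ) (p q : ℕ) : (ke t p q)⁻¹ = ke t p q := rfl

theorem ke_same (t : List ℕ) (p : ℕ) : ke t p p = 1 := by
  refine Equiv.ext fun y => ?_
  rw [ke_apply]
  rcases kf_cases p p t y with ⟨r, rfl⟩ | ⟨r, rfl⟩ | h
  · rw [kf_append, Equiv.swap_self]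
    rfl
  · rw [kf_append, Equiv.swap_self]
    rfl
  · rw [h]
    rfl

theorem ke_conj (g : Perm (List ℕ)) {t t' : List ℕ} {p q p' q' : ℕ} (hpq : p ≠ q)
    (hp : ∀ r, g (t ++ p :: r) = t' ++ p' :: r) (hq : ∀ r, g (t ++ q :: r) = t' ++ q' :: r) :
    g * ke t p q = ke t' p' q' * g := by
  refine Equiv.ext fun y => ?_
  rw [Perm.mul_apply, Perm.mul_apply, ke_apply, ke_apply]
  by_cases h1 : ∃ r, y = t ++ p :: r
  · obtain ⟨r, rfl⟩ := h1
    rw [kf_append, Equiv.swap_apply_left, hq, hp, kf_append, Equiv.swap_apply_left]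
  by_cases h2 : ∃ r, y = t ++ q :: r
  · obtain ⟨r, rfl⟩ := h2
    rw [kf_append, Equiv.swap_apply_right, hq, hp, kf_append, Equiv.swap_apply_right]
  have h3 : kf p q t y = y := by
    rcases kf_cases p q t y with h | h | h
    · exact (h1 h).elim
    · exact (h2 h).elim
    · exact h
  rw [h3]
  rcases kf_cases p' q' t' (g y) with ⟨r, hr⟩ | ⟨r, hr⟩ | h
  · rw [← hp] at hr
    exact (h1 ⟨r, g.injective hr⟩).elim
  · rw [← hq] at hr
    exact (h2 ⟨r, g.injective hr⟩).elim
  · exact h.symm

theorem ke_conj_ke {s t : List ℕ} (i j p q : ℕ) (h : ¬ t <+: s) :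
    ke s i j * ke t p q = ke (kf i j s t) p q * ke s i j := by
  by_cases hpq : p = q
  · rw [hpq, ke_same, ke_same, mul_one, one_mul]
  · refine ke_conj _ hpq (fun r => ?_) fun r => ?_
    · rw [ke_apply, kf_append' h]
    · rw [ke_apply, kf_append' h]

/-- Good supports: finite subtrees. -/
def Good (S : Set (List ℕ)) : Prop := S.Finite ∧ [] ∈ S ∧ ∀ t ∈ S, ∀ u, u <+: t → u ∈ S

theorem exists_good {T : Set (List ℕ)} (hT : T.Finite) : ∃ S, Good S ∧ T ⊆ S := by
  refine ⟨⋃ t ∈ insert [] T, {u | u <+: t}, ⟨?_, ?_, ?_⟩, fun t ht => ?_⟩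
  · refine Set.Finite.biUnion (hT.insert _) fun t _ => ?_
    refine (List.finite_toSet t.inits).subset fun u hu => ?_
    exact (List.mem_inits u t).2 hu
  · exact Set.mem_biUnion (Set.mem_insert _ _) (List.prefix_refl _)
  · intro t ht u hu
    rw [Set.mem_iUnion₂] at ht ⊢
    obtain ⟨w, hw, h⟩ := ht
    exact ⟨w, hw, hu.trans h⟩
  · exact Set.mem_biUnion (Set.mem_insert_of_mem _ ht) (List.prefix_refl _)

theorem Good.union {S T : Set (List ℕ)} (hS : Good S) (hT : Good T) : Good (S ∪ T) :=
  ⟨hS.1.union hT.1, Or.inl hS.2.1, fun t ht u hu =>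
    ht.imp (fun h => hS.2.2 t h u hu) fun h => hT.2.2 t h u hu⟩

/-- Below a new child the support is not visible. -/
theorem Good.cell {S : Set (List ℕ)} (hS : Good S) {w c : List ℕ} {k : ℕ} (h : w ++ [k] ∉ S)
    (hc : w ++ [k] <+: c) {u : List ℕ} (hu : u ∈ S) : u <+: c ↔ u <+: w := by
  constructor
  · intro h1
    rcases List.prefix_or_prefix_of_prefix h1 hc with h2 | h2
    · rcases List.prefix_concat_iff.1 h2 with h3 | h3
      · rw [h3] at hu
        exact (h hu).elim
      · exact h3
    · exact (h (hS.2.2 _ hu _ h2)).elim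
  · intro h1
    exact (h1.trans (List.prefix_append _ _)).trans hc

theorem Good.not_mem {S : Set (List ℕ)} (hS : Good S) {w c : List ℕ} (h : w ∉ S)
    (hc : w <+: c) : c ∉ S := fun h1 => h (hS.2.2 _ h1 _ hc)

/-- The longest prefix in the support. -/
theorem Good.longest {S : Set (List ℕ)} (hS : Good S) (c : List ℕ) :
    ∃ w ∈ S, w <+: c ∧ ∀ u ∈ S, u <+: c → u <+: w := by
  induction c using List.reverseRecOn with
  | nil => exact ⟨[], hS.2.1, List.prefix_refl _, fun u _ h => h⟩
  | append_singleton c k ih =>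
    by_cases h : c ++ [k] ∈ S
    · exact ⟨_, h, List.prefix_refl _, fun u _ h => h⟩
    · obtain ⟨w, hw, h1, h2⟩ := ih
      refine ⟨w, hw, h1.trans (List.prefix_append _ _), fun u hu h3 => ?_⟩
      rcases List.prefix_concat_iff.1 h3 with h4 | h4
      · rw [h4] at hu
        exact (h hu).elim
      · exact h2 u hu h4

/-- Almost all children of a node are outside of the support. -/
theorem Good.child {S : Set (List ℕ)} (hS : Good S) (w : List ℕ) :
    ∃ m, ∀ k, m ≤ k → w ++ [k] ∉ S := by
  have h1 : {k | w ++ [k] ∈ S}.Finite := by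
    refine Set.Finite.of_finite_image (f := fun k => w ++ [k]) (hS.1.subset ?_) ?_
    · rintro _ ⟨k, hk, rfl⟩
      exact hk
    · intro a _ b _ hab
      have h2 : w ++ [a] = w ++ [b] := hab
      rw [List.append_cancel_left_eq, List.cons_eq_cons] at h2
      exact h2.1
  obtain ⟨m, hm⟩ := h1.bddAbove
  refine ⟨m + 1, fun k hk h2 => ?_⟩
  have h3 : k ≤ m := hm h2
  omega

/-- A leaf of a larger support may be removed. -/
theorem Good.remove {S T : Set (List ℕ)} (hS : Good S) (hT : Good T) (h : S ⊆ T) (hne : S ≠ T) :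
    ∃ (T' : Set (List ℕ)) (u : List ℕ) (k : ℕ), Good T' ∧ S ⊆ T' ∧ u ∈ T' ∧ u ++ [k] ∉ T' ∧
      T = insert (u ++ [k]) T' := by
  have h1 : (T \ S).Nonempty := by
    rw [Set.nonempty_iff_ne_empty, Ne, Set.diff_eq_empty]
    exact fun h2 => hne (h.antisymm h2)
  obtain ⟨v, hv, hmax⟩ := Set.exists_max_image (T \ S) List.length (hT.1.sdiff) h1
  rcases List.eq_nil_or_concat v with h2 | ⟨u, k, h2⟩
  · rw [h2] at hv
    exact (hv.2 hS.2.1).elim
  have hnp : ∀ t ∈ T, v <+: t → t = v := by
    intro t ht h3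
    by_contra h4
    have h5 : t ∉ S := fun h6 => hv.2 (hS.2.2 t h6 v h3)
    have h6 := hmax t ⟨ht, h5⟩
    exact h4 (h3.eq_of_length_le h6).symm
  rw [List.concat_eq_append] at h2
  refine ⟨T \ {v}, u, k, ⟨hT.1.sdiff, ⟨hT.2.1, fun h3 => ?_⟩, fun t ht w hw => ⟨hT.2.2 t ht.1 w hw,
    fun h3 => ?_⟩⟩, fun t ht => ⟨h ht, fun h3 => ?_⟩, ⟨hT.2.2 v hv.1 u ?_, fun h3 => ?_⟩,
    fun h3 => ?_, ?_⟩
  · have h4 : ([] : List ℕ) = v := h3
    rw [← h4] at hv
    exact hv.2 hS.2.1
  · have h4 : w = v := h3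
    rw [h4] at hw
    exact ht.2 (hnp t ht.1 hw)
  · have h4 : t = v := h3
    rw [← h4] at hv
    exact hv.2 ht
  · rw [h2]
    exact List.prefix_append _ _
  · have h4 : u = v := h3
    rw [h2] at h4
    exact absurd (congrArg List.length h4) (by simp)
  · exact h3.2 h2.symm
  · rw [← h2, Set.insert_sdiff_singleton, Set.insert_eq_of_mem hv.1]

end Pool.Agent.Q211.ZP
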