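import Mathlib

/-!
# The universe of sets with atoms

`U A` is the cumulative hierarchy over a type `A` of atoms, and a group that acts on `A` acts
on `U A`.
-/

set_option autoImplicit false

namespace Pool.Agent.Q211.ZP

/-- Presets with atoms. -/
inductive Pre (A : Type) : Type 1
  | atom (a : A) : Pre A
  | mk (ι : Type) (f : ι → Pre A) : Pre A

namespace Pre

variable {A : Type}

/-- Extensional equality. -/
def Eqv : Pre A → Pre A → Prop
  | .atom a, .atom b => a = b
  | .mk _ f, .mk _ g => (∀ i, ∃ j, Eqv (f i) (g j)) ∧ ∀ j, ∃ i, Eqv (f i) (g j)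
  | .atom _, .mk _ _ => False
  | .mk _ _, .atom _ => False

theorem eqv_mk {ι κ : Type} {f : ι → Pre A} {g : κ → Pre A} :
    Eqv (.mk ι f) (.mk κ g) ↔ (∀ i, ∃ j, Eqv (f i) (g j)) ∧ ∀ j, ∃ i, Eqv (f i) (g j) :=
  Iff.rfl

theorem Eqv.refl : ∀ x : Pre A, Eqv x x
  | .atom _ => rfl
  | .mk _ f => ⟨fun i => ⟨i, Eqv.refl (f i)⟩, fun i => ⟨i, Eqv.refl (f i)⟩⟩

theorem Eqv.symm : ∀ {x y : Pre A}, Eqv x y → Eqv y x
  | .atom _, .atom _, h => Eq.symm h
  | .mk _ _, .mk _ _, h => ⟨fun j => (h.2 j).imp fun _ h1 => Eqv.symm h1,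
      fun i => (h.1 i).imp fun _ h1 => Eqv.symm h1⟩
  | .atom _, .mk _ _, h => h.elim
  | .mk _ _, .atom _, h => h.elim

theorem Eqv.trans : ∀ {x y z : Pre A}, Eqv x y → Eqv y z → Eqv x z
  | .atom _, .atom _, .atom _, h, h' => Eq.trans h h'
  | .mk _ _, .mk _ _, .mk _ _, h, h' => by
      refine ⟨fun i => ?_, fun k => ?_⟩
      · obtain ⟨j, h1⟩ := h.1 i
        obtain ⟨k, h2⟩ := h'.1 j
        exact ⟨k, Eqv.trans h1 h2⟩
      · obtain ⟨j, h1⟩ := h'.2 k
        obtain ⟨i, h2⟩ := h.2 j
        exact ⟨i, Eqv.trans h2 h1⟩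
  | .atom _, .mk _ _, _, h, _ => h.elim
  | .mk _ _, .atom _, _, h, _ => h.elim
  | _, .atom _, .mk _ _, _, h => h.elim
  | _, .mk _ _, .atom _, _, h => h.elim

/-- Membership. -/
def Mem' (x : Pre A) : Pre A → Prop
  | .atom _ => False
  | .mk _ f => ∃ i, Eqv x (f i)

/-- Being an atom. -/
def IsAt : Pre A → Prop
  | .atom _ => True
  | .mk _ _ => False

theorem mem_congr {x y x' y' : Pre A} (hx : Eqv x x') (hy : Eqv y y') :
    Mem' x y ↔ Mem' x' y' := by
  cases y with
  | atom a => cases y' with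
    | atom b => exact Iff.rfl
    | mk κ g => exact hy.elim
  | mk ι f => cases y' with
    | atom b => exact hy.elim
    | mk κ g =>
      constructor
      · rintro ⟨i, hi⟩
        obtain ⟨j, hj⟩ := hy.1 i
        exact ⟨j, (hx.symm.trans hi).trans hj⟩
      · rintro ⟨j, hj⟩
        obtain ⟨i, hi⟩ := hy.2 j
        exact ⟨i, (hx.trans hj).trans hi.symm⟩

theorem isAt_congr {y y' : Pre A} (hy : Eqv y y') : IsAt y ↔ IsAt y' := by
  cases y with
  | atom a => cases y' with
    | atom b => exact Iff.rfl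
    | mk κ g => exact hy.elim
  | mk ι f => cases y' with
    | atom b => exact hy.elim
    | mk κ g => exact Iff.rfl

/-- The action of a map of the atoms. -/
def map {B : Type} (g : A → B) : Pre A → Pre B
  | .atom a => .atom (g a)
  | .mk ι f => .mk ι fun i => map g (f i)

theorem map_congr {B : Type} (g : A → B) : ∀ {x y : Pre A}, Eqv x y → Eqv (map g x) (map g y)
  | .atom _, .atom _, h => congrArg g h
  | .mk _ _, .mk _ _, h => ⟨fun i => (h.1 i).imp fun _ h1 => map_congr g h1,
      fun j => (h.2 j).imp fun _ h1 => map_congr g h1⟩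
  | .atom _, .mk _ _, h => h.elim
  | .mk _ _, .atom _, h => h.elim

theorem map_id : ∀ x : Pre A, map (fun a => a) x = x
  | .atom _ => rfl
  | .mk ι f => by
      rw [map]
      congr 1
      funext i
      exact map_id (f i)

theorem map_comp {B C : Type} (g : B → C) (h : A → B) :
    ∀ x : Pre A, map g (map h x) = map (fun a => g (h a)) x
  | .atom _ => rfl
  | .mk ι f => by
      rw [map, map, map]
      congr 1
      funext i
      exact map_comp g h (f i)

end Pre

/-- The setoid of presets. -/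
instance setoidPre (A : Type) : Setoid (Pre A) where
  r := Pre.Eqv
  iseqv := ⟨Pre.Eqv.refl, Pre.Eqv.symm, Pre.Eqv.trans⟩

/-- The universe of sets with atoms in `A`. -/
def U (A : Type) : Type 1 := Quotient (setoidPre A)

namespace U

variable {A : Type}

/-- The atoms. -/
def atom (a : A) : U A := Quotient.mk _ (.atom a)

/-- Being an atom. -/
def IsAtom (x : U A) : Prop :=
  Quotient.lift Pre.IsAt (fun _ _ h => propext (Pre.isAt_congr h)) x

instance : Membership (U A) (U A) :=
  ⟨fun y x => Quotient.lift₂ Pre.Mem' (fun _ _ _ _ h h' => propext (Pre.mem_congr h h')) x y⟩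

theorem atom_inj {a b : A} : atom a = atom b ↔ a = b :=
  ⟨fun h => Quotient.exact h, fun h => congrArg atom h⟩

theorem isAtom_iff {x : U A} : IsAtom x ↔ ∃ a, x = atom a := by
  constructor
  · refine Quotient.inductionOn x fun y hy => ?_
    cases y with
    | atom a => exact ⟨a, rfl⟩
    | mk ι f => exact hy.elim
  · rintro ⟨a, rfl⟩
    exact trivial

theorem not_mem_atom {x : U A} {a : A} : x ∉ atom a := by
  refine Quotient.inductionOn x fun y hy => ?_
  exact hy

theorem IsAtom.not_mem {x y : U A} (h : IsAtom y) : x ∉ y := by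
  obtain ⟨a, rfl⟩ := isAtom_iff.1 h
  exact not_mem_atom

theorem ext {x y : U A} (hx : ¬ IsAtom x) (hy : ¬ IsAtom y) (h : ∀ z, z ∈ x ↔ z ∈ y) : x = y := by
  revert hx hy h
  refine Quotient.inductionOn₂ x y fun x y hx hy h => ?_
  cases x with
  | atom a => exact (hx trivial).elim
  | mk ι f => cases y with
    | atom b => exact (hy trivial).elim
    | mk κ g =>
      refine Quotient.sound ⟨fun i => ?_, fun j => ?_⟩
      · exact (h (Quotient.mk _ (f i))).1 ⟨i, Pre.Eqv.refl _⟩
      · obtain ⟨i, hi⟩ := (h (Quotient.mk _ (g j))).2 ⟨j, Pre.Eqv.refl _⟩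
        exact ⟨i, Pre.Eqv.symm hi⟩

/-- The set of the values of a small family. -/
noncomputable def mkS {ι : Type} (f : ι → U A) : U A :=
  Quotient.mk _ (.mk ι fun i => (f i).out)

theorem not_isAtom_mkS {ι : Type} (f : ι → U A) : ¬ IsAtom (mkS f) := fun h => h

theorem mem_mkS {ι : Type} {f : ι → U A} {z : U A} : z ∈ mkS f ↔ ∃ i, z = f i := by
  refine Quotient.inductionOn z fun x => ?_
  constructor
  · rintro ⟨i, hi⟩
    refine ⟨i, ?_⟩
    rw [← Quotient.out_eq (f i)]
    exact Quotient.sound hi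
  · rintro ⟨i, hi⟩
    have h1 : Quotient.mk (setoidPre A) x = Quotient.mk (setoidPre A) (f i).out := by
      rw [Quotient.out_eq]
      exact hi
    exact ⟨i, Quotient.exact h1⟩

theorem ind {p : U A → Prop} (h : ∀ x, (∀ y ∈ x, p y) → p x) (x : U A) : p x := by
  refine Quotient.inductionOn x fun y => ?_
  induction y with
  | atom a => exact h _ fun z hz => (not_mem_atom hz).elim
  | mk ι f ih =>
    refine h _ fun z => ?_
    refine Quotient.inductionOn z fun w hw => ?_
    obtain ⟨i, hi⟩ := hw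
    have h1 : (Quotient.mk (setoidPre A) w) = Quotient.mk _ (f i) := Quotient.sound hi
    rw [h1]
    exact ih i

/-- The class of a preset. -/
def cl (y : Pre A) : U A := Quotient.mk _ y

theorem exists_cl (x : U A) : ∃ y, x = cl y := by
  refine Quotient.inductionOn x fun y => ?_
  exact ⟨y, rfl⟩

theorem mem_cl_mk {z : U A} {ι : Type} {f : ι → Pre A} :
    z ∈ cl (.mk ι f) ↔ ∃ i, z = cl (f i) := by
  refine Quotient.inductionOn z fun w => ?_
  constructor
  · rintro ⟨i, hi⟩
    exact ⟨i, Quotient.sound hi⟩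
  · rintro ⟨i, hi⟩
    exact ⟨i, Quotient.exact hi⟩

theorem small (x : U A) : Small.{0} {z // z ∈ x} := by
  obtain ⟨y, rfl⟩ := exists_cl x
  cases y with
  | atom a =>
    have : IsEmpty {z : U A // z ∈ cl (.atom a)} := ⟨fun z => not_mem_atom z.2⟩
    infer_instance
  | mk ι f =>
    refine small_of_surjective (f := fun i : ι =>
      (⟨cl (f i), mem_cl_mk.2 ⟨i, rfl⟩⟩ : {z : U A // z ∈ cl (.mk ι f)})) ?_
    rintro ⟨z, hz⟩
    obtain ⟨i, hi⟩ := mem_cl_mk.1 hz
    exact ⟨i, Subtype.ext hi.symm⟩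

/-- Every small class is a set. -/
theorem exists_set (S : Set (U A)) (h : Small.{0} S) :
    ∃ x : U A, ¬ IsAtom x ∧ ∀ z, z ∈ x ↔ z ∈ S := by
  refine ⟨mkS fun i : Shrink S => ((equivShrink S).symm i).1, not_isAtom_mkS _, fun z => ?_⟩
  rw [mem_mkS]
  constructor
  · rintro ⟨i, rfl⟩
    exact ((equivShrink S).symm i).2
  · intro hz
    exact ⟨equivShrink S ⟨z, hz⟩, by rw [Equiv.symm_apply_apply]⟩

theorem mem_irrefl (x : U A) : x ∉ x := by
  refine ind (p := fun x => x ∉ x) (fun x ih hx => ih x hx hx) x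

theorem mem_asymm {x y : U A} (h : x ∈ y) : y ∉ x := by
  revert y
  refine ind (p := fun x => ∀ {y}, x ∈ y → y ∉ x) (fun x ih y hxy hyx => ih y hyx hyx hxy) x

variable {G : Type} [Group G] [MulAction G A]

/-- The action on the universe. -/
def act (g : G) : U A → U A :=
  Quotient.map' (Pre.map fun a => g • a) fun _ _ h => Pre.map_congr _ h

theorem act_mem_act {g : G} {x y : U A} (h : x ∈ y) : act g x ∈ act g y := by
  revert h
  refine Quotient.inductionOn₂ x y fun x y h => ?_
  cases y with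
  | atom a => exact h
  | mk ι f =>
    obtain ⟨i, hi⟩ := h
    exact ⟨i, Pre.map_congr _ hi⟩

instance : MulAction G (U A) where
  smul g x := act g x
  one_smul x := by
    refine Quotient.inductionOn x fun x => ?_
    change Quotient.mk _ (Pre.map (fun a => (1 : G) • a) x) = _
    congr 1
    have h : (fun a : A => (1 : G) • a) = fun a => a := by
      funext a
      exact one_smul G a
    rw [h, Pre.map_id]
  mul_smul g h x := by
    refine Quotient.inductionOn x fun x => ?_
    change Quotient.mk _ (Pre.map (fun a => (g * h) • a) x) =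
      Quotient.mk _ (Pre.map (fun a => g • a) (Pre.map (fun a => h • a) x))
    rw [Pre.map_comp]
    congr 2
    funext a
    exact mul_smul g h a

theorem smul_atom (g : G) (a : A) : g • (atom a : U A) = atom (g • a) := rfl

theorem smul_mem_smul {g : G} {x y : U A} : g • x ∈ g • y ↔ x ∈ y := by
  refine ⟨fun h => ?_, fun h => act_mem_act h⟩
  have h1 : g⁻¹ • g • x ∈ g⁻¹ • g • y := act_mem_act h
  rwa [inv_smul_smul, inv_smul_smul] at h1

theorem mem_smul_iff {g : G} {x y : U A} : x ∈ g • y ↔ g⁻¹ • x ∈ y := by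
  rw [← smul_mem_smul (g := g) (x := g⁻¹ • x), smul_inv_smul]

theorem isAtom_smul {g : G} {x : U A} : IsAtom (g • x) ↔ IsAtom x := by
  constructor
  · intro h
    obtain ⟨a, ha⟩ := isAtom_iff.1 h
    refine isAtom_iff.2 ⟨g⁻¹ • a, ?_⟩
    rw [← smul_atom, ← ha, inv_smul_smul]
  · intro h
    obtain ⟨a, rfl⟩ := isAtom_iff.1 h
    exact isAtom_iff.2 ⟨g • a, rfl⟩

end U

end Pool.Agent.Q211.ZP
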