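import Pool.Agent.Q211.ZP.M

/-!
# The universe of sets with atoms is a model of ZFA and the axiom of choice
-/

set_option autoImplicit false

namespace Pool.Agent.Q211.ZP

open Pool.Agent.Helper672.ZFA FirstOrder FirstOrder.Language

variable {A : Type}

instance : L.Structure (U A) where
  funMap := fun {_} f _ => nomatch (f : Empty)
  RelMap := fun {_} r => match r with
    | Sym.isSet => fun v => ¬ (v 0).IsAtom
    | Sym.mem => fun v => (v 0) ∈ (v 1)

theorem u_isSet_iff {x : U A} : IsSet x ↔ ¬ x.IsAtom := Iff.rfl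

theorem u_mem_iff {x y : U A} : Mem x y ↔ x ∈ y := Iff.rfl

theorem u_small (x : U A) : _root_.Small.{0} {z : U A | Mem z x} := U.small x

theorem u_exists_set {S : Set (U A)} (hS : _root_.Small.{0} S) :
    ∃ x : U A, IsSet x ∧ ∀ z, Mem z x ↔ z ∈ S := U.exists_set S hS

theorem u_pair (x y : U A) : ∃ p : U A, IsSet p ∧ ∀ z, Mem z p ↔ z = x ∨ z = y := by
  have h1 : _root_.Small.{0} ({x} ∪ {y} : Set (U A)) := small_union _ _
  obtain ⟨p, hp, h⟩ := u_exists_set h1
  exact ⟨p, hp, h⟩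

theorem u_succ (x : U A) : ∃ s : U A, IsSet s ∧ ∀ z, Mem z s ↔ Mem z x ∨ z = x := by
  have := u_small x
  have hs : _root_.Small.{0} ({z : U A | Mem z x} ∪ {x} : Set (U A)) := small_union _ _
  obtain ⟨p, hp, h⟩ := u_exists_set hs
  exact ⟨p, hp, h⟩

theorem u_empty : ∃ s : U A, IsSet s ∧ ∀ z, ¬ Mem z s := by
  obtain ⟨x, hx, h⟩ := u_exists_set (S := (∅ : Set (U A))) (by infer_instance)
  exact ⟨x, hx, fun z hz => (h z).1 hz⟩

/-- Natural numbers. -/
noncomputable def uN : ℕ → U A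
  | 0 => u_empty.choose
  | n + 1 => (u_succ (uN n)).choose

instance : ZFA (U A) where
  atoms x y h := fun h1 => U.IsAtom.not_mem h1 h
  ext x y hx hy h := U.ext hx hy h
  pairing := u_pair
  union x _ := by
    have := u_small x
    have h2 : ∀ y : {z : U A | Mem z x}, _root_.Small.{0} {z : U A | Mem z y.1} :=
      fun y => u_small y.1
    have hs : _root_.Small.{0} (⋃ y : {z : U A | Mem z x}, {z : U A | Mem z y.1}) :=
      small_iUnion _
    obtain ⟨p, hp, h⟩ := u_exists_set hs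
    refine ⟨p, hp, fun z => (h z).trans ?_⟩
    rw [Set.mem_iUnion]
    exact ⟨fun ⟨y, hy⟩ => ⟨y.1, y.2, hy⟩, fun ⟨y, hy, hz⟩ => ⟨⟨y, hy⟩, hz⟩⟩
  power x _ := by
    have := u_small x
    have hs : _root_.Small.{0} {z : U A | IsSet z ∧ ∀ w, Mem w z → Mem w x} := by
      refine small_of_injective (f := fun z : {z : U A | IsSet z ∧ ∀ w, Mem w z → Mem w x} =>
        ({w | Mem w.1 z.1} : Set {w : U A | Mem w x})) fun a b hab => ?_
      refine Subtype.ext (U.ext a.2.1 b.2.1 fun w => ?_)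
      constructor
      · intro hw
        have h2 := congrArg (fun s : Set {w : U A | Mem w x} =>
          (⟨w, a.2.2 w hw⟩ : {w : U A | Mem w x}) ∈ s) hab
        exact (Eq.mp h2 hw : _)
      · intro hw
        have h2 := congrArg (fun s : Set {w : U A | Mem w x} =>
          (⟨w, b.2.2 w hw⟩ : {w : U A | Mem w x}) ∈ s) hab.symm
        exact (Eq.mp h2 hw : _)
    obtain ⟨p, hp, h⟩ := u_exists_set hs
    exact ⟨p, hp, fun z => h z⟩
  infinity := by
    have hs : _root_.Small.{0} (Set.range (uN : ℕ → U A)) := small_range _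
    obtain ⟨p, hp, h⟩ := u_exists_set hs
    refine ⟨p, ⟨uN 0, (h _).2 ⟨0, rfl⟩, u_empty.choose_spec.1, u_empty.choose_spec.2⟩,
      fun n hn => ?_⟩
    obtain ⟨k, rfl⟩ := (h _).1 hn
    exact ⟨uN (k + 1), (h _).2 ⟨k + 1, rfl⟩, (u_succ (uN k)).choose_spec.1,
      (u_succ (uN k)).choose_spec.2⟩
  separation S _ x _ := by
    have := u_small x
    have hs : _root_.Small.{0} {z : U A | Mem z x ∧ z ∈ S} :=
      small_subset (s := {z : U A | Mem z x}) fun z (hz : Mem z x ∧ z ∈ S) => hz.1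
    obtain ⟨p, hp, h⟩ := u_exists_set hs
    exact ⟨p, hp, fun z => h z⟩
  replacement R _ x _ hf := by
    have := u_small x
    have hs : _root_.Small.{0} {y : U A | ∃ z, Mem z x ∧ (z, y) ∈ R} := by
      have h5 : _root_.Small.{0} (Set.range fun z : {z : U A | Mem z x} =>
        (hf z.1 z.2).choose) := small_range _
      refine small_subset (s := Set.range fun z : {z : U A | Mem z x} =>
        (hf z.1 z.2).choose) ?_
      rintro y ⟨z, hz, hy⟩
      exact ⟨⟨z, hz⟩, ((hf z hz).choose_spec.2 y hy).symm⟩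
    obtain ⟨p, hp, h⟩ := u_exists_set hs
    exact ⟨p, hp, fun y => h y⟩
  foundation x hx := by
    by_contra hc
    push Not at hc
    have h1 : ∀ y : U A, ¬ Mem y x := by
      intro y
      refine U.ind (p := fun y => ¬ Mem y x) (fun y ih hyx => ?_) y
      obtain ⟨z, hz, hzx⟩ := hc y hyx
      exact ih z hz hzx
    obtain ⟨y, hy⟩ := hx
    exact h1 y hy
  atomSet := by
    have hs : _root_.Small.{0} {z : U A | ¬ IsSet z} := by
      have h1 : ∀ z : {z : U A | ¬ IsSet z}, ∃ a, z.1 = U.atom a := fun z =>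
        U.isAtom_iff.1 (not_not.1 z.2)
      choose f hf using h1
      refine small_of_injective (f := f) fun a b hab => Subtype.ext ?_
      rw [hf a, hf b, hab]
    obtain ⟨p, hp, h⟩ := u_exists_set hs
    exact ⟨p, hp, fun z => h z⟩

theorem isOrdPair_op {M : Type*} [L.Structure M] [IsModel M] (x y : M) :
    IsOrdPair (op x y) x y :=
  ⟨up x x, up x y, ⟨isSet_up _ _, fun _ => mem_up⟩, ⟨isSet_up _ _, fun _ => mem_up⟩,
    isSet_up _ _, fun _ => mem_up⟩

theorem isOrdPair_eq_op {M : Type*} [L.Structure M] [hM : IsModel M] {p x y : M}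
    (h : IsOrdPair p x y) : p = op x y := by
  obtain ⟨s, d, hs, hd, hp⟩ := h
  have h1 : s = up x x := eq_up.2 hs
  have h2 : d = up x y := eq_up.2 hd
  subst h1 h2
  exact eq_up.2 hp

theorem u_AC : AC (U A) := by
  classical
  intro a _ ha
  have : Nonempty (U A) := ⟨a⟩
  choose! c hc using fun x hx => (ha x hx).2
  have := u_small a
  have hs : _root_.Small.{0} {q : U A | ∃ x, Mem x a ∧ q = op x (c x)} := by
    refine small_subset (s := Set.range fun x : {x : U A | Mem x a} => op x.1 (c x.1)) ?_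
    rintro q ⟨x, hx, rfl⟩
    exact ⟨⟨x, hx⟩, rfl⟩
  obtain ⟨f, hf, hf'⟩ := u_exists_set hs
  refine ⟨f, hf, fun q hq => ?_, fun x hx => ?_⟩
  · obtain ⟨x, hx, rfl⟩ := (hf' q).1 hq
    exact ⟨x, c x, hx, hc x hx, isOrdPair_op _ _⟩
  · refine ⟨c x, ⟨op x (c x), isOrdPair_op _ _, (hf' _).2 ⟨x, hx, rfl⟩⟩, ?_⟩
    rintro y ⟨q, hq, hqf⟩
    obtain ⟨x', -, h1⟩ := (hf' q).1 hqf
    rw [isOrdPair_eq_op hq] at h1
    obtain ⟨h2, h3⟩ := op_inj h1
    rw [h3, h2]

end Pool.Agent.Q211.ZP
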